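import Pool.Agent.MG.WL.CL.StmtsC

/-!
# AFC: the complement of a principal point in an affine open set is affine
-/

open CategoryTheory AlgebraicGeometry TopologicalSpace

namespace Pool.Agent.MG.WL.CL

namespace AFC_

/-- Locally the complement of the point is affine. -/
theorem loc {X : Scheme.{0}} {p : X} (c : Cht p) {V V' : X.Opens} (hV : IsAffineOpen V)
    (h : ∀ x, x ∈ V' ↔ x ∈ V ∧ x ≠ p) (x : X) (hx : x ∈ V) :
    ∃ f : Γ(X, V), x ∈ X.basicOpen f ∧ IsAffineOpen (V' ⊓ X.basicOpen f) := by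
  by_cases hp : x = p
  · subst hp
    have hx' : x ∈ (V ⊓ c.N : X.Opens) := ⟨hx, c.mem⟩
    obtain ⟨f, hf, hxf⟩ := hV.exists_basicOpen_le (V := V ⊓ c.N) ⟨x, hx'⟩ hx
    refine ⟨f, hxf, ?_⟩
    have hfN : X.basicOpen f ≤ c.N := hf.trans inf_le_right
    have e : V' ⊓ X.basicOpen f =
        X.basicOpen (X.presheaf.map (homOfLE hfN).op c.z) := by
      rw [Scheme.basicOpen_res]
      ext y
      constructor
      · rintro ⟨h1, h2⟩
        exact ⟨h2, (c.bas y (hfN h2)).mpr ((h y).mp h1).2⟩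
      · rintro ⟨h1, h2⟩
        exact ⟨(h y).mpr ⟨X.basicOpen_le f h1, (c.bas y (hfN h1)).mp h2⟩, h1⟩
    rw [e]
    exact (hV.basicOpen f).basicOpen _
  · have hx' : x ∈ V' := (h x).mpr ⟨hx, hp⟩
    obtain ⟨f, hf, hxf⟩ := hV.exists_basicOpen_le (V := V') ⟨x, hx'⟩ hx
    refine ⟨f, hxf, ?_⟩
    rw [inf_eq_right.mpr hf]
    exact hV.basicOpen f

end AFC_

theorem t_AFC : Stmt_AFC := by
  intro X p c V V' hV h
  have hle : V' ≤ V := fun x hx => ((h x).mp hx).1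
  let s : Set Γ(X, V) := {f | IsAffineOpen (V' ⊓ X.basicOpen f)}
  have hs : Ideal.span s = ⊤ := by
    rw [← hV.self_le_iSup_basicOpen_iff]
    intro x hx
    obtain ⟨f, hxf, hf⟩ := AFC_.loc c hV h x hx
    exact Opens.mem_iSup.mpr ⟨⟨f, hf⟩, hxf⟩
  let r := (X.presheaf.map (homOfLE hle).op).hom
  refine isAffineOpen_of_isAffineOpen_basicOpen V' (r '' s) ?_ ?_
  · rw [← Ideal.map_span r, hs, Ideal.map_top]
  · rintro _ ⟨f, hf, rfl⟩
    have e : X.basicOpen (r f) = V' ⊓ X.basicOpen f := Scheme.basicOpen_res X f (homOfLE hle).op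
    rw [e]
    exact hf

end Pool.Agent.MG.WL.CL
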