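import Pool.Agent.MG.WL.CL.StmtsC

/-!
# ARITH: the combinatorics
-/

open CategoryTheory AlgebraicGeometry IsLocalRing TopologicalSpace

namespace Pool.Agent.MG.WL.CL

namespace ARITH_

variable {X : Type} [TopologicalSpace X] [NoetherianSpace X] [ConnectedSpace X]

/-- In a connected reducible Noetherian space every component meets another one. -/
theorem meets (hX : ¬ IrreducibleSpace X) {Z : Set X} (hZ : Z ∈ irreducibleComponents X) :
    ∃ Z' ∈ irreducibleComponents X, Z ≠ Z' ∧ (Z ∩ Z').Nonempty := by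
  have hfin : (irreducibleComponents X).Finite := NoetherianSpace.finite_irreducibleComponents
  have hfin' : (irreducibleComponents X \ {Z}).Finite := hfin.subset Set.sdiff_subset
  have hcl : IsClosed (⋃₀ (irreducibleComponents X \ {Z})) := by
    rw [Set.sUnion_eq_biUnion]
    exact hfin'.isClosed_biUnion fun W hW => isClosed_of_mem_irreducibleComponents W hW.1
  have hZcl : IsClosed Z := isClosed_of_mem_irreducibleComponents Z hZ
  have hcov : Z ∪ ⋃₀ (irreducibleComponents X \ {Z}) = Set.univ := by
    refine Set.eq_univ_of_forall fun x => ?_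
    by_cases h : irreducibleComponent x = Z
    · exact Or.inl (h ▸ mem_irreducibleComponent)
    · exact Or.inr ⟨_, ⟨irreducibleComponent_mem_irreducibleComponents x, h⟩,
        mem_irreducibleComponent⟩
  have hirr : IsIrreducible Z := hZ.1
  have hne : (⋃₀ (irreducibleComponents X \ {Z})).Nonempty := by
    by_contra hem
    rw [Set.not_nonempty_iff_eq_empty] at hem
    rw [hem, Set.union_empty] at hcov
    refine hX ?_
    rw [hcov] at hirr
    exact { isPreirreducible_univ := hirr.2, toNonempty := ⟨hirr.1.some⟩ }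
  have hpre : IsPreconnected (Set.univ : Set X) := isPreconnected_univ
  rw [isPreconnected_closed_iff] at hpre
  obtain ⟨x, -, hx1, W, ⟨hW1, hW2⟩, hx2⟩ := hpre Z _ hZcl hcl (by rw [hcov])
    (by rw [Set.univ_inter]; exact hirr.1) (by rw [Set.univ_inter]; exact hne)
  exact ⟨W, hW1, fun h => hW2 h.symm, x, hx1, hx2⟩

end ARITH_

open ARITH_ in
theorem t_ARITH : Stmt_ARITH := by
  classical
  intro X _ _ _ D good s hDf hD h3 hcount hs hX
  have hfin : (irreducibleComponents X).Finite := NoetherianSpace.finite_irreducibleComponents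
  by_contra hno
  push Not at hno
  obtain ⟨I, hI⟩ : ∃ I : Finset (Set X), (I : Set (Set X)) = irreducibleComponents X :=
    ⟨hfin.toFinset, hfin.coe_toFinset⟩
  obtain ⟨D', hD'⟩ : ∃ D' : Finset X, (D' : Set X) = D := ⟨hDf.toFinset, hDf.coe_toFinset⟩
  have hmI : ∀ Z, Z ∈ I ↔ Z ∈ irreducibleComponents X := fun Z => by rw [← hI]; simp
  have hmD : ∀ x, x ∈ D' ↔ x ∈ D := fun x => by rw [← hD']; simp
  have hsD : s ∉ D' := fun h => hs ((hmD s).1 h)
  -- every component meets `D`
  have hne : ∀ Z ∈ irreducibleComponents X, (Z ∩ D).Nonempty := by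
    intro Z hZ
    obtain ⟨Z', hZ', hne, x, hx, hx'⟩ := meets hX hZ
    exact ⟨x, hx, (hD x).2 ⟨Z, hZ, Z', hZ', hne, hx, hx'⟩⟩
  have hcard : ∀ Z : Set X, (Z ∩ (D ∪ {s})).ncard = ((insert s D').filter (· ∈ Z)).card := by
    intro Z
    rw [← Set.ncard_coe_finset]
    congr 1
    ext x
    simp only [Set.mem_inter_iff, Set.mem_union, Set.mem_singleton_iff, Finset.coe_filter,
      Finset.mem_insert, Set.mem_ofPred_eq, hmD]
    tauto
  -- double counting
  have hdc : ∑ Z ∈ I, ((insert s D').filter (· ∈ Z)).card =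
      ∑ x ∈ insert s D', (I.filter (x ∈ ·)).card := by
    simp only [Finset.card_filter]
    exact Finset.sum_comm
  have hup : ∑ x ∈ insert s D', (I.filter (x ∈ ·)).card ≤ 1 + 2 * D'.card := by
    rw [Finset.sum_insert hsD]
    refine Nat.add_le_add ?_ ?_
    · rw [Finset.card_le_one]
      intro Z hZ Z' hZ'
      rw [Finset.mem_filter, hmI] at hZ hZ'
      by_contra hne
      exact hs ((hD s).2 ⟨Z, hZ.1, Z', hZ'.1, hne, hZ.2, hZ'.2⟩)
    · rw [mul_comm]
      refine Finset.sum_le_card_nsmul D' _ 2 fun x hx => ?_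
      obtain ⟨Z, hZ, Z', hZ', hne, hxZ, hxZ'⟩ := (hD x).1 ((hmD x).1 hx)
      have hsub : I.filter (x ∈ ·) ⊆ {Z, Z'} := by
        intro W hW
        rw [Finset.mem_filter, hmI] at hW
        rw [Finset.mem_insert, Finset.mem_singleton]
        exact h3 Z hZ Z' hZ' hne W hW.1 x hxZ hxZ' hW.2
      exact (Finset.card_le_card hsub).trans Finset.card_le_two
  have hlow : ∑ Z ∈ I, (if good Z then 3 else 1) ≤
      ∑ Z ∈ I, ((insert s D').filter (· ∈ Z)).card := by
    refine Finset.sum_le_sum fun Z hZ => ?_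
    rw [hmI] at hZ
    rw [← hcard]
    split_ifs with hg
    · exact hno Z hZ hg (hne Z hZ)
    · have hsubs : Z ∩ D ⊆ Z ∩ (D ∪ {s}) := Set.inter_subset_inter_right _ Set.subset_union_left
      have hf : (Z ∩ (D ∪ {s})).Finite := (hDf.union (Set.finite_singleton s)).subset
        Set.inter_subset_right
      exact (Set.ncard_pos hf).2 ((hne Z hZ).mono hsubs)
  have hsum : ∑ Z ∈ I, (if good Z then 3 else 1) =
      (I.filter fun Z => good Z).card * 3 + (I.filter fun Z => ¬ good Z).card := by
    rw [Finset.sum_ite, Finset.sum_const, Finset.sum_const, smul_eq_mul, smul_eq_mul, mul_one]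
  have hsplit : (I.filter fun Z => good Z).card + (I.filter fun Z => ¬ good Z).card = I.card :=
    Finset.card_filter_add_card_filter_not _
  have e1 : D.ncard = D'.card := by rw [← hD', Set.ncard_coe_finset]
  have e2 : (irreducibleComponents X).ncard = I.card := by rw [← hI, Set.ncard_coe_finset]
  have e3 : {Z | Z ∈ irreducibleComponents X ∧ ¬ good Z}.ncard =
      (I.filter fun Z => ¬ good Z).card := by
    rw [← Set.ncard_coe_finset]
    congr 1
    ext Z
    simp [hmI]
  rw [e1, e2, e3] at hcount
  -- at least two components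
  obtain ⟨x⟩ : Nonempty X := inferInstance
  obtain ⟨Z', hZ', hne', -⟩ := meets hX (irreducibleComponent_mem_irreducibleComponents x)
  have h2 : 1 < I.card := Finset.one_lt_card.2
    ⟨irreducibleComponent x, (hmI _).2 (irreducibleComponent_mem_irreducibleComponents x), Z',
      (hmI _).2 hZ', hne'⟩
  omega

end Pool.Agent.MG.WL.CL
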