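import Pool.Agent.MG.WL.CL.StmtsC

/-!
# MPC: minimal primes of local rings of reduced schemes
-/

open CategoryTheory AlgebraicGeometry IsLocalRing TopologicalSpace
open Pool.Agent.MG.Two Pool.Agent.MG.W Pool.Agent.MG.W.W0 Pool.Agent.MG.One

namespace Pool.Agent.MG.WL.CL

namespace MPC_

variable {X : Scheme.{0}}

/-- The prime ideal of a generisation. -/
noncomputable def pr {x y : X} (h : y ⤳ x) : Ideal (X.presheaf.stalk x) :=
  (maximalIdeal (X.presheaf.stalk y)).comap (X.presheaf.stalkSpecializes h).hom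

theorem pr_prime {x y : X} (h : y ⤳ x) : (pr h).IsPrime := by
  unfold pr
  infer_instance

/-- The local rings at the generic points are fields. -/
theorem max_bot [IsReduced X] (hG : Stmt_GSP) {η : X} (hη : Gen η) :
    maximalIdeal (X.presheaf.stalk η) = ⊥ := by
  rw [eq_bot_iff]
  intro a ha
  obtain ⟨h1, -, h3⟩ := hG η
  have h4 : IsNilpotent a := by
    rw [nilpotent_iff_mem_prime]
    intro P hP
    obtain ⟨y, h, hy⟩ := h1 P hP
    have e : y = η := hη y h
    subst e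
    rw [← hy, h3 h]
    exact ha
  exact h4.eq_zero

theorem ker_eq [IsReduced X] (hG : Stmt_GSP) {x η : X} (h : η ⤳ x) (hη : Gen η) :
    RingHom.ker (X.presheaf.stalkSpecializes h).hom = pr h := by
  unfold pr
  rw [max_bot hG hη]
  rfl

end MPC_

open MPC_ in
theorem t_MPC (hG : Stmt_GSP) : Stmt_MPC := by
  intro X _ x
  obtain ⟨g1, g2, -⟩ := hG x
  have g2' : ∀ (y y' : X) (h : y ⤳ x) (h' : y' ⤳ x), pr h ≤ pr h' ↔ y ⤳ y' := g2
  have g1' : ∀ P : Ideal (X.presheaf.stalk x), P.IsPrime → ∃ (y : X) (h : y ⤳ x), pr h = P := g1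
  refine ⟨?_, ?_, ?_⟩
  · intro η h hη
    rw [ker_eq hG h hη]
    refine ⟨⟨pr_prime h, bot_le⟩, ?_⟩
    rintro Q ⟨hQ, -⟩ hle
    obtain ⟨y, hy, rfl⟩ := g1' Q hQ
    have e : y = η := hη y ((g2' y η hy h).1 hle)
    subst e
    exact le_rfl
  · intro η η' h h' hη hη' he
    rw [ker_eq hG h hη, ker_eq hG h' hη'] at he
    exact hη' η ((g2' η η' h h').1 he.le)
  · intro P hP
    obtain ⟨y, h, rfl⟩ := g1' P hP.1.1
    have hy : Gen y := by
      intro z hz
      have hzx : z ⤳ x := hz.trans h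
      have h1 : pr hzx ≤ pr h := (g2' z y hzx h).2 hz
      have h2 : pr h ≤ pr hzx := hP.2 ⟨pr_prime hzx, bot_le⟩ h1
      exact (hz.antisymm ((g2' y z h hzx).1 h2)).eq
    exact ⟨y, h, hy, ker_eq hG h hy⟩

end Pool.Agent.MG.WL.CL
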