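import Pool.Agent.MG.WL.CL.StmtsC
import Pool.Agent.MG.WL.CL.MPC

/-!
# CE: the irreducible components of a nodal curve
-/

open CategoryTheory AlgebraicGeometry IsLocalRing TopologicalSpace
open Pool.Agent.MG.Two Pool.Agent.MG.W Pool.Agent.MG.W.W0 Pool.Agent.MG.One

namespace Pool.Agent.MG.WL.CL

namespace CE_

/-- The quotient by the kernel of a map to a reduced ring is reduced. -/
theorem isReduced_quot {A B : Type} [CommRing A] [CommRing B] [_root_.IsReduced B] (f : A →+* B)
    (I : Ideal A) (hI : I = RingHom.ker f) : _root_.IsReduced (A ⧸ I) := by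
  subst hI
  have h := RingHom.kerLift_injective f
  exact isReduced_of_injective (RingHom.kerLift f) h

theorem isReduced_comp {X : Scheme.{0}} [IsNoetherian X] [IsReduced X] {Z : Set X}
    (hZ : Z ∈ irreducibleComponents X) : IsReduced (X.irreducibleComponent Z hZ) := by
  let I := X.irreducibleComponentIdeal Z hZ
  have h : ∀ U : X.affineOpens, _root_.IsReduced (Γ(X, U) ⧸ I.ideal U) := by
    intro U
    apply isReduced_quot ((X.irreducibleComponentOpen Z).ι.app U.1).hom
    rw [← Scheme.Hom.ker_apply]
    congr 1
    exact X.irreducibleComponentIdeal_def Z hZ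
  have h2 : ∀ U : I.subschemeCover.openCover.I₀, IsReduced (I.subschemeCover.openCover.X U) := by
    intro U
    have h3 : _root_.IsReduced (I.subschemeCover.X U) := h U
    exact (inferInstance : IsReduced (Spec (I.subschemeCover.X U)))
  exact IsReduced.of_openCover _ I.subschemeCover.openCover

/-- The generic point of a component. -/
theorem gen_of_range {E X : Scheme.{0}} (ι : E ⟶ X) [IsClosedImmersion ι] [IsIntegral E]
    (hr : Set.range ι ∈ irreducibleComponents X) : Gen (ι (genericPoint E)) := by
  intro y hy
  have h1 : closure {ι (genericPoint E)} = Set.range ι := by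
    have h2 := ι.isClosedEmbedding.closure_image_eq {genericPoint E}
    rw [Set.image_singleton, genericPoint_closure, Set.image_univ] at h2
    exact h2
  have h3 : Set.range ι ⊆ closure {y} := by
    rw [← h1]
    exact hy.closure_subset
  have h4 : closure {y} ⊆ Set.range ι := hr.2 isIrreducible_singleton.closure h3
  have h5 : ι (genericPoint E) ⤳ y := by
    rw [specializes_iff_mem_closure, h1]
    exact h4 (subset_closure rfl)
  exact (hy.antisymm h5).eq

/-- The kernel on local rings. -/
theorem ker_min (hM : Stmt_MPC) {E X : Scheme.{0}} (ι : E ⟶ X) [IsClosedImmersion ι]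
    [IsIntegral E] [IsReduced X] (hr : Set.range ι ∈ irreducibleComponents X)
    (hf : IsField (X.presheaf.stalk (ι (genericPoint E)))) (y : E) :
    RingHom.ker (ι.stalkMap y).hom ∈ minimalPrimes (X.presheaf.stalk (ι y)) := by
  have hs : genericPoint E ⤳ y := genericPoint_specializes y
  have hs' : ι (genericPoint E) ⤳ ι y := hs.map ι.continuous
  have h1 := (hM (ι y)).1 _ hs' (gen_of_range ι hr)
  have h2 : RingHom.ker (ι.stalkMap y).hom =
      RingHom.ker (X.presheaf.stalkSpecializes hs').hom := by
    ext a
    rw [RingHom.mem_ker, RingHom.mem_ker]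
    have h3 := Scheme.Hom.stalkSpecializes_stalkMap_apply ι _ _ hs a
    have i1 : Function.Injective (E.presheaf.stalkSpecializes hs).hom := by
      have := IsFractionRing.injective (E.presheaf.stalk y) E.functionField
      exact this
    let _ := hf.toField
    have i2 : Function.Injective (ι.stalkMap (genericPoint E)).hom :=
      (ι.stalkMap (genericPoint E)).hom.injective
    constructor
    · intro h
      apply i2
      rw [map_zero]
      refine Eq.trans h3 ?_
      refine Eq.trans (congrArg (E.presheaf.stalkSpecializes hs).hom h) ?_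
      exact map_zero _
    · intro h
      apply i1
      rw [map_zero]
      refine Eq.trans h3.symm ?_
      refine Eq.trans (congrArg (ι.stalkMap (genericPoint E)).hom h) ?_
      exact map_zero _
  rw [h2]
  exact h1

/-- The dimension of the component. -/
theorem dim1 {A B : Type} [CommRing A] [IsLocalRing A] [CommRing B] [IsLocalRing B] [IsDomain B]
    (f : A →+* B) [IsLocalHom f] (hf : Function.Surjective f) (hA : NodeLoc A) (P : Ideal B)
    (hP : P.IsPrime) : P = ⊥ ∨ P = maximalIdeal B := by
  rcases hA.dim (P.comap f) inferInstance with h | h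
  · left
    rw [eq_bot_iff]
    intro b hb
    obtain ⟨a, rfl⟩ := hf b
    have h1 : RingHom.ker f ≤ P.comap f := Ideal.comap_mono bot_le
    have h2 : P.comap f ≤ RingHom.ker f := h.2 ⟨RingHom.ker_isPrime f, bot_le⟩ h1
    exact h2 hb
  · right
    refine le_antisymm (IsLocalRing.le_maximalIdeal hP.ne_top) ?_
    intro b hb
    obtain ⟨a, rfl⟩ := hf b
    have h1 : a ∈ maximalIdeal A := by
      rw [mem_maximalIdeal, mem_nonunits_iff] at hb ⊢
      exact fun h => hb (h.map f)
    rw [← h] at h1
    exact h1

end CE_

open CE_ in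
theorem t_CE (hLS : Stmt_LS) (hG : Stmt_GSP) (hM : Stmt_MPC) : Stmt_CE := by
  have _ : Stmt_GSP := @hG
  intro k _ X π _ hN hL Z hZ
  have i1 := LocallyOfFiniteType.isLocallyNoetherian π
  have i2 := QuasiCompact.compactSpace_of_compactSpace π
  have i3 : IsNoetherian X := {}
  have hred : ∀ x : X, _root_.IsReduced (X.presheaf.stalk x) := fun x => (hL x).red
  have i4 : IsReduced X := isReduced_of_isReduced_stalk X
  have i5 : IsReduced (X.irreducibleComponent Z hZ) := isReduced_comp hZ
  have hint : IsIntegral (X.irreducibleComponent Z hZ) :=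
    isIntegral_of_irreducibleSpace_of_isReduced _
  have hran : Set.range (X.irreducibleComponentι Z hZ) = Z := by
    ext x
    constructor
    · rintro ⟨y, rfl⟩
      exact y.2
    · intro hx
      exact ⟨⟨x, hx⟩, rfl⟩
  have hr : Set.range (X.irreducibleComponentι Z hZ) ∈ irreducibleComponents X := by
    rw [hran]
    exact hZ
  refine ⟨X.irreducibleComponent Z hZ, X.irreducibleComponentι Z hZ, ?_, hran⟩
  have hsur := fun y => (X.irreducibleComponentι Z hZ).stalkMap_surjective y
  refine ⟨inferInstance, hint, hr, ?_, ?_, ?_⟩
  · intro y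
    refine ker_min hM _ hr ?_ y
    apply isField_stalk_of_closure_mem_irreducibleComponents
    have h2 := (X.irreducibleComponentι Z hZ).isClosedEmbedding.closure_image_eq
      {genericPoint (X.irreducibleComponent Z hZ)}
    rw [Set.image_singleton, genericPoint_closure, Set.image_univ] at h2
    rw [h2]
    exact hr
  · intro y P hP
    exact dim1 ((X.irreducibleComponentι Z hZ).stalkMap y).hom (hsur y) (hL _) P hP
  · have hcl := closure_sUnion_irreducibleComponents_sdiff_singleton
      (NoetherianSpace.finite_irreducibleComponents (α := X)) Z hZ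
    have hW : Nonempty (X.irreducibleComponentOpen Z) := by
      have h1 : (closure (⋃₀ (irreducibleComponents X \ {Z}))ᶜ).Nonempty := by
        rw [hcl]
        exact hZ.1.nonempty
      exact (closure_nonempty_iff.1 h1).to_subtype
    obtain ⟨V, hV, hVW, hV2⟩ := hLS π hN (X.irreducibleComponentOpen Z) hW
    obtain ⟨v, hv⟩ := hV
    have hvZ : v ∈ Z := by
      rw [← hcl]
      exact subset_closure (hVW hv)
    refine ⟨(X.irreducibleComponentι Z hZ) ⁻¹ᵁ V, ⟨⟨⟨v, hvZ⟩, hv⟩⟩, ?_⟩
    intro y hy
    have h3 := (hV2 _ hy).2
    exact IsPrincipalIdealRing.of_surjective ((X.irreducibleComponentι Z hZ).stalkMap y).hom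
      (hsur y)

end Pool.Agent.MG.WL.CL
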