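import Pool.Agent.MG.WL.CL.StmtsC

/-!
# `M̄_{1,1}`, block `CL`: a coordinate at a regular closed point
-/

open CategoryTheory AlgebraicGeometry IsLocalRing TopologicalSpace
open Pool.Agent.MG.Two Pool.Agent.MG.W Pool.Agent.MG.W.W0 Pool.Agent.MG.One

namespace Pool.Agent.MG.WL.CL

namespace CHT_

/-- If a finitely generated prime ideal is locally principal then it is so in a neighbourhood. -/
lemma exists_gen {A S : Type} [CommRing A] [CommRing S] [Algebra A S] (P : Ideal A)
    [hP : P.IsPrime] [IsLocalization.AtPrime S P] (hfg : P.FG)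
    (hpr : (P.map (algebraMap A S)).IsPrincipal) :
    ∃ a ∈ P, ∃ s, s ∉ P ∧ ∀ r ∈ P, ∃ c, s * r = a * c := by
  classical
  obtain ⟨t, ht⟩ := hpr.principal
  have ht1 : t ∈ P.map (algebraMap A S) := by
    rw [ht]
    exact Submodule.mem_span_singleton_self t
  obtain ⟨⟨⟨a, ha⟩, ⟨u, hu⟩⟩, hau⟩ :=
    (IsLocalization.mem_map_algebraMap_iff P.primeCompl S).1 ht1
  have hau' : t * algebraMap A S u = algebraMap A S a := hau
  have key : ∀ r ∈ P, ∃ s, s ∉ P ∧ ∃ c, s * r = a * c := by
    intro r hr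
    have h1 : algebraMap A S r ∈ P.map (algebraMap A S) := Ideal.mem_map_of_mem _ hr
    rw [ht] at h1
    obtain ⟨w, hw⟩ := Submodule.mem_span_singleton.1 h1
    obtain ⟨⟨b, ⟨v, hv⟩⟩, hbv⟩ := IsLocalization.surj P.primeCompl w
    have hbv' : w * algebraMap A S v = algebraMap A S b := hbv
    have h2 : algebraMap A S (r * u * v) = algebraMap A S (a * b) := by
      rw [map_mul, map_mul, map_mul, ← hau', ← hbv', ← hw, smul_eq_mul]
      ring
    obtain ⟨⟨m, hm⟩, hm'⟩ := (IsLocalization.eq_iff_exists P.primeCompl S).1 h2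
    have hm'' : m * (r * u * v) = m * (a * b) := hm'
    refine ⟨m * u * v, ?_, m * b, ?_⟩
    · intro h3
      rcases hP.mem_or_mem h3 with h4 | h4
      · rcases hP.mem_or_mem h4 with h5 | h5
        · exact hm h5
        · exact hu h5
      · exact hv h4
    · calc m * u * v * r = m * (r * u * v) := by ring
        _ = m * (a * b) := hm''
        _ = a * (m * b) := by ring
  choose! f hf1 hf2 using key
  obtain ⟨T, hT⟩ := hfg
  refine ⟨a, ha, ∏ r ∈ T, f r, ?_, ?_⟩
  · intro h1
    obtain ⟨r, hr, hr'⟩ := hP.prod_mem_iff.1 h1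
    refine hf1 r ?_ hr'
    rw [← hT]
    exact Submodule.subset_span hr
  · intro r hr
    rw [← hT] at hr
    induction hr using Submodule.span_induction with
    | mem r hr =>
      have hrP : r ∈ P := by
        rw [← hT]
        exact Submodule.subset_span hr
      obtain ⟨c, hc⟩ := hf2 r hrP
      refine ⟨(∏ x ∈ T.erase r, f x) * c, ?_⟩
      rw [← Finset.mul_prod_erase T f hr]
      calc f r * (∏ x ∈ T.erase r, f x) * r = (∏ x ∈ T.erase r, f x) * (f r * r) := by ring
        _ = (∏ x ∈ T.erase r, f x) * (a * c) := by rw [hc]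
        _ = a * ((∏ x ∈ T.erase r, f x) * c) := by ring
    | zero => exact ⟨0, by simp⟩
    | add x y _ _ h1 h2 =>
      obtain ⟨c, hc⟩ := h1
      obtain ⟨d, hd⟩ := h2
      exact ⟨c + d, by rw [mul_add, hc, hd, mul_add]⟩
    | smul b x _ h1 =>
      obtain ⟨c, hc⟩ := h1
      refine ⟨b * c, ?_⟩
      rw [smul_eq_mul]
      calc (∏ r ∈ T, f r) * (b * x) = b * ((∏ r ∈ T, f r) * x) := by ring
        _ = b * (a * c) := by rw [hc]
        _ = a * (b * c) := by ring

/-- Prime ideals of an integral domain whose local ring has dimension at most one. -/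
lemma eq_of_le_of_dim {A S : Type} [CommRing A] [IsDomain A] [CommRing S] [IsLocalRing S]
    [Algebra A S] (P Q : Ideal A) [hP : P.IsPrime] [hQ : Q.IsPrime] [IsLocalization.AtPrime S Q]
    (hd : ∀ I : Ideal S, I.IsPrime → I = ⊥ ∨ I = maximalIdeal S) (h0 : P ≠ ⊥) (hPQ : P ≤ Q) :
    P = Q := by
  have hdis : Disjoint (Q.primeCompl : Set A) (P : Set A) := by
    rw [Set.disjoint_left]
    intro x hx hx'
    exact hx (hPQ hx')
  have h1 : (P.map (algebraMap A S)).IsPrime :=
    IsLocalization.isPrime_of_isPrime_disjoint Q.primeCompl S P hP hdis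
  have h2 : (P.map (algebraMap A S)).comap (algebraMap A S) = P :=
    IsLocalization.under_map_of_isPrime_disjoint Q.primeCompl S hP hdis
  rcases hd _ h1 with h3 | h3
  · exfalso
    apply h0
    rw [← h2, h3]
    have hinj : Function.Injective (algebraMap A S) :=
      IsLocalization.injective S Q.primeCompl_le_nonZeroDivisors
    exact (RingHom.injective_iff_ker_eq_bot _).1 hinj
  · rw [← h2, h3]
    exact IsLocalization.AtPrime.under_maximalIdeal S Q

variable {X : Scheme.{0}}

lemma eq_of_le [IsIntegral X] (hd : Dim1 X) {V : X.Opens} (hV : IsAffineOpen V) {p q : X}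
    (hp : p ∈ V) (hq : q ∈ V) (hgen : p ≠ genericPoint X)
    (hle : (hV.primeIdealOf ⟨p, hp⟩).asIdeal ≤ (hV.primeIdealOf ⟨q, hq⟩).asIdeal) : p = q := by
  have hne : Nonempty V := ⟨⟨p, hp⟩⟩
  let _ := TopCat.Presheaf.algebra_section_stalk X.presheaf ⟨q, hq⟩
  have hloc := hV.isLocalization_stalk ⟨q, hq⟩
  have h1 := eq_of_le_of_dim (S := X.presheaf.stalk q) (hV.primeIdealOf ⟨p, hp⟩).asIdeal
    (hV.primeIdealOf ⟨q, hq⟩).asIdeal (hd q) (primeIdealOf_ne_bot hV p hp hgen) hle
  have h2 := primeIdealOf_injective hV (PrimeSpectrum.ext h1)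
  exact congrArg Subtype.val h2

end CHT_

open CHT_ in
theorem t_CHT : Stmt_CHT := by
  intro k _ X π _ _ hd p hgen hpir W hpW
  obtain ⟨V, hV, hpV, hVW⟩ := exists_isAffineOpen_mem_and_subset hpW
  let _ := TopCat.Presheaf.algebra_section_stalk X.presheaf ⟨p, hpV⟩
  have hloc := hV.isLocalization_stalk ⟨p, hpV⟩
  have hnoe := noetherian_sections π hV
  set P := (hV.primeIdealOf ⟨p, hpV⟩).asIdeal with hPdef
  obtain ⟨a, ha, s, hs, hgens⟩ := exists_gen (S := X.presheaf.stalk p) P
    ((isNoetherianRing_iff_ideal_fg _).1 hnoe P) (hpir.principal _)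
  rw [hPdef, mem_primeIdealOf_iff] at ha hs
  rw [not_not] at hs
  have hNle : X.basicOpen s ≤ V := X.basicOpen_le s
  have hN : IsAffineOpen (X.basicOpen s) := hV.basicOpen s
  have hlocN := hV.isLocalization_basicOpen s
  set ρ := (X.presheaf.map (homOfLE hNle).op).hom with hρ
  have hρb : ∀ r : Γ(X, V), X.basicOpen (ρ r) = X.basicOpen s ⊓ X.basicOpen r := by
    intro r
    exact X.basicOpen_res r (homOfLE hNle).op
  have hpa : p ∉ X.basicOpen (ρ a) := by
    rw [hρb]
    exact fun h => ha h.2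
  have hgz : ∀ r : Γ(X, X.basicOpen s), p ∉ X.basicOpen r ↔ ∃ c, r = ρ a * c := by
    intro r
    constructor
    · intro hr
      obtain ⟨⟨r', ⟨_, ⟨n, rfl⟩⟩⟩, hr'⟩ := IsLocalization.surj (Submonoid.powers s) r
      have hr'' : r * ρ (s ^ n) = ρ r' := hr'
      have h1 : p ∉ X.basicOpen r' := by
        intro h2
        apply hr
        have h3 : p ∈ X.basicOpen (ρ r') := by
          rw [hρb]
          exact ⟨hs, h2⟩
        rw [← hr'', X.basicOpen_mul] at h3
        exact h3.1
      have h2 : r' ∈ P := by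
        rw [hPdef, mem_primeIdealOf_iff]
        exact h1
      obtain ⟨c, hc⟩ := hgens r' h2
      have hu : IsUnit (ρ s) := X.toRingedSpace.isUnit_res_basicOpen s
      obtain ⟨v, hv⟩ := hu.exists_right_inv
      refine ⟨ρ c * v ^ (n + 1), ?_⟩
      have h3 : r * ρ s ^ (n + 1) = ρ a * ρ c := by
        rw [← map_mul, ← hc, map_mul, ← hr'', map_pow]
        ring
      have h4 : ρ s ^ (n + 1) * v ^ (n + 1) = 1 := by
        rw [← mul_pow, hv, one_pow]
      calc r = r * (ρ s ^ (n + 1) * v ^ (n + 1)) := by rw [h4, mul_one]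
        _ = (r * ρ s ^ (n + 1)) * v ^ (n + 1) := by ring
        _ = ρ a * ρ c * v ^ (n + 1) := by rw [h3]
        _ = ρ a * (ρ c * v ^ (n + 1)) := by ring
    · rintro ⟨c, rfl⟩
      rw [X.basicOpen_mul]
      exact fun h => hpa h.1
  refine ⟨⟨X.basicOpen s, ρ a, hN, hs, hgz, ?_⟩, fun x hx => hVW (hNle hx)⟩
  intro x hx
  constructor
  · rintro h1 rfl
    exact hpa h1
  · intro hne
    by_contra hcon
    apply hne
    symm
    refine eq_of_le hd hN hs hx hgen ?_
    intro r hr
    rw [mem_primeIdealOf_iff] at hr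
    obtain ⟨c, rfl⟩ := (hgz r).1 hr
    rw [mem_primeIdealOf_iff, X.basicOpen_mul]
    exact fun h => hcon h.1

end Pool.Agent.MG.WL.CL
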