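import Pool.Agent.MG.WL.CL.StmtsC
import Pool.Agent.MG.SCH

/-!
# `M̄_{1,1}`, block `CL`: `CNT`, the count of the components and the double points
-/

open CategoryTheory AlgebraicGeometry IsLocalRing TopologicalSpace
open Pool.Agent.MG.Two Pool.Agent.MG.W Pool.Agent.MG.W.W0 Pool.Agent.MG.One

namespace Pool.Agent.MG.WL.CL

namespace CNT_

section sec

variable {k : Type} [Field k] {X : Scheme.{0}} (π : X ⟶ Sp k)

/-- Sections as an algebra over the ground field. -/
def Sec (_π : X ⟶ Sp k) (U : X.Opens) : Type := Γ(X, U)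

noncomputable instance (U : X.Opens) : CommRing (Sec π U) := inferInstanceAs (CommRing Γ(X, U))

noncomputable instance (U : X.Opens) : Algebra k (Sec π U) := (coef π U).toAlgebra

theorem algebraMap_eq (U : X.Opens) (c : k) : algebraMap k (Sec π U) c = coef π U c := rfl

theorem map_coef {U V : X.Opens} (h : U ≤ V) (c : k) :
    X.presheaf.map (homOfLE h).op (coef π V c) = coef π U c := by
  have h1 : (Scheme.ΓSpecIso (CommRingCat.of k)).inv ≫ π.appTop ≫
      X.presheaf.map (homOfLE (le_top : V ≤ ⊤)).op ≫ X.presheaf.map (homOfLE h).op =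
      (Scheme.ΓSpecIso (CommRingCat.of k)).inv ≫ π.appTop ≫
      X.presheaf.map (homOfLE (le_top : U ≤ ⊤)).op := by
    rw [← X.presheaf.map_comp]
    rfl
  exact ConcreteCategory.congr_hom h1 c

theorem app_coef {E : Scheme.{0}} (ι : E ⟶ X) (U : X.Opens) (c : k) :
    (ι.app U).hom (coef π U c) = coef (ι ≫ π) (ι ⁻¹ᵁ U) c := by
  have h := coef_comp π ι U (ι ⁻¹ᵁ U) le_rfl c
  rw [Scheme.Hom.appLE_eq_app] at h
  exact h

/-- Restriction. -/
noncomputable def res {U V : X.Opens} (h : U ≤ V) : Sec π V →ₐ[k] Sec π U where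
  toRingHom := (X.presheaf.map (homOfLE h).op).hom
  commutes' := fun c => map_coef π h c

/-- Pull back. -/
noncomputable def pb {E : Scheme.{0}} (ι : E ⟶ X) (U : X.Opens) :
    Sec π U →ₐ[k] Sec (ι ≫ π) (ι ⁻¹ᵁ U) where
  toRingHom := (ι.app U).hom
  commutes' := fun c => app_coef π ι U c

theorem pb_res {E : Scheme.{0}} (ι : E ⟶ X) {U V : X.Opens} (h : U ≤ V)
    (h' : ι ⁻¹ᵁ U ≤ ι ⁻¹ᵁ V) (s : Sec π V) :
    res (ι ≫ π) h' (pb π ι V s) = pb π ι U (res π h s) := by
  exact (ConcreteCategory.congr_hom (ι.naturality (homOfLE h).op) s).symm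

/-- The value at a closed point. -/
structure Val (x : X) where
  e : X.presheaf.stalk x →+* k
  ker : RingHom.ker e = maximalIdeal _
  coe : ∀ (U : X.Opens) (hx : x ∈ U) (c : k), e (X.presheaf.germ U x hx (coef π U c)) = c

variable {π}

/-- The values of sections. -/
noncomputable def Val.val {x : X} (v : Val π x) (U : X.Opens) (hx : x ∈ U) : Sec π U →ₐ[k] k where
  toRingHom := v.e.comp (X.presheaf.germ U x hx).hom
  commutes' := fun c => v.coe U hx c

theorem Val.eq_zero_iff {x : X} (v : Val π x) (U : X.Opens) (hx : x ∈ U) (s : Γ(X, U)) :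
    v.val U hx s = 0 ↔ x ∉ X.basicOpen s := by
  rw [Scheme.mem_basicOpen X s x hx]
  have h1 : v.val U hx s = 0 ↔ X.presheaf.germ U x hx s ∈ RingHom.ker v.e := Iff.rfl
  rw [h1, v.ker, mem_maximalIdeal, mem_nonunits_iff]

theorem Val.val_res {x : X} (v : Val π x) {U V : X.Opens} (h : U ≤ V) (hx : x ∈ U)
    (s : Sec π V) : v.val U hx (res π h s) = v.val V (h hx) s :=
  congrArg v.e (X.presheaf.germ_res_apply (homOfLE h) x hx s)

theorem val_pb {E : Scheme.{0}} (ι : E ⟶ X) {x : X} {y : E} (h : ι y = x) (v : Val π x)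
    (w : Val (ι ≫ π) y) (U : X.Opens) (hx : x ∈ U) (hy : y ∈ ι ⁻¹ᵁ U) (s : Sec π U) :
    w.val _ hy (pb π ι U s) = v.val U hx s := by
  have h1 : v.val U hx (s - algebraMap k (Sec π U) (v.val U hx s)) = 0 := by
    rw [map_sub, AlgHom.commutes]
    exact sub_self _
  have h2 : w.val _ hy (pb π ι U (s - algebraMap k (Sec π U) (v.val U hx s))) = 0 := by
    refine (w.eq_zero_iff _ hy _).2 ?_
    have h3 := (v.eq_zero_iff _ hx _).1 h1
    intro h4
    apply h3
    have h5 := Scheme.preimage_basicOpen ι (U := U)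
      (s - algebraMap k (Sec π U) (v.val U hx s) : Sec π U)
    have h6 : y ∈ ι ⁻¹ᵁ X.basicOpen (s - algebraMap k (Sec π U) (v.val U hx s) : Sec π U) := by
      rw [h5]
      exact h4
    have h7 : ι y ∈ X.basicOpen (s - algebraMap k (Sec π U) (v.val U hx s) : Sec π U) := h6
    rw [h] at h7
    exact h7
  rw [map_sub, map_sub, AlgHom.commutes, AlgHom.commutes] at h2
  exact sub_eq_zero.1 h2

end sec

/-- The components and the double points. -/
structure Dt {k : Type} [Field k] {X : Scheme.{0}} (π : X ⟶ Sp k) where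
  E : {Z : Set X // Z ∈ irreducibleComponents X} → Scheme.{0}
  ι : ∀ i, E i ⟶ X
  comp : ∀ i, IsComp (ι i)
  rng : ∀ i, Set.range (ι i) = i.1
  i₁ : dbl X → {Z : Set X // Z ∈ irreducibleComponents X}
  i₂ : dbl X → {Z : Set X // Z ∈ irreducibleComponents X}
  ne : ∀ d, i₁ d ≠ i₂ d
  y₁ : ∀ d, E (i₁ d)
  y₂ : ∀ d, E (i₂ d)
  h₁ : ∀ d, ι (i₁ d) (y₁ d) = (d : X)
  h₂ : ∀ d, ι (i₂ d) (y₂ d) = (d : X)
  v : ∀ d : dbl X, Val π (d : X)
  w₁ : ∀ d, Val (ι (i₁ d) ≫ π) (y₁ d)
  w₂ : ∀ d, Val (ι (i₂ d) ≫ π) (y₂ d)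

theorem exists_Dt (hC : Stmt_CE) (hD : Stmt_DFIN) (hV : Stmt_VAL) {k : Type} [Field k]
    [IsAlgClosed k] {X : Scheme.{0}} (π : X ⟶ Sp k) [IsProper π] [NoetherianSpace X]
    (hN : Nodal π) (hL : NodeLocs X) : Nonempty (Dt π) := by
  have h1 := fun i : {Z : Set X // Z ∈ irreducibleComponents X} => hC π hN hL i.1 i.2
  choose E ι hcomp hrng using h1
  obtain ⟨-, hcl, -, -⟩ := hD hL
  have h2 : ∀ d : dbl X, ∃ i j : {Z : Set X // Z ∈ irreducibleComponents X}, i ≠ j ∧
      (∃ y : E i, ι i y = (d : X)) ∧ ∃ y : E j, ι j y = (d : X) := by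
    rintro ⟨d, Z, hZ, Z', hZ', hne, hd, hd'⟩
    refine ⟨⟨Z, hZ⟩, ⟨Z', hZ'⟩, fun h => hne (congrArg Subtype.val h), ?_, ?_⟩
    · exact (Set.ext_iff.1 (hrng ⟨Z, hZ⟩) d).2 hd
    · exact (Set.ext_iff.1 (hrng ⟨Z', hZ'⟩) d).2 hd'
  choose i j hij h3 h4 using h2
  choose y₁ hy₁ using h3
  choose y₂ hy₂ using h4
  have h5 : ∀ d : dbl X, Nonempty (Val π (d : X)) := by
    intro d
    obtain ⟨e, he1, he2⟩ := hV π (d : X) (hcl _ d.2)
    exact ⟨⟨e, he1, he2⟩⟩
  have h6 : ∀ (a : {Z : Set X // Z ∈ irreducibleComponents X}) (y : E a) (d : dbl X),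
      ι a y = (d : X) → Nonempty (Val (ι a ≫ π) y) := by
    intro a y d hyd
    have := (hcomp a).cl
    have hcl' : IsClosed ({y} : Set (E a)) := by
      have h7 : ({y} : Set (E a)) = ι a ⁻¹' {(d : X)} := by
        ext z
        constructor
        · rintro rfl
          exact hyd
        · intro hz
          exact (ι a).isClosedEmbedding.injective (Eq.trans hz hyd.symm)
      rw [h7]
      exact (hcl _ d.2).preimage (ι a).continuous
    obtain ⟨e, he1, he2⟩ := hV (ι a ≫ π) y hcl'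
    exact ⟨⟨e, he1, he2⟩⟩
  exact ⟨{
    E := E
    ι := ι
    comp := hcomp
    rng := hrng
    i₁ := i
    i₂ := j
    ne := hij
    y₁ := y₁
    y₂ := y₂
    h₁ := hy₁
    h₂ := hy₂
    v := fun d => (h5 d).some
    w₁ := fun d => (h6 _ _ d (hy₁ d)).some
    w₂ := fun d => (h6 _ _ d (hy₂ d)).some }⟩

namespace Dt

variable {k : Type} [Field k] {X : Scheme.{0}} {π : X ⟶ Sp k} (T : Dt π)

/-- The functions on the components over `W`. -/
abbrev M (W : X.Opens) (i : {Z : Set X // Z ∈ irreducibleComponents X}) : Type :=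
  Sec (T.ι i ≫ π) (T.ι i ⁻¹ᵁ W)

theorem mem₁ {W : X.Opens} {d : dbl X} (h : (d : X) ∈ W) : T.y₁ d ∈ T.ι (T.i₁ d) ⁻¹ᵁ W := by
  change T.ι (T.i₁ d) (T.y₁ d) ∈ W
  rw [T.h₁]
  exact h

theorem mem₂ {W : X.Opens} {d : dbl X} (h : (d : X) ∈ W) : T.y₂ d ∈ T.ι (T.i₂ d) ⁻¹ᵁ W := by
  change T.ι (T.i₂ d) (T.y₂ d) ∈ W
  rw [T.h₂]
  exact h

/-- The difference of the values at a double point. -/
noncomputable def δ' (W : X.Opens) (d : dbl X) (h : (d : X) ∈ W) : (∀ i, T.M W i) →ₗ[k] k :=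
  ((T.w₁ d).val _ (T.mem₁ h)).toLinearMap ∘ₗ LinearMap.proj (T.i₁ d) -
    ((T.w₂ d).val _ (T.mem₂ h)).toLinearMap ∘ₗ LinearMap.proj (T.i₂ d)

open Classical in
/-- The difference of the values at a double point, zero if the point is not in `W`. -/
noncomputable def δ (W : X.Opens) (d : dbl X) : (∀ i, T.M W i) →ₗ[k] k :=
  if h : (d : X) ∈ W then T.δ' W d h else 0

theorem δ_apply {W : X.Opens} {d : dbl X} (h : (d : X) ∈ W) (m : ∀ i, T.M W i) :
    T.δ W d m = (T.w₁ d).val _ (T.mem₁ h) (m (T.i₁ d)) - (T.w₂ d).val _ (T.mem₂ h) (m (T.i₂ d)) := by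
  rw [δ, dif_pos h]
  rfl

theorem val₁ {W : X.Opens} {d : dbl X} (h : (d : X) ∈ W) (a : Sec π W) :
    (T.w₁ d).val _ (T.mem₁ h) (pb π (T.ι (T.i₁ d)) W a) = (T.v d).val W h a :=
  val_pb _ (T.h₁ d) _ _ _ _ _ _

theorem val₂ {W : X.Opens} {d : dbl X} (h : (d : X) ∈ W) (a : Sec π W) :
    (T.w₂ d).val _ (T.mem₂ h) (pb π (T.ι (T.i₂ d)) W a) = (T.v d).val W h a :=
  val_pb _ (T.h₂ d) _ _ _ _ _ _

theorem δ_pb {W : X.Opens} {d : dbl X} (h : (d : X) ∈ W) (a : Sec π W) :
    T.δ W d (fun i => pb π (T.ι i) W a) = 0 := by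
  rw [T.δ_apply h, T.val₁ h, T.val₂ h, sub_self]

theorem δ_res {W W' : X.Opens} (hW : W ≤ W') {d : dbl X} (h : (d : X) ∈ W)
    (m : ∀ i, T.M W' i) (hi : ∀ i, T.ι i ⁻¹ᵁ W ≤ T.ι i ⁻¹ᵁ W') :
    T.δ W d (fun i => res (T.ι i ≫ π) (hi i) (m i)) = T.δ W' d m := by
  rw [T.δ_apply h, T.δ_apply (hW h), Val.val_res, Val.val_res]

/-- Surjectivity. -/
theorem surj {W : X.Opens} (hW : IsAffineOpen W) [Finite (dbl X)] (c : dbl X → k) :
    ∃ m, ∀ d : dbl X, (d : X) ∈ W → T.δ W d m = c d := by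
  classical
  let J : {d : dbl X // (d : X) ∈ W} → Ideal Γ(X, W) := fun d =>
    (hW.primeIdealOf ⟨(d.1 : X), d.2⟩).asIdeal
  have hJ : ∀ (d : {d : dbl X // (d : X) ∈ W}) (s : Γ(X, W)),
      s ∈ J d ↔ (T.v d.1).val W d.2 s = 0 := by
    intro d s
    rw [Val.eq_zero_iff, ← mem_primeIdealOf_iff hW]
  have hmax : ∀ d, (J d).IsMaximal := by
    intro d
    have h1 : J d = RingHom.ker ((T.v d.1).val W d.2).toRingHom := by
      ext s
      exact hJ d s
    rw [h1]
    refine RingHom.ker_isMaximal_of_surjective _ fun c => ⟨coef π W c, ?_⟩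
    exact ((T.v d.1).val W d.2).commutes c
  have hco : Pairwise (Function.onFun IsCoprime J) := by
    intro d d' hne
    have h1 : J d ≠ J d' := by
      intro h
      apply hne
      have h2 := primeIdealOf_injective hW (PrimeSpectrum.ext h)
      exact Subtype.ext (Subtype.ext (congrArg (fun z : W => (z : X)) h2))
    have h3 := hmax d
    have h4 := hmax d'
    exact Ideal.isCoprime_of_isMaximal h1
  have key : ∀ b : dbl X → k, ∃ a : Sec π W, ∀ (d : dbl X) (h : (d : X) ∈ W),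
      (T.v d).val W h a = b d := by
    intro b
    obtain ⟨r, hr⟩ := Ideal.exists_forall_sub_mem_ideal hco (fun d => coef π W (b d.1))
    refine ⟨r, fun d h => ?_⟩
    have h1 := (hJ ⟨d, h⟩ _).1 (hr ⟨d, h⟩)
    have h2 : (T.v d).val W h ((show Sec π W from r) - algebraMap k (Sec π W) (b d)) = 0 := h1
    rw [map_sub, AlgHom.commutes] at h2
    exact sub_eq_zero.1 h2
  choose a ha using fun i : {Z : Set X // Z ∈ irreducibleComponents X} =>
    key fun d => if T.i₁ d = i then c d else 0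
  refine ⟨fun i => pb π (T.ι i) W (a i), fun d h => ?_⟩
  rw [T.δ_apply h, T.val₁ h, T.val₂ h, ha, ha, if_pos rfl, if_neg (T.ne d), sub_zero]

theorem ran_inj {i j : {Z : Set X // Z ∈ irreducibleComponents X}}
    (h : Set.range (T.ι i) = Set.range (T.ι j)) : i = j := by
  apply Subtype.ext
  rw [← T.rng, ← T.rng]
  exact h

/-- The kernel. -/
theorem kern (hA : Stmt_NAFF) (hG : Stmt_NGEO) (hD : Stmt_DFIN) [NoetherianSpace X]
    (hL : NodeLocs X) {W : X.Opens} (hW : IsAffineOpen W) (m : ∀ i, T.M W i)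
    (hm : ∀ d : dbl X, (d : X) ∈ W → T.δ W d m = 0) :
    ∃ a : Sec π W, ∀ i, pb π (T.ι i) W a = m i := by
  obtain ⟨n1, n2, n3, n4⟩ := hG hL hW T.E T.ι T.comp (fun i j h => T.ran_inj h)
  have n3' := n3 (fun Z hZ => ⟨⟨Z, hZ⟩, T.rng _⟩)
  obtain ⟨-, -, -, d4⟩ := hD hL
  have hfin : Finite {Z : Set X // Z ∈ irreducibleComponents X} :=
    (NoetherianSpace.finite_irreducibleComponents (α := X)).to_subtype
  have n1' : ∀ (P : Ideal Γ(X, W)) (hP : P.IsMaximal) (i : {Z : Set X // Z ∈ irreducibleComponents X}),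
      RingHom.ker ((T.ι i).app W).hom ≤ P → hW.fromSpec ⟨P, hP.isPrime⟩ ∈ i.1 := by
    intro P hP i hi
    have h := (n1 ⟨P, hP.isPrime⟩ i).1 hi
    rw [T.rng] at h
    exact h
  obtain ⟨l, hl⟩ : ∃ l : {Z : Set X // Z ∈ irreducibleComponents X} → Sec π W,
      ∀ i, pb π (T.ι i) W (l i) = m i :=
    ⟨fun i => (n4 i (m i)).choose, fun i => (n4 i (m i)).choose_spec⟩
  obtain ⟨a, ha⟩ := hA (fun i => RingHom.ker ((T.ι i).app W).hom) n3' (by
      intro P hP i j l hi hj hl hij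
      rcases d4 i.1 i.2 j.1 j.2 (fun h => hij (Subtype.ext h)) l.1 l.2 _ (n1' P hP i hi)
        (n1' P hP j hj) (n1' P hP l hl) with h | h
      · exact Or.inl (Subtype.ext h)
      · exact Or.inr (Subtype.ext h))
    (by
      intro P hP i j hi hj hij a ha
      exact n2 ⟨P, hP.isPrime⟩ i j hij ((n1 ⟨P, hP.isPrime⟩ i).1 hi)
        ((n1 ⟨P, hP.isPrime⟩ j).1 hj) a ha) l (by
      intro P hP i j hi hj
      by_cases hij : i = j
      · have h0 : (show Γ(X, W) from l i) - (show Γ(X, W) from l j) = 0 := by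
          rw [hij]
          exact sub_self _
        exact (congrArg (· ∈ P) h0).mpr P.zero_mem
      have hxi := n1' P hP i hi
      have hxj := n1' P hP j hj
      have hxW : hW.fromSpec ⟨P, hP.isPrime⟩ ∈ W := by
        have h1 : hW.fromSpec ⟨P, hP.isPrime⟩ ∈ Set.range hW.fromSpec := ⟨_, rfl⟩
        rw [hW.range_fromSpec] at h1
        exact h1
      have hxD : hW.fromSpec ⟨P, hP.isPrime⟩ ∈ dbl X :=
        ⟨i.1, i.2, j.1, j.2, fun h => hij (Subtype.ext h), hxi, hxj⟩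
      set d : dbl X := ⟨_, hxD⟩ with hd
      have hdW : (d : X) ∈ W := hxW
      have m1 : (d : X) ∈ (T.i₁ d).1 := by
        rw [← T.rng]
        exact ⟨_, T.h₁ d⟩
      have m2 : (d : X) ∈ (T.i₂ d).1 := by
        rw [← T.rng]
        exact ⟨_, T.h₂ d⟩
      have h12 : (T.v d).val W hdW (l (T.i₁ d)) = (T.v d).val W hdW (l (T.i₂ d)) := by
        have h1 := hm d hdW
        rw [T.δ_apply hdW] at h1
        rw [← hl, ← hl, T.val₁ hdW, T.val₂ hdW] at h1
        exact sub_eq_zero.1 h1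
      have hall : ∀ a : {Z : Set X // Z ∈ irreducibleComponents X}, (d : X) ∈ a.1 →
          (T.v d).val W hdW (l a) = (T.v d).val W hdW (l (T.i₁ d)) := by
        intro a hda
        rcases d4 _ (T.i₁ d).2 _ (T.i₂ d).2 (fun h => T.ne d (Subtype.ext h)) a.1 a.2 _ m1 m2 hda
          with h | h
        · rw [show a = T.i₁ d from Subtype.ext h]
        · rw [show a = T.i₂ d from Subtype.ext h, h12]
      have h0 : (T.v d).val W hdW (l i - l j) = 0 := by
        rw [map_sub, sub_eq_zero]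
        exact (hall i hxi).trans (hall j hxj).symm
      have h1 := ((T.v d).eq_zero_iff W hdW (l i - l j)).1 h0
      have h2 := hW.fromSpec_preimage_basicOpen (l i - l j)
      by_contra hcon
      apply h1
      have h3 : (⟨P, hP.isPrime⟩ : PrimeSpectrum Γ(X, W)) ∈
          hW.fromSpec ⁻¹ᵁ X.basicOpen (l i - l j) := by
        rw [h2]
        exact hcon
      exact h3)
  refine ⟨a, fun i => ?_⟩
  have h1 : pb π (T.ι i) W ((show Sec π W from a) - l i) = 0 := ha i
  rw [map_sub, hl] at h1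
  exact sub_eq_zero.1 h1

/-- Injectivity. -/
theorem inj (hG : Stmt_NGEO) (hL : NodeLocs X) {W : X.Opens} (hW : IsAffineOpen W) (a : Sec π W)
    (ha : ∀ i, pb π (T.ι i) W a = 0) : a = 0 := by
  obtain ⟨-, -, n3, -⟩ := hG hL hW T.E T.ι T.comp (fun i j h => T.ran_inj h)
  have n3' := n3 (fun Z hZ => ⟨⟨Z, hZ⟩, T.rng _⟩)
  have h1 : (show Γ(X, W) from a) ∈ ⨅ i, RingHom.ker ((T.ι i).app W).hom := by
    rw [Ideal.mem_iInf]
    exact fun i => ha i
  rw [n3'] at h1
  exact h1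

end Dt

/-- Functions on an affine cover of a proper integral scheme which agree are constant. -/
theorem glue_const {k : Type} [Field k] [IsAlgClosed k] {E : Scheme.{0}} (π : E ⟶ Sp k)
    [IsProper π] [IsIntegral E] {V1 V2 : E.Opens} (h12 : V1 ⊔ V2 = ⊤) (a : Γ(E, V1))
    (b : Γ(E, V2)) (h : E.presheaf.map (homOfLE (inf_le_left : V1 ⊓ V2 ≤ V1)).op a =
      E.presheaf.map (homOfLE (inf_le_right : V1 ⊓ V2 ≤ V2)).op b) :
    ∃ c : k, a = coef π V1 c ∧ b = coef π V2 c := by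
  have hgl := E.sheaf.existsUnique_gluing' (fun i : Bool => if i then V1 else V2) ⊤
    (fun i => homOfLE le_top) (by
      rw [← h12]
      apply sup_le
      · exact le_iSup (fun i : Bool => if i then V1 else V2) true
      · exact le_iSup (fun i : Bool => if i then V1 else V2) false)
    (fun i => match i with
      | true => a
      | false => b) (by
      intro i j
      rcases i with _ | _ <;> rcases j with _ | _
      · rfl
      · have h' := congrArg (E.presheaf.map (homOfLE (le_inf inf_le_right inf_le_left :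
          V2 ⊓ V1 ≤ V1 ⊓ V2)).op) h
        rw [← ConcreteCategory.comp_apply, ← ConcreteCategory.comp_apply, ← E.presheaf.map_comp,
          ← E.presheaf.map_comp] at h'
        exact h'.symm
      · exact h
      · rfl)
  obtain ⟨s, hs, -⟩ := hgl
  obtain ⟨c, hc⟩ := exists_const π s
  rw [← coef_eq_kmap] at hc
  refine ⟨c, ?_, ?_⟩
  · refine Eq.trans (hs true).symm ?_
    rw [hc]
    exact map_coef π le_top c
  · refine Eq.trans (hs false).symm ?_
    rw [hc]
    exact map_coef π le_top c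

end CNT_

open CNT_ in
theorem t_CNT (h0 : Stmt_CNT0) (hA : Stmt_NAFF) (hD : Stmt_DFIN) (hV : Stmt_VAL)
    (hN : Stmt_NGEO) (hC : Stmt_CE) : Stmt_CNT := by
  classical
  intro k _ _ X π _ hnod hL hg
  have hnoe : NoetherianSpace X := by
    have h1 : IsLocallyNoetherian X := LocallyOfFiniteType.isLocallyNoetherian π
    have h2 : CompactSpace X := QuasiCompact.compactSpace_of_compactSpace π
    have h3 : IsNoetherian X := {}
    infer_instance
  obtain ⟨T⟩ := exists_Dt hC hD hV π hnod hL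
  obtain ⟨hdfin, -, -, -⟩ := hD hL
  have hfI : Finite {Z : Set X // Z ∈ irreducibleComponents X} :=
    (NoetherianSpace.finite_irreducibleComponents (α := X)).to_subtype
  have hfD : Finite (dbl X) := hdfin.to_subtype
  let _ : Fintype {Z : Set X // Z ∈ irreducibleComponents X} := Fintype.ofFinite _
  let _ : Fintype (dbl X) := Fintype.ofFinite _
  obtain ⟨U, V, hU, hV, hUV, L, hLs, hLc, hL0⟩ := hg
  have hUVa : IsAffineOpen (U ⊓ V) := isAffineOpen_inf π hU hV
  let L' : Sec π (U ⊓ V) →ₗ[k] k :=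
    { toFun := fun s => L s 0
      map_add' := fun s t => by
        have : L ((show Γ(X, U ⊓ V) from s) + (show Γ(X, U ⊓ V) from t)) = L s + L t :=
          L.map_add _ _
        exact congrFun this 0
      map_smul' := fun c s => by
        have := hLc c s
        exact congrFun this 0 }
  have key := h0 k {Z : Set X // Z ∈ irreducibleComponents X} (dbl X) (Sec π U) (Sec π V)
    (Sec π (U ⊓ V)) (T.M U) (T.M V) (T.M (U ⊓ V))
    (res π inf_le_left).toLinearMap (res π inf_le_right).toLinearMap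
    (fun i => (res (T.ι i ≫ π) (fun _ h => h.1 : T.ι i ⁻¹ᵁ (U ⊓ V) ≤ T.ι i ⁻¹ᵁ U)).toLinearMap)
    (fun i => (res (T.ι i ≫ π) (fun _ h => h.2 : T.ι i ⁻¹ᵁ (U ⊓ V) ≤ T.ι i ⁻¹ᵁ V)).toLinearMap)
    (fun i => (pb π (T.ι i) U).toLinearMap) (fun i => (pb π (T.ι i) V).toLinearMap)
    (fun i => (pb π (T.ι i) (U ⊓ V)).toLinearMap) L' (fun d => (d : X) ∈ U) (fun d => (d : X) ∈ V)
    (T.δ U) (T.δ V) (T.δ (U ⊓ V)) 1 1
    (fun i a => pb_res π (T.ι i) inf_le_left _ a) (fun i a => pb_res π (T.ι i) inf_le_right _ a)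
    (by
      intro c
      obtain ⟨s, hs⟩ := hLs (fun _ => c)
      exact ⟨s, congrFun hs 0⟩)
    (by
      intro s
      refine Iff.trans ?_ (hL0 s)
      constructor
      · intro h
        funext j
        rw [Subsingleton.elim j 0]
        exact h
      · intro h
        exact congrFun h 0)
    (by
      intro d
      have h1 : (d : X) ∈ U ⊔ V := by
        rw [hUV]
        trivial
      exact h1)
    (fun a d h => T.δ_pb h a) (fun a d h => T.δ_pb h a) 
    (fun a d h h' => T.δ_pb (W := U ⊓ V) (d := d) ⟨h, h'⟩ a)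
    (T.surj hU) (T.surj hV)
    (fun d m h h' => T.δ_res (W := U ⊓ V) inf_le_left ⟨h, h'⟩ m (fun _ _ h => h.1))
    (fun d m h h' => T.δ_res (W := U ⊓ V) inf_le_right ⟨h, h'⟩ m (fun _ _ h => h.2))
    (fun m hm => T.kern hA hN hD hL hUVa m (fun d h => hm d h.1 h.2))
    (fun a ha => T.inj hN hL hUVa a ha)
    (by
      intro i a b hab
      have h1 := (T.comp i).cl
      have h2 := (T.comp i).int
      obtain ⟨c, hca, hcb⟩ := glue_const (T.ι i ≫ π) (V1 := T.ι i ⁻¹ᵁ U) (V2 := T.ι i ⁻¹ᵁ V)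
        (by
          rw [eq_top_iff]
          intro x _
          have h1 : T.ι i x ∈ U ⊔ V := by
            rw [hUV]
            trivial
          exact h1) a b hab
      refine ⟨c, ?_, ?_⟩
      · rw [AlgHom.toLinearMap_apply, map_one, Algebra.smul_def, mul_one]
        exact hca
      · rw [AlgHom.toLinearMap_apply, map_one, Algebra.smul_def, mul_one]
        exact hcb)
    (by rw [AlgHom.toLinearMap_apply, AlgHom.toLinearMap_apply, map_one, map_one])
  have e1 : (dbl X).ncard = Fintype.card (dbl X) := by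
    rw [Set.ncard_eq_toFinset_card', Set.toFinset_card]
  have e2 : (irreducibleComponents X).ncard =
      Fintype.card {Z : Set X // Z ∈ irreducibleComponents X} := by
    rw [← Nat.card_eq_fintype_card]
    rfl
  rw [e1, e2]
  refine le_trans (Nat.add_le_add_left ?_ _) key
  have hfin : {i : {Z : Set X // Z ∈ irreducibleComponents X} |
      ¬ ∀ s : T.M (U ⊓ V) i, ∃ (a : T.M U i) (b : T.M V i),
        s = (res (T.ι i ≫ π) (fun _ h => h.1 : T.ι i ⁻¹ᵁ (U ⊓ V) ≤ T.ι i ⁻¹ᵁ U)).toLinearMap a +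
          (res (T.ι i ≫ π) (fun _ h => h.2 : T.ι i ⁻¹ᵁ (U ⊓ V) ≤ T.ι i ⁻¹ᵁ V)).toLinearMap
            b}.Finite := Set.toFinite _
  refine le_trans (Set.ncard_le_ncard (t := Subtype.val '' _) ?_ (hfin.image _))
    (Set.ncard_image_le hfin)
  rintro Z ⟨hZ, hbad⟩
  refine ⟨⟨Z, hZ⟩, ?_, rfl⟩
  intro hall
  apply hbad
  have h1 := (T.comp ⟨Z, hZ⟩).cl
  refine ⟨T.E ⟨Z, hZ⟩, T.ι ⟨Z, hZ⟩, T.comp _, T.rng _, T.ι ⟨Z, hZ⟩ ⁻¹ᵁ U, T.ι ⟨Z, hZ⟩ ⁻¹ᵁ V,
    hU.preimage _, hV.preimage _, ?_, 0, ?_, ?_, ?_⟩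
  · rw [eq_top_iff]
    intro x _
    have h1 : T.ι ⟨Z, hZ⟩ x ∈ U ⊔ V := by
      rw [hUV]
      trivial
    exact h1
  · intro x
    exact ⟨0, Subsingleton.elim _ _⟩
  · intro c s
    exact Subsingleton.elim _ _
  · intro s
    exact ⟨fun _ => hall s, fun _ => Subsingleton.elim _ _⟩

end Pool.Agent.MG.WL.CL
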