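import Pool.Agent.MG.WL.CL.StmtsC

/-!
# CNT0: the linear algebra of the Čech complexes
-/

namespace Pool.Agent.MG.WL.CL

namespace CNT0_

/-- The rank of a map which kills the vector `(1, ..., 1)`. -/
theorem rank_le {k : Type} [Field k] {I D : Type} [Fintype I] [Fintype D] [Nonempty I]
    (φ : (I → k) →ₗ[k] (D → k)) (h : φ (fun _ => 1) = 0) :
    Module.finrank k (LinearMap.range φ) + 1 ≤ Fintype.card I := by
  have h1 := LinearMap.finrank_range_add_finrank_ker φ
  rw [Module.finrank_fintype_fun_eq_card] at h1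
  have h2 : 1 ≤ Module.finrank k (LinearMap.ker φ) := by
    rw [Nat.one_le_iff_ne_zero]
    intro h3
    have h4 : LinearMap.ker φ = ⊥ := Submodule.finrank_eq_zero.1 h3
    have h5 : (fun _ : I => (1 : k)) ∈ LinearMap.ker φ := h
    rw [h4, Submodule.mem_bot] at h5
    obtain ⟨i⟩ := ‹Nonempty I›
    exact one_ne_zero (congrFun h5 i)
  omega

theorem card_le {k : Type} [Field k] {I D : Type} [Fintype I] [Fintype D] [Nonempty I]
    (φ : (I → k) →ₗ[k] (D → k)) (h : φ (fun _ => 1) = 0) (W : Submodule k (D → k))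
    (hW : ∀ v, v ∈ LinearMap.range φ ⊔ W) :
    Fintype.card D + 1 ≤ Fintype.card I + Module.finrank k W := by
  have h1 := rank_le φ h
  have h2 : LinearMap.range φ ⊔ W = ⊤ := eq_top_iff.2 fun v _ => hW v
  have h3 := Submodule.finrank_add_le_finrank_add_finrank (LinearMap.range φ) W
  rw [h2, finrank_top, Module.finrank_fintype_fun_eq_card] at h3
  omega

end CNT0_

theorem t_CNT0 : Stmt_CNT0 := by
  classical
  intro k _ I D _ _ _ RU RV RW _ _ _ _ _ _ MU MV MW _ _ _ _ _ _ ρU ρV rU rV iU iV iW L PU PV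
    δU δV δW oneU oneV h1 h2 hLs hLk hcov hδU hδV hδW surjU surjV compU compV exW injW h0 hone
  -- `I` is not empty
  have hI : Nonempty I := by
    by_contra hI
    rw [not_nonempty_iff] at hI
    obtain ⟨s, hs⟩ := hLs 1
    rw [injW s fun i => (hI.false i).elim, map_zero] at hs
    exact zero_ne_one hs
  -- the values
  let δ : ((∀ i, MU i) × (∀ i, MV i)) →ₗ[k] (D → k) := LinearMap.pi fun d =>
    if PU d then (δU d).comp (LinearMap.fst k _ _) else (δV d).comp (LinearMap.snd k _ _)
  have hδ1 : ∀ m n d, PU d → δ (m, n) d = δU d m := by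
    intro m n d hd
    simp only [δ, LinearMap.pi_apply, if_pos hd]
    rfl
  have hδ2 : ∀ m n d, ¬ PU d → δ (m, n) d = δV d n := by
    intro m n d hd
    simp only [δ, LinearMap.pi_apply, if_neg hd]
    rfl
  let E : (I → k) →ₗ[k] ((∀ i, MU i) × (∀ i, MV i)) :=
    LinearMap.prod (LinearMap.pi fun i => (LinearMap.proj i).smulRight (iU i oneU))
      (LinearMap.pi fun i => (LinearMap.proj i).smulRight (iV i oneV))
  have hE : ∀ c, E c = (fun i => c i • iU i oneU, fun i => c i • iV i oneV) := fun c => rfl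
  -- the constants
  have hone' : (δ.comp E) (fun _ => 1) = 0 := by
    rw [LinearMap.comp_apply, hE]
    funext d
    by_cases hd : PU d
    · rw [hδ1 _ _ _ hd]
      simp only [one_smul]
      exact hδU oneU d hd
    · rw [hδ2 _ _ _ hd]
      simp only [one_smul]
      exact hδV oneV d ((hcov d).resolve_left hd)
  -- every vector is the vector of values of an element of `T`
  have hsurj : ∀ c : D → k, ∃ (m : ∀ i, MU i) (n : ∀ i, MV i) (s : RW),
      (∀ i, rU i (m i) - rV i (n i) = iW i s) ∧ δ (m, n) = c := by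
    intro c
    obtain ⟨m, hm⟩ := surjU c
    obtain ⟨n, hn⟩ := surjV c
    obtain ⟨s, hs⟩ := exW (fun i => rU i (m i) - rV i (n i)) (by
      intro d hd hd'
      have e : (fun i => rU i (m i) - rV i (n i)) =
          (fun i => rU i (m i)) - fun i => rV i (n i) := rfl
      rw [e, map_sub, compU d m hd hd', compV d n hd hd', hm d hd, hn d hd', sub_self])
    refine ⟨m, n, s, fun i => (hs i).symm, ?_⟩
    funext d
    by_cases hd : PU d
    · rw [hδ1 _ _ _ hd, hm d hd]
    · rw [hδ2 _ _ _ hd, hn d ((hcov d).resolve_left hd)]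
  -- the kernel of `L`
  have hker : ∀ (m : ∀ i, MU i) (n : ∀ i, MV i) (s : RW),
      (∀ i, rU i (m i) - rV i (n i) = iW i s) → L s = 0 →
      δ (m, n) ∈ LinearMap.range (δ.comp E) := by
    intro m n s hs hL
    obtain ⟨a, b, hab⟩ := (hLk s).1 hL
    have h3 : ∀ i, ∃ c : k, m i - iU i a = c • iU i oneU ∧ n i + iV i b = c • iV i oneV := by
      intro i
      apply h0
      rw [map_sub, map_add, h1, h2]
      have e := hs i
      rw [hab, map_add] at e
      have e2 : rU i (m i) = iW i (ρU a) + iW i (ρV b) + rV i (n i) := by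
        rw [← e]
        abel
      rw [e2]
      abel
    choose c hc1 hc2 using h3
    refine ⟨c, ?_⟩
    rw [LinearMap.comp_apply, hE]
    have e1 : (fun i => c i • iU i oneU) = m - fun i => iU i a := by
      funext i
      rw [← hc1]
      rfl
    have e2 : (fun i => c i • iV i oneV) = n + fun i => iV i b := by
      funext i
      rw [← hc2]
      rfl
    rw [e1, e2]
    funext d
    by_cases hd : PU d
    · rw [hδ1 _ _ _ hd, hδ1 _ _ _ hd, map_sub, hδU a d hd, sub_zero]
    · rw [hδ2 _ _ _ hd, hδ2 _ _ _ hd, map_add, hδV b d ((hcov d).resolve_left hd), add_zero]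
  -- decomposition of the elements of `∏ MW`
  have hdec : ∀ m : ∀ i, MW i, ∃ (a : RW) (u : ∀ i, MU i), ∀ i, m i = iW i a + rU i (u i) := by
    intro m
    obtain ⟨u, hu⟩ := surjU fun d => δW d m
    obtain ⟨a, ha⟩ := exW (fun i => m i - rU i (u i)) (by
      intro d hd hd'
      have e : (fun i => m i - rU i (u i)) = m - fun i => rU i (u i) := rfl
      rw [e, map_sub, compU d u hd hd', hu d hd, sub_self])
    exact ⟨a, u, fun i => by rw [ha i]; abel⟩
  by_cases hB : {i : I | ¬ ∀ s : MW i, ∃ a b, s = rU i a + rV i b} = ∅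
  · rw [hB, Set.ncard_empty, add_zero]
    -- the case without bad components
    by_cases hΛ : ∀ (m : ∀ i, MU i) (n : ∀ i, MV i) (s : RW),
        (∀ i, rU i (m i) - rV i (n i) = iW i s) → L s = 0
    · have h3 := CNT0_.card_le (δ.comp E) hone' ⊥ (by
        intro v
        obtain ⟨m, n, s, hs, rfl⟩ := hsurj v
        exact Submodule.mem_sup_left (hker m n s hs (hΛ m n s hs)))
      rw [finrank_bot] at h3
      omega
    · push Not at hΛ
      obtain ⟨m₀, n₀, s₀, hs₀, hL₀⟩ := hΛ
      have h3 := CNT0_.card_le (δ.comp E) hone' (Submodule.span k {δ (m₀, n₀)}) (by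
        intro v
        obtain ⟨m, n, s, hs, rfl⟩ := hsurj v
        have h4 := hker (m - (L s / L s₀) • m₀) (n - (L s / L s₀) • n₀)
          (s - (L s / L s₀) • s₀) (by
            intro i
            have e1 : (m - (L s / L s₀) • m₀) i = m i - (L s / L s₀) • m₀ i := rfl
            have e2 : (n - (L s / L s₀) • n₀) i = n i - (L s / L s₀) • n₀ i := rfl
            rw [e1, e2, map_sub, map_sub, map_sub, map_smul, map_smul, map_smul, ← hs i, ← hs₀ i,
              smul_sub]
            abel) (by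
            rw [map_sub, map_smul, smul_eq_mul, div_mul_cancel₀ _ hL₀, sub_self])
        have e : δ (m, n) = δ (m - (L s / L s₀) • m₀, n - (L s / L s₀) • n₀) +
            (L s / L s₀) • δ (m₀, n₀) := by
          rw [← map_smul, ← map_add]
          congr 1
          ext1
          · simp
          · simp
        rw [e]
        exact Submodule.add_mem _ (Submodule.mem_sup_left h4) (Submodule.mem_sup_right
          (Submodule.smul_mem _ _ (Submodule.mem_span_singleton_self _))))
      have h5 : Module.finrank k (Submodule.span k {δ (m₀, n₀)}) ≤ 1 :=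
        (finrank_span_le_card _).trans (by simp)
      omega
  · -- bad components
    obtain ⟨i₀, hi₀⟩ := Set.nonempty_iff_ne_empty.2 hB
    have hi₀' : ¬ ∀ s : MW i₀, ∃ a b, s = rU i₀ a + rV i₀ b := hi₀
    push Not at hi₀'
    obtain ⟨s₀, hs₀⟩ := hi₀'
    obtain ⟨a₀, u₀, hau⟩ := hdec (Pi.single i₀ s₀)
    have hsum : ∀ (i : I) (a : RW), L a = 0 → ∃ x y, iW i a = rU i x + rV i y := by
      intro i a ha
      obtain ⟨x, y, rfl⟩ := (hLk a).1 ha
      exact ⟨iU i x, iV i y, by rw [map_add, h1, h2]⟩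
    have he₀ : s₀ = iW i₀ a₀ + rU i₀ (u₀ i₀) := by
      rw [← hau i₀, Pi.single_eq_same]
    have hL₀ : L a₀ ≠ 0 := by
      intro hL
      obtain ⟨x, y, hxy⟩ := hsum i₀ a₀ hL
      refine hs₀ (x + u₀ i₀) y ?_
      rw [he₀, hxy, map_add]
      abel
    -- there is only one
    have hone1 : {i : I | ¬ ∀ s : MW i, ∃ a b, s = rU i a + rV i b} ⊆ {i₀} := by
      intro i₁ hi₁
      by_contra hne
      rw [Set.mem_singleton_iff] at hne
      have hi₁' : ¬ ∀ s : MW i₁, ∃ a b, s = rU i₁ a + rV i₁ b := hi₁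
      push Not at hi₁'
      obtain ⟨s₁, hs₁⟩ := hi₁'
      obtain ⟨a₁, u₁, hau₁⟩ := hdec (Pi.single i₁ s₁)
      have he₁ : s₁ = iW i₁ a₁ + rU i₁ (u₁ i₁) := by
        rw [← hau₁ i₁, Pi.single_eq_same]
      have he₂ : 0 = iW i₁ a₀ + rU i₁ (u₀ i₁) := by
        rw [← hau i₁, Pi.single_eq_of_ne hne]
      obtain ⟨x, y, hxy⟩ := hsum i₁ (a₁ - (L a₁ / L a₀) • a₀) (by
        rw [map_sub, map_smul, smul_eq_mul, div_mul_cancel₀ _ hL₀, sub_self])
      refine hs₁ (x - (L a₁ / L a₀) • u₀ i₁ + u₁ i₁) y ?_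
      have he₃ : iW i₁ a₀ = - rU i₁ (u₀ i₁) := eq_neg_of_add_eq_zero_left he₂.symm
      have he₄ : iW i₁ a₁ = rU i₁ x + rV i₁ y + (L a₁ / L a₀) • iW i₁ a₀ := by
        rw [← hxy, map_sub, map_smul]
        abel
      rw [he₁, he₄, he₃, map_add, map_sub, map_smul, smul_neg]
      abel
    have hcard : {i : I | ¬ ∀ s : MW i, ∃ a b, s = rU i a + rV i b}.ncard ≤ 1 := by
      have := Set.ncard_le_ncard hone1
      rwa [Set.ncard_singleton] at this
    have h3 := CNT0_.card_le (δ.comp E) hone' ⊥ (by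
      intro v
      obtain ⟨m, n, s, hs, rfl⟩ := hsurj v
      refine Submodule.mem_sup_left (hker m n s hs ?_)
      by_contra hLs'
      obtain ⟨x, y, hxy⟩ := hsum i₀ (a₀ - (L a₀ / L s) • s) (by
        rw [map_sub, map_smul, smul_eq_mul, div_mul_cancel₀ _ hLs', sub_self])
      refine hs₀ (x + (L a₀ / L s) • m i₀ + u₀ i₀) (y - (L a₀ / L s) • n i₀) ?_
      have he₄ : iW i₀ a₀ = rU i₀ x + rV i₀ y + (L a₀ / L s) • iW i₀ s := by
        rw [← hxy, map_sub, map_smul]
        abel
      rw [he₀, he₄, ← hs i₀, map_add, map_add, map_sub, map_smul, map_smul, smul_sub]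
      abel)
    rw [finrank_bot] at h3
    omega

end Pool.Agent.MG.WL.CL
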