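import Pool.Agent.MG.WL.CL.StmtsC

/-!
# The Euler vector field on the cuspidal cubic
-/

open CategoryTheory CategoryTheory.Limits AlgebraicGeometry IsLocalRing TopologicalSpace
open Pool.Agent.MG.Two Pool.Agent.MG.W Pool.Agent.MG.W.W0 Pool.Agent.MG.One

namespace Pool.Agent.MG.WL.CL

namespace CUSP_

section frac

variable {X : Scheme.{0}} [IsIntegral X]

/-- A function which is regular at `x` as a fraction. -/
theorem frac {V : X.Opens} (hV : IsAffineOpen V) [Nonempty V] (x : X) (hx : x ∈ V)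
    (f : X.functionField) (hf : f ∈ O x) : ∃ a b : Γ(X, V), x ∈ X.basicOpen b ∧
      f * X.germToFunctionField V b = X.germToFunctionField V a := by
  obtain ⟨U, hxU, hne, s, hs⟩ := (mem_dom_iff' f x).mp hf
  obtain ⟨b, hbU, hxb⟩ := hV.exists_basicOpen_le ⟨x, hxU⟩ hx
  have hne2 : Nonempty (X.basicOpen b) := ⟨⟨x, hxb⟩⟩
  have hloc : IsLocalization.Away b Γ(X, X.basicOpen b) := hV.isLocalization_basicOpen b
  obtain ⟨n, a, ha⟩ := IsLocalization.Away.surj b (rs X hbU s)
  have h1 := congrArg (X.germToFunctionField (X.basicOpen b)) ha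
  have h2 : ∀ u : Γ(X, V), algebraMap Γ(X, V) Γ(X, X.basicOpen b) u =
      rs X (X.basicOpen_le b) u := fun u => rfl
  rw [h2, h2, map_mul, map_pow, germ_rs, germ_rs, germ_rs, hs] at h1
  refine ⟨a * b, b ^ (n + 1), ?_, ?_⟩
  · rw [Scheme.mem_basicOpen X _ x hx] at hxb ⊢
    rw [map_pow]
    exact hxb.pow _
  · rw [map_pow, map_mul, ← h1]
    ring

theorem germ_ne_zero {V : X.Opens} [Nonempty V] (x : X) (hx : x ∈ V) (b : Γ(X, V))
    (hb : x ∈ X.basicOpen b) : X.germToFunctionField V b ≠ 0 := by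
  rw [Scheme.mem_basicOpen X _ x hx] at hb
  have h1 := hb.map (algebraMap (X.presheaf.stalk x) X.functionField)
  rw [Scheme.algebraMap_germ_eq_germToFunctionField (X := X) hx b] at h1
  exact h1.ne_zero

end frac

section mk

variable {k : Type} [Field k] {n : ℕ} (C : Fam n k) [IsIntegral C.X]
  (δ : C.X.functionField → C.X.functionField)

theorem ex_D (h : FDer C.π δ) (U : C.X.Opens) [Nonempty U] (a : Γ(C.X, U)) :
    ∃ r : Γ(C.X, U), C.X.germToFunctionField U r = δ (C.X.germToFunctionField U a) :=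
  exists_sec _ fun p hp => h.reg p _ (germ_mem_O p hp a)

open Classical in
/-- The derivation of the functions on `U`. -/
noncomputable def DD (h : FDer C.π δ) (U : C.X.Opens) (a : Γ(C.X, U)) : Γ(C.X, U) :=
  if hU : Nonempty U then (ex_D C δ h U a).choose else 0

theorem germ_DD (h : FDer C.π δ) (U : C.X.Opens) [hU : Nonempty U] (a : Γ(C.X, U)) :
    C.X.germToFunctionField U (DD C δ h U a) = δ (C.X.germToFunctionField U a) := by
  rw [DD, dif_pos hU]
  exact (ex_D C δ h U a).choose_spec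

theorem DD_empty (h : FDer C.π δ) (U : C.X.Opens) (hU : ¬ Nonempty U) (a : Γ(C.X, U)) :
    DD C δ h U a = 0 := by
  rw [DD, dif_neg hU]

theorem sub_of_empty {X : Scheme.{0}} (U : X.Opens) (hU : ¬ Nonempty U) :
    Subsingleton Γ(X, U) := by
  have h1 : U = ⊥ := by
    ext x
    constructor
    · intro hx
      exact (hU ⟨⟨x, hx⟩⟩).elim
    · intro hx
      exact hx.elim
  subst h1
  exact CommRingCat.subsingleton_of_isTerminal X.sheaf.isTerminalOfEmpty

/-- The vector field. -/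
noncomputable def mkV (h : FDer C.π δ)
    (hs : ∀ (U : C.X.Opens) (i : Fin n) (a : Γ(C.X, U)), (C.σ i).app U (DD C δ h U a) = 0) :
    VField C where
  D U := AddMonoidHom.mk' (DD C δ h U) (by
    intro a b
    by_cases hU : Nonempty U
    · apply C.X.germToFunctionField_injective U
      rw [map_add, germ_DD, germ_DD, germ_DD, map_add, h.add]
    · rw [DD_empty _ _ _ _ hU, DD_empty _ _ _ _ hU, DD_empty _ _ _ _ hU, add_zero])
  mul U a b := by
    show DD C δ h U (a * b) = a * DD C δ h U b + b * DD C δ h U a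
    by_cases hU : Nonempty U
    · apply C.X.germToFunctionField_injective U
      rw [map_add, map_mul, map_mul, germ_DD, germ_DD, germ_DD, map_mul, h.mul]
    · rw [DD_empty _ _ _ _ hU, DD_empty _ _ _ _ hU, DD_empty _ _ _ _ hU, mul_zero, mul_zero,
        add_zero]
  const U c := by
    show DD C δ h U _ = 0
    by_cases hU : Nonempty U
    · apply C.X.germToFunctionField_injective U
      rw [germ_DD, germ_coef, h.const, map_zero]
    · rw [DD_empty _ _ _ _ hU]
  res U V hUV a := by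
    show DD C δ h U (rs C.X hUV a) = rs C.X hUV (DD C δ h V a)
    by_cases hU : Nonempty U
    · have hV : Nonempty V := ⟨⟨hU.some.1, hUV hU.some.2⟩⟩
      apply C.X.germToFunctionField_injective U
      rw [germ_DD, germ_rs, germ_rs, germ_DD]
    · have := sub_of_empty U hU
      exact Subsingleton.elim _ _
  sec U i a := hs U i a

end mk

section charts

variable {A : Type} [CommRing A] {k : Type} [Field k] {n : ℕ} {C : Fam n k} [IsIntegral C.X]
  (i : Sp A ⟶ C.X) [IsOpenImmersion i]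

omit [IsIntegral C.X] in
theorem ne_range [Nontrivial A] : Nonempty i.opensRange := by
  obtain ⟨p⟩ := (inferInstance : Nonempty (PrimeSpectrum A))
  exact ⟨⟨i p, ⟨p, rfl⟩⟩⟩

/-- The functions of a chart as rational functions. -/
noncomputable def rr [Nonempty i.opensRange] : A →+* C.X.functionField :=
  (C.X.germToFunctionField i.opensRange).hom.comp ((WRI.ev i).symm : A →+* Γ(C.X, i.opensRange))

theorem rr_ev [Nonempty i.opensRange] (u : Γ(C.X, i.opensRange)) :
    rr i (WRI.ev i u) = C.X.germToFunctionField i.opensRange u := by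
  show C.X.germToFunctionField i.opensRange ((WRI.ev i).symm (WRI.ev i u)) = _
  rw [RingEquiv.symm_apply_apply]

theorem rr_apply [Nonempty i.opensRange] (a : A) :
    rr i a = C.X.germToFunctionField i.opensRange ((WRI.ev i).symm a) := rfl

theorem rr_const [Nonempty i.opensRange] (ψ : k →+* A) (hψ : i ≫ C.π = spMap ψ) (c : k) :
    rr i (ψ c) = kfun C.π c := by
  have h : (WRI.ev i).symm (ψ c) = coef C.π i.opensRange c := by
    rw [RingEquiv.symm_apply_eq, WRI.ev_apply]
    exact (evO_coef i C.π ψ hψ (range_pre i) c).symm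
  rw [rr_apply, h, germ_coef]

/-- Compatibility with restriction. -/
theorem rr_comp {A' : Type} [CommRing A'] (g : A →+* A') (j : Sp A' ⟶ C.X)
    [IsOpenImmersion j] (hj : j = spMap g ≫ i) [Nonempty i.opensRange] [Nonempty j.opensRange]
    (f : A) : rr j (g f) = rr i f := by
  subst hj
  have hle : (spMap g ≫ i).opensRange ≤ i.opensRange := by
    rintro _ ⟨p, rfl⟩
    exact ⟨spMap g p, by simp⟩
  have hr : ∀ u : Γ(C.X, i.opensRange), WRI.ev (spMap g ≫ i) (rs C.X hle u) =
      g (WRI.ev i u) := by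
    intro u
    have h' : ⊤ ≤ (spMap g ≫ i) ⁻¹ᵁ i.opensRange := by
      intro p _
      exact ⟨spMap g p, by simp⟩
    rw [WRI.ev_apply, WRI.ev_apply, evO_rs (spMap g ≫ i) hle (range_pre _) h' u]
    exact evO_spMap i g (range_pre i) h' u
  have h1 : (WRI.ev (spMap g ≫ i)).symm (g f) = rs C.X hle ((WRI.ev i).symm f) := by
    rw [RingEquiv.symm_apply_eq, hr, RingEquiv.apply_symm_apply]
  rw [rr_apply, rr_apply, h1, germ_rs]

end charts

/-- A derivation maps the functions of a chart to an ideal. -/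
theorem closed {k K : Type} [Field k] [Field K] (I : Ideal (MvPolynomial (Fin 2) k))
    (r : (MvPolynomial (Fin 2) k ⧸ I) →+* K) (δ : K → K)
    (ha : ∀ f g, δ (f + g) = δ f + δ g) (hm : ∀ f g, δ (f * g) = f * δ g + g * δ f)
    (J : Ideal (MvPolynomial (Fin 2) k ⧸ I))
    (hc : ∀ c : k, δ (r (algebraMap k _ c)) = 0)
    (h0 : ∃ a ∈ J, δ (r (Ideal.Quotient.mk I (MvPolynomial.X 0))) = r a)
    (h1 : ∃ a ∈ J, δ (r (Ideal.Quotient.mk I (MvPolynomial.X 1))) = r a)
    (v : MvPolynomial (Fin 2) k ⧸ I) : ∃ a ∈ J, δ (r v) = r a := by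
  obtain ⟨p, rfl⟩ := Ideal.Quotient.mk_surjective v
  induction p using MvPolynomial.induction_on with
  | C c => exact ⟨0, J.zero_mem, by rw [map_zero]; exact hc c⟩
  | add p q hp hq =>
    obtain ⟨a, haJ, hp⟩ := hp
    obtain ⟨b, hbJ, hq⟩ := hq
    exact ⟨a + b, J.add_mem haJ hbJ, by rw [map_add, map_add, ha, hp, hq, map_add]⟩
  | mul_X p i hp =>
    obtain ⟨a, haJ, hp⟩ := hp
    have hX : ∃ a ∈ J, δ (r (Ideal.Quotient.mk I (MvPolynomial.X i))) = r a := by
      fin_cases i
      · exact h0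
      · exact h1
    obtain ⟨b, hbJ, hX⟩ := hX
    refine ⟨Ideal.Quotient.mk I p * b + Ideal.Quotient.mk I (MvPolynomial.X i) * a,
      J.add_mem (J.mul_mem_left _ hbJ) (J.mul_mem_left _ haJ), ?_⟩
    rw [map_mul, map_mul, hm, hp, hX, map_add, map_mul, map_mul]

/-- Regularity of the derivative. -/
theorem reg_of {X : Scheme.{0}} [IsIntegral X] (δ : X.functionField → X.functionField)
    (hm : ∀ f g, δ (f * g) = f * δ g + g * δ f) {V : X.Opens} (hV : IsAffineOpen V)
    [Nonempty V] (hr : ∀ a : Γ(X, V), ∃ b : Γ(X, V),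
      δ (X.germToFunctionField V a) = X.germToFunctionField V b) (x : X) (hx : x ∈ V)
    (f : X.functionField) (hf : f ∈ O x) : δ f ∈ O x := by
  obtain ⟨a, b, hb, hab⟩ := frac hV x hx f hf
  obtain ⟨a', ha'⟩ := hr a
  obtain ⟨b', hb'⟩ := hr b
  have h1 := congrArg δ hab
  rw [hm, ha', hb'] at h1
  have hb0 := germ_ne_zero x hx b hb
  have h2 : δ f = (X.germToFunctionField V a' - f * X.germToFunctionField V b') *
      (X.germToFunctionField V b)⁻¹ := by
    rw [eq_mul_inv_iff_mul_eq₀ hb0]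
    linear_combination h1
  rw [h2]
  exact (O x).mul_mem ((O x).sub_mem (germ_mem_O x hx a') ((O x).mul_mem hf
    (germ_mem_O x hx b'))) (inv_mem_O x b hb)

section der

variable (k : Type) [Field k]

/-- The curve. -/
noncomputable abbrev CC : Fam 1 k := Wei (WZ (0 : k) 0)

/-- The affine chart. -/
noncomputable abbrev j1 : Sp (A1 k 0 0) ⟶ (CC k).X := WX.in1 k 0 0

/-- The chart at infinity. -/
noncomputable abbrev j2 : Sp (A2 k 0 0) ⟶ (CC k).X := WX.in2 k 0 0

instance o1 : IsOpenImmersion (j1 k) := inferInstanceAs (IsOpenImmersion (WX.in1 k 0 0))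

instance o2 : IsOpenImmersion (j2 k) := inferInstanceAs (IsOpenImmersion (WX.in2 k 0 0))

theorem cond : spMap (g1 k (0 : k) 0) ≫ j1 k = spMap (g2 k (0 : k) 0) ≫ j2 k :=
  pushout.condition

instance nt2 : Nontrivial (A2 k 0 0) := (inf2 k (0 : k) 0).domain_nontrivial

instance nt1 : Nontrivial (A1 k 0 0) :=
  (lift1 (a := (0 : k)) (b := 0) (RingHom.id k) 0 0 (by simp)).domain_nontrivial

instance nt12 : Nontrivial (A12 k 0 0) := by
  have h : (A12 k 0 0) →+* k := IsLocalization.Away.lift (z2 k (0 : k) 0)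
    (g := lift2 (a := (0 : k)) (b := 0) (RingHom.id k) 1 1 (by simp)) (by
      rw [lift2_z]
      exact isUnit_one)
  exact h.domain_nontrivial

instance ne1 : Nonempty (j1 k).opensRange := ne_range _

instance ne2 : Nonempty (j2 k).opensRange := ne_range _

variable [IsIntegral (CC k).X]

/-- The function field. -/
abbrev FF : Type := (CC k).X.functionField

theorem t_one : t2 k (0 : k) 0 = 1 := by
  have h := rel2 k (0 : k) 0
  simpa using h

theorem rel_x : rr (j1 k) (x1 k 0 0) * rr (j2 k) (z2 k 0 0) ^ 2 = 1 := by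
  have hne : Nonempty (spMap (g1 k (0 : k) 0) ≫ j1 k).opensRange := ne_range _
  have h1 := rr_comp (j1 k) (g1 k (0 : k) 0) _ rfl (x1 k 0 0)
  have h2 := rr_comp (j2 k) (g2 k (0 : k) 0) _ (cond k) (z2 k 0 0)
  rw [← h1, ← h2, ← map_pow, ← map_mul, g1_x]
  have ht : (tu k (0 : k) 0) = 1 := by
    ext1
    rw [tu_val, t_one, map_one]
    rfl
  rw [ht, ← zu_val, ← Units.val_pow_eq_pow_val, ← Units.val_mul]
  have h3 : (zu k (0 : k) 0)⁻¹ ^ 2 * 1⁻¹ * zu k (0 : k) 0 ^ 2 = 1 := by group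
  rw [h3, Units.val_one, map_one]

theorem rel_y : rr (j1 k) (y1 k 0 0) * rr (j2 k) (z2 k 0 0) ^ 3 = 1 := by
  have hne : Nonempty (spMap (g1 k (0 : k) 0) ≫ j1 k).opensRange := ne_range _
  have h1 := rr_comp (j1 k) (g1 k (0 : k) 0) _ rfl (y1 k 0 0)
  have h2 := rr_comp (j2 k) (g2 k (0 : k) 0) _ (cond k) (z2 k 0 0)
  rw [← h1, ← h2, ← map_pow, ← map_mul, g1_y]
  have ht : (tu k (0 : k) 0) = 1 := by
    ext1
    rw [tu_val, t_one, map_one]
    rfl
  rw [ht, ← zu_val, ← Units.val_pow_eq_pow_val, ← Units.val_mul]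
  have h3 : (zu k (0 : k) 0)⁻¹ ^ 3 * 1⁻¹ * zu k (0 : k) 0 ^ 3 = 1 := by group
  rw [h3, Units.val_one, map_one]

/-- The derivation `- z d/dz` as a homomorphism to the dual numbers. -/
noncomputable def φ2 : A2 k 0 0 →+* TrivSqZeroExt (FF k) (FF k) :=
  lift2 ((TrivSqZeroExt.inlHom (FF k) (FF k)).comp (kfun (CC k).π))
    (TrivSqZeroExt.inl (rr (j2 k) (z2 k 0 0)) + TrivSqZeroExt.inr (- rr (j2 k) (z2 k 0 0))) 1
    (by rw [map_zero]; ring)

theorem φ2_z : φ2 k (z2 k 0 0) =
    TrivSqZeroExt.inl (rr (j2 k) (z2 k 0 0)) + TrivSqZeroExt.inr (- rr (j2 k) (z2 k 0 0)) :=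
  lift2_z _ _ _ _

theorem φ2_t : φ2 k (t2 k 0 0) = 1 := lift2_t _ _ _ _

theorem φ2_c (c : k) : φ2 k (algebraMap k _ c) = TrivSqZeroExt.inl (kfun (CC k).π c) :=
  lift2_b _ _ _ _ _

theorem rr2_c (c : k) : rr (j2 k) (algebraMap k _ c) = kfun (CC k).π c :=
  rr_const (j2 k) (algebraMap k _) (WX.in2_pr k 0 0) c

theorem rr1_c (c : k) : rr (j1 k) (algebraMap k _ c) = kfun (CC k).π c :=
  rr_const (j1 k) (algebraMap k _) (WX.in1_pr k 0 0) c

theorem fst_φ2 (a : A2 k 0 0) : (φ2 k a).fst = rr (j2 k) a := by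
  have h : (TrivSqZeroExt.fstHom (FF k) (FF k) (FF k)).toRingHom.comp (φ2 k) = rr (j2 k) := by
    apply hom2_ext
    · intro c
      show (φ2 k (algebraMap k _ c)).fst = _
      rw [φ2_c, rr2_c]
      exact TrivSqZeroExt.fst_inl _ _
    · show (φ2 k (z2 k 0 0)).fst = _
      rw [φ2_z]
      simp
    · show (φ2 k (t2 k 0 0)).fst = _
      rw [φ2_t, t_one, map_one]
      exact TrivSqZeroExt.fst_one
  exact congrArg (fun g => g a) h

theorem ex_ψ : ∃ ψ : FF k →+* TrivSqZeroExt (FF k) (FF k),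
    (∀ f, (ψ f).fst = f) ∧ ∀ a, ψ (rr (j2 k) a) = φ2 k a := by
  have hfr := functionField_isFractionRing_of_isAffineOpen (CC k).X (j2 k).opensRange
    (isAffineOpen_opensRange (j2 k))
  have hu : ∀ y : nonZeroDivisors Γ((CC k).X, (j2 k).opensRange),
      IsUnit (((φ2 k).comp (WRI.ev (j2 k) : Γ((CC k).X, (j2 k).opensRange) →+* A2 k 0 0))
        (y : Γ((CC k).X, (j2 k).opensRange))) := by
    intro y
    rw [TrivSqZeroExt.isUnit_iff_isUnit_fst]
    show IsUnit (φ2 k (WRI.ev (j2 k) y.1)).fst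
    rw [fst_φ2, rr_ev, isUnit_iff_ne_zero]
    intro h
    have h1 : (y : Γ((CC k).X, (j2 k).opensRange)) = 0 :=
      (CC k).X.germToFunctionField_injective (j2 k).opensRange (by rw [h, map_zero])
    exact nonZeroDivisors.ne_zero y.2 h1
  have hψ : ∀ u : Γ((CC k).X, (j2 k).opensRange),
      IsLocalization.lift (M := nonZeroDivisors Γ((CC k).X, (j2 k).opensRange)) (S := FF k) hu
        ((CC k).X.germToFunctionField (j2 k).opensRange u) = φ2 k (WRI.ev (j2 k) u) := fun u =>
    IsLocalization.lift_eq hu u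
  refine ⟨IsLocalization.lift (M := nonZeroDivisors Γ((CC k).X, (j2 k).opensRange))
    (S := FF k) hu, ?_, ?_⟩
  · have h : (TrivSqZeroExt.fstHom (FF k) (FF k) (FF k)).toRingHom.comp
        (IsLocalization.lift (M := nonZeroDivisors Γ((CC k).X, (j2 k).opensRange))
          (S := FF k) hu) = RingHom.id (FF k) := by
      apply IsLocalization.ringHom_ext (nonZeroDivisors Γ((CC k).X, (j2 k).opensRange))
      ext u
      show (IsLocalization.lift (M := nonZeroDivisors Γ((CC k).X, (j2 k).opensRange))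
        (S := FF k) hu ((CC k).X.germToFunctionField (j2 k).opensRange u)).fst = _
      rw [hψ, fst_φ2, rr_ev]
      rfl
    intro f
    exact congrArg (fun g => g f) h
  · intro a
    rw [rr_apply, hψ, RingEquiv.apply_symm_apply]

theorem ex_δ : ∃ δ : FF k → FF k, (∀ f g, δ (f + g) = δ f + δ g) ∧
    (∀ f g, δ (f * g) = f * δ g + g * δ f) ∧ (∀ c : k, δ (kfun (CC k).π c) = 0) ∧
    (∀ a, ∃ b ∈ Ideal.span {z2 k (0 : k) 0}, δ (rr (j2 k) a) = rr (j2 k) b) ∧
    (∀ a, ∃ b ∈ (⊤ : Ideal (A1 k 0 0)), δ (rr (j1 k) a) = rr (j1 k) b) ∧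
    δ (rr (j1 k) (x1 k 0 0)) = 2 * rr (j1 k) (x1 k 0 0) := by
  obtain ⟨ψ, h1, h2⟩ := ex_ψ k
  have ha : ∀ f g, (ψ (f + g)).snd = (ψ f).snd + (ψ g).snd := fun f g => by
    rw [map_add, TrivSqZeroExt.snd_add]
  have hm : ∀ f g, (ψ (f * g)).snd = f * (ψ g).snd + g * (ψ f).snd := fun f g => by
    rw [map_mul, TrivSqZeroExt.snd_mul, h1, h1]
    simp only [smul_eq_mul, MulOpposite.smul_eq_mul_unop, MulOpposite.unop_op]
    ring
  have hc : ∀ c : k, (ψ (kfun (CC k).π c)).snd = 0 := fun c => by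
    rw [← rr2_c, h2, φ2_c, TrivSqZeroExt.snd_inl]
  have hz : (ψ (rr (j2 k) (z2 k 0 0))).snd = - rr (j2 k) (z2 k 0 0) := by
    rw [h2, φ2_z]
    simp
  have hone : (ψ 1).snd = 0 := by rw [map_one, TrivSqZeroExt.snd_one]
  have hz0 : rr (j2 k) (z2 k 0 0) ≠ 0 := by
    intro h
    have h3 := rel_x k
    rw [h] at h3
    simp at h3
  have hx : (ψ (rr (j1 k) (x1 k 0 0))).snd = 2 * rr (j1 k) (x1 k 0 0) := by
    have h3 := congrArg (fun u => (ψ u).snd) (rel_x k)
    beta_reduce at h3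
    rw [hone, hm, pow_two, hm, hz] at h3
    have h4 : rr (j2 k) (z2 k 0 0) ^ 2 * (ψ (rr (j1 k) (x1 k 0 0))).snd =
        rr (j2 k) (z2 k 0 0) ^ 2 * (2 * rr (j1 k) (x1 k 0 0)) := by
      linear_combination h3
    exact mul_left_cancel₀ (pow_ne_zero 2 hz0) h4
  have hy : (ψ (rr (j1 k) (y1 k 0 0))).snd = 3 * rr (j1 k) (y1 k 0 0) := by
    have h3 := congrArg (fun u => (ψ u).snd) (rel_y k)
    beta_reduce at h3
    rw [hone, hm, pow_succ, hm, pow_two, hm, hz] at h3
    have h4 : rr (j2 k) (z2 k 0 0) ^ 3 * (ψ (rr (j1 k) (y1 k 0 0))).snd =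
        rr (j2 k) (z2 k 0 0) ^ 3 * (3 * rr (j1 k) (y1 k 0 0)) := by
      linear_combination h3
    exact mul_left_cancel₀ (pow_ne_zero 3 hz0) h4
  refine ⟨fun f => (ψ f).snd, ha, hm, hc, ?_, ?_, hx⟩
  · refine closed _ (rr (j2 k)) (fun f => (ψ f).snd) ha hm _ (fun c => ?_) ?_ ?_
    · show (ψ (rr (j2 k) (algebraMap k _ c))).snd = 0
      rw [rr2_c]
      exact hc c
    · refine ⟨-z2 k 0 0, Ideal.neg_mem_iff _ |>.2 (Ideal.subset_span rfl), ?_⟩
      show (ψ (rr (j2 k) (z2 k 0 0))).snd = _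
      rw [hz, map_neg]
    · refine ⟨0, Ideal.zero_mem _, ?_⟩
      show (ψ (rr (j2 k) (t2 k 0 0))).snd = _
      rw [t_one, map_one, hone, map_zero]
  · refine closed _ (rr (j1 k)) (fun f => (ψ f).snd) ha hm _ (fun c => ?_) ?_ ?_
    · show (ψ (rr (j1 k) (algebraMap k _ c))).snd = 0
      rw [rr1_c]
      exact hc c
    · refine ⟨2 * x1 k 0 0, trivial, ?_⟩
      show (ψ (rr (j1 k) (x1 k 0 0))).snd = _
      rw [hx, map_mul, map_ofNat]
    · refine ⟨3 * y1 k 0 0, trivial, ?_⟩
      show (ψ (rr (j1 k) (y1 k 0 0))).snd = _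
      rw [hy, map_mul, map_ofNat]

theorem main [CharZero k] : ∃ (v : VField (CC k)) (U : (CC k).X.Opens), v.D U ≠ 0 := by
  obtain ⟨δ, ha, hm, hc, h2, h1, hx⟩ := ex_δ k
  have hF : FDer (CC k).π δ := by
    refine ⟨ha, hm, hc, ?_⟩
    intro x g hg
    have hcov : x ∈ (j1 k).opensRange ⊔ (j2 k).opensRange := by
      have h := glue2_range (spMap (g1 k (0 : k) 0)) (spMap (g2 k (0 : k) 0))
      have h' : (j1 k).opensRange ⊔ (j2 k).opensRange = ⊤ := h
      rw [h']
      trivial
    rcases hcov with hx | hx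
    · refine reg_of δ hm (isAffineOpen_opensRange (j1 k)) (fun a => ?_) x hx g hg
      obtain ⟨b, -, hb⟩ := h1 (WRI.ev (j1 k) a)
      refine ⟨(WRI.ev (j1 k)).symm b, ?_⟩
      rw [← rr_ev, hb, rr_apply]
    · refine reg_of δ hm (isAffineOpen_opensRange (j2 k)) (fun a => ?_) x hx g hg
      obtain ⟨b, -, hb⟩ := h2 (WRI.ev (j2 k) a)
      refine ⟨(WRI.ev (j2 k)).symm b, ?_⟩
      rw [← rr_ev, hb, rr_apply]
  have hs : ∀ (U : (CC k).X.Opens) (i : Fin 1) (a : Γ((CC k).X, U)),
      ((CC k).σ i).app U (DD (CC k) δ hF U a) = 0 := by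
    intro U i a
    obtain ⟨q⟩ := (inferInstance : Nonempty (PrimeSpectrum k))
    by_cases hq : (CC k).σ i q ∈ U
    · have hU : Nonempty U := ⟨⟨_, hq⟩⟩
      have htop := top_le_of_mem ((CC k).σ i) U q hq
      have hev : evs ((CC k).σ i) U htop (DD (CC k) δ hF U a) = 0 := by
        rw [evs_eq_zero_iff _ _ _ _ q]
        intro hbo
        have hσ : (CC k).σ i = spMap (inf2 k (0 : k) 0) ≫ j2 k := by
          have : i = 0 := Subsingleton.elim _ _
          rw [this]
          rfl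
        have hq2 : (CC k).σ i q ∈ (j2 k).opensRange := by
          rw [hσ]
          exact ⟨spMap (inf2 k (0 : k) 0) q, by simp⟩
        obtain ⟨a', b', hb', hab⟩ := frac (isAffineOpen_opensRange (j2 k)) _ hq2
          ((CC k).X.germToFunctionField U a) (germ_mem_O _ hq a)
        obtain ⟨c, hcJ, hc'⟩ := h2 (WRI.ev (j2 k) a')
        obtain ⟨d, hdJ, hd'⟩ := h2 (WRI.ev (j2 k) b')
        obtain ⟨c1, rfl⟩ := Ideal.mem_span_singleton'.1 hcJ
        obtain ⟨d1, rfl⟩ := Ideal.mem_span_singleton'.1 hdJ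
        rw [rr_ev, map_mul] at hc' hd'
        have e1 := congrArg δ hab
        rw [hm, hc', hd', ← germ_DD (CC k) δ hF U a] at e1
        have hb0 := germ_ne_zero _ hq2 b' hb'
        have hD0 := germ_ne_zero _ hq _ hbo
        have hinv := inv_mem_O _ b' hb'
        have hinv2 := inv_mem_O _ _ hbo
        have hz0 : rr (j2 k) (z2 k 0 0) ≠ 0 := by
          intro h
          have h3 := rel_x k
          rw [h] at h3
          simp at h3
        have e2 : (rr (j2 k) (z2 k 0 0))⁻¹ = (rr (j2 k) c1 -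
            (CC k).X.germToFunctionField U a * rr (j2 k) d1) *
            ((CC k).X.germToFunctionField (j2 k).opensRange b')⁻¹ *
            ((CC k).X.germToFunctionField U (DD (CC k) δ hF U a))⁻¹ := by
          field_simp
          linear_combination e1
        have hreg : ∀ u : A2 k 0 0, rr (j2 k) u ∈ O ((CC k).σ i q) := fun u => by
          rw [rr_apply]
          exact germ_mem_O _ hq2 _
        have hzi : (rr (j2 k) (z2 k 0 0))⁻¹ ∈ O ((CC k).σ i q) := by
          rw [e2]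
          exact (O _).mul_mem ((O _).mul_mem ((O _).sub_mem (hreg c1)
            ((O _).mul_mem (germ_mem_O _ hq a) (hreg d1))) hinv) hinv2
        rw [rr_apply] at hzi hz0
        have hbz := mem_basicOpen_of_inv _ hq2 _ hz0 hzi
        have htop2 := top_le_of_mem ((CC k).σ i) (j2 k).opensRange q hq2
        have h5 := (evs_eq_zero_iff ((CC k).σ i) (j2 k).opensRange htop2
          ((WRI.ev (j2 k)).symm (z2 k 0 0)) q).not.2 (not_not.2 hbz)
        apply h5
        have h6 : ∀ (s : Sp k ⟶ (CC k).X) (hs : s = spMap (inf2 k (0 : k) 0) ≫ j2 k)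
            (ht : ⊤ ≤ s ⁻¹ᵁ (j2 k).opensRange),
            evs s (j2 k).opensRange ht ((WRI.ev (j2 k)).symm (z2 k 0 0)) = 0 := by
          intro s hs ht
          subst hs
          refine (evO_spMap (j2 k) (inf2 k (0 : k) 0) (range_pre (j2 k)) ht _).trans ?_
          rw [← WRI.ev_apply, RingEquiv.apply_symm_apply]
          exact lift2_z _ _ _ _
        exact h6 _ hσ htop2
      have h7 : ((CC k).σ i).appLE U ⊤ htop (DD (CC k) δ hF U a) = 0 := by
        apply (ConcreteCategory.bijective_of_isIso (Scheme.ΓSpecIso (.of k)).hom).1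
        rw [map_zero]
        exact hev
      have h8 : (CC k).σ i ⁻¹ᵁ U = ⊤ := top_le_iff.1 htop
      have h9 : IsIso ((Sp k).presheaf.map (homOfLE htop).op) := by
        have h5 : IsIso (homOfLE htop) := by
          have h6 : homOfLE htop = eqToHom h8.symm := Subsingleton.elim _ _
          rw [h6]
          infer_instance
        infer_instance
      apply (ConcreteCategory.bijective_of_isIso ((Sp k).presheaf.map (homOfLE htop).op)).1
      rw [map_zero]
      exact h7
    · have h3 : ¬ Nonempty ((CC k).σ i ⁻¹ᵁ U : (Sp k).Opens) := by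
        rintro ⟨⟨q', hq'⟩⟩
        have h4 : q' = q := Subsingleton.elim (α := PrimeSpectrum k) _ _
        rw [h4] at hq'
        exact hq hq'
      have := sub_of_empty _ h3
      exact Subsingleton.elim _ _
  refine ⟨mkV (CC k) δ hF hs, (j1 k).opensRange, fun h => ?_⟩
  have h3 := congrArg (fun D => D ((WRI.ev (j1 k)).symm (x1 k 0 0))) h
  have h4 : DD (CC k) δ hF (j1 k).opensRange ((WRI.ev (j1 k)).symm (x1 k 0 0)) = 0 := h3
  have h5 := germ_DD (CC k) δ hF (j1 k).opensRange ((WRI.ev (j1 k)).symm (x1 k 0 0))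
  rw [h4, map_zero, ← rr_apply, hx] at h5
  have h6 : rr (j1 k) (x1 k 0 0) ≠ 0 := by
    intro h
    have h3 := rel_x k
    rw [h] at h3
    simp at h3
  have hchar : CharZero (FF k) := charZero_of_injective_ringHom (kfun (CC k).π).injective
  rcases mul_eq_zero.1 h5.symm with h7 | h7
  · exact two_ne_zero h7
  · exact h6 h7

end der

end CUSP_

theorem t_CUSP (_hU : Stmt_UNQ) (_hV : Stmt_VF) : Stmt_CUSP := by
  intro k _ _ hI
  have : IsIntegral (CUSP_.CC k).X := hI
  exact CUSP_.main k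

end Pool.Agent.MG.WL.CL
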