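import Pool.Agent.MG.WL.CL.StmtsC

/-!
# The vector fields `q(f) d/df`
-/

open CategoryTheory AlgebraicGeometry IsLocalRing TopologicalSpace
open Pool.Agent.MG.Two Pool.Agent.MG.W Pool.Agent.MG.W.W0 Pool.Agent.MG.One

namespace Pool.Agent.MG.WL.CL

namespace DER_

/-! ### Algebra -/

section algebra

open Polynomial

variable {k K : Type} [Field k] [Field K] (i : k →+* K)

/-- A local ring in a field and its maximal ideal. -/
structure Loc (O : Subring K) (M : Set K) : Prop where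
  sub : ∀ a ∈ M, a ∈ O
  add : ∀ a ∈ M, ∀ b ∈ M, a + b ∈ M
  mul : ∀ a ∈ O, ∀ b ∈ M, a * b ∈ M
  one : (1 : K) ∉ M
  inv : ∀ a ∈ O, a ∉ M → a⁻¹ ∈ O

/-- A derivation over the constants. -/
structure Der (D : K → K) : Prop where
  add : ∀ a b, D (a + b) = D a + D b
  mul : ∀ a b, D (a * b) = a * D b + b * D a
  const : ∀ c, D (i c) = 0

theorem Loc.prime {O : Subring K} {M : Set K} (h : Loc O M) {a b : K} (ha : a ∈ O)
    (hab : a * b ∈ M) : a ∈ M ∨ b ∈ M := by
  by_cases hm : a ∈ M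
  · exact Or.inl hm
  · right
    have h0 : a ≠ 0 := by
      rintro rfl
      rw [zero_mul] at hab
      exact hm hab
    have h1 := h.mul _ (h.inv a ha hm) _ hab
    rwa [inv_mul_cancel_left₀ h0] at h1

theorem Loc.const {O : Subring K} {M : Set K} (h : Loc O M) (hi : ∀ c, i c ∈ O) {c : k}
    (hc : c ≠ 0) : i c ∉ M := by
  intro hm
  have h1 := h.mul _ (hi c⁻¹) _ hm
  rw [← map_mul, inv_mul_cancel₀ hc, map_one] at h1
  exact h.one h1

theorem eval_mem {O : Subring K} (hi : ∀ c, i c ∈ O) {w : K} (hw : w ∈ O) (P : k[X]) :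
    P.eval₂ i w ∈ O := by
  rw [Polynomial.eval₂_eq_sum_range]
  exact O.sum_mem fun n _ => O.mul_mem (hi _) (O.pow_mem hw n)

section der

variable {i} {D : K → K} (hD : Der i D)

include hD

theorem Der.pow (w : K) (n : ℕ) : D (w ^ n) = n * w ^ (n - 1) * D w := by
  induction n with
  | zero =>
    have h := hD.const 1
    rw [map_one] at h
    simp [h]
  | succ n ih =>
    rw [pow_succ, hD.mul, ih]
    cases n with
    | zero => simp
    | succ n =>
      simp only [Nat.add_sub_cancel]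
      push_cast
      ring

theorem Der.chain (w : K) (P : k[X]) :
    D (P.eval₂ i w) = P.derivative.eval₂ i w * D w := by
  induction P using Polynomial.induction_on' with
  | add P Q hP hQ => rw [eval₂_add, hD.add, hP, hQ, derivative_add, eval₂_add, add_mul]
  | monomial n a =>
    rw [eval₂_monomial, hD.mul, hD.const, hD.pow, derivative_monomial, eval₂_monomial, map_mul,
      map_natCast]
    ring

theorem Der.zero : D 0 = 0 := by
  have h := hD.const 0
  rwa [map_zero] at h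

theorem Der.quot {g A B : K} (hB : B ≠ 0) (h : g * B = A) : D g = (D A - g * D B) * B⁻¹ := by
  have h1 : D A = g * D B + B * D g := by rw [← h, hD.mul]
  rw [h1, eq_mul_inv_iff_mul_eq₀ hB]
  ring

theorem Der.inv {f : K} (hf : f ≠ 0) (h1 : D f = 1) : D f⁻¹ = - f⁻¹ ^ 2 := by
  have h2 : D 1 = 0 := by
    have h := hD.const 1
    rwa [map_one] at h
  rw [hD.quot hf (inv_mul_cancel₀ hf), h2, h1]
  ring

/-- At the points different from the pole. -/
theorem far {f : K} {O : Subring K} {M : Set K} (hL : Loc O M) (hi : ∀ c, i c ∈ O)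
    (hf : f ∈ O) (h1 : D f = 1) {q g : K} (hq : q ∈ O) (hg : g ∈ O) {A B : k[X]}
    (hB : B.eval₂ i f ≠ 0) (hB' : (B.eval₂ i f)⁻¹ ∈ O) (h : g * B.eval₂ i f = A.eval₂ i f) :
    q * D g ∈ O ∧ (q ∈ M → q * D g ∈ M) := by
  have h2 : D g ∈ O := by
    rw [hD.quot hB h, hD.chain, hD.chain, h1, mul_one, mul_one]
    exact O.mul_mem (O.sub_mem (eval_mem i hi hf _) (O.mul_mem hg (eval_mem i hi hf _))) hB'
  refine ⟨O.mul_mem hq h2, fun hm => ?_⟩
  rw [mul_comm]
  exact hL.mul _ h2 _ hm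

end der

theorem exists_der {f : K} (hinj : ∀ P : k[X], P.eval₂ i f = 0 → P = 0)
    (hfrac : ∀ g : K, ∃ P Q : k[X], Q ≠ 0 ∧ g * Q.eval₂ i f = P.eval₂ i f) :
    ∃ D : K → K, Der i D ∧ D f = 1 := by
  have hne : ∀ Q : k[X], Q ≠ 0 → Q.eval₂ i f ≠ 0 := fun Q hQ h => hQ (hinj Q h)
  choose P Q hQ hg using hfrac
  let D : K → K := fun g => (derivative (P g) * Q g - P g * derivative (Q g)).eval₂ i f /
    ((Q g).eval₂ i f) ^ 2
  have key : ∀ (g : K) (A B : k[X]), B ≠ 0 → g * B.eval₂ i f = A.eval₂ i f →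
      D g = (derivative A * B - A * derivative B).eval₂ i f / (B.eval₂ i f) ^ 2 := by
    intro g A B hB h
    have e1 : P g * B = A * Q g := by
      apply sub_eq_zero.mp
      apply hinj
      rw [eval₂_sub, eval₂_mul, eval₂_mul, ← h, ← hg g]
      ring
    have e2 := congrArg derivative e1
    rw [derivative_mul, derivative_mul] at e2
    have e3 : (derivative (P g) * Q g - P g * derivative (Q g)) * B ^ 2 =
        (derivative A * B - A * derivative B) * (Q g) ^ 2 := by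
      linear_combination (Q g * B) * e2 - (derivative (Q g) * B + derivative B * Q g) * e1
    have e4 := congrArg (Polynomial.eval₂ i f) e3
    rw [eval₂_mul, eval₂_mul, eval₂_pow, eval₂_pow] at e4
    change (derivative (P g) * Q g - P g * derivative (Q g)).eval₂ i f /
      ((Q g).eval₂ i f) ^ 2 = _
    rw [div_eq_div_iff (pow_ne_zero 2 (hne _ (hQ g))) (pow_ne_zero 2 (hne _ hB))]
    exact e4
  refine ⟨D, ⟨?_, ?_, ?_⟩, ?_⟩
  · intro a b
    have ha := hg a
    have hb := hg b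
    have na := hne _ (hQ a)
    have nb := hne _ (hQ b)
    rw [key (a + b) (P a * Q b + P b * Q a) (Q a * Q b) (mul_ne_zero (hQ a) (hQ b)) (by
        rw [eval₂_add, eval₂_mul, eval₂_mul, eval₂_mul, ← ha, ← hb]
        ring),
      key a (P a) (Q a) (hQ a) ha, key b (P b) (Q b) (hQ b) hb]
    simp only [derivative_add, derivative_mul, eval₂_add, eval₂_mul, eval₂_sub]
    field_simp
    ring
  · intro a b
    have ha := hg a
    have hb := hg b
    have na := hne _ (hQ a)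
    have nb := hne _ (hQ b)
    rw [key (a * b) (P a * P b) (Q a * Q b) (mul_ne_zero (hQ a) (hQ b)) (by
        rw [eval₂_mul, eval₂_mul, ← ha, ← hb]
        ring),
      key a (P a) (Q a) (hQ a) ha, key b (P b) (Q b) (hQ b) hb]
    have ea : a = (P a).eval₂ i f / (Q a).eval₂ i f := by
      rw [eq_div_iff na, ha]
    have eb : b = (P b).eval₂ i f / (Q b).eval₂ i f := by
      rw [eq_div_iff nb, hb]
    simp only [derivative_mul, eval₂_add, eval₂_mul, eval₂_sub]
    generalize hA : eval₂ i f (P a) = A at *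
    generalize hB : eval₂ i f (P b) = B at *
    generalize hC : eval₂ i f (Q a) = C' at *
    generalize hE : eval₂ i f (Q b) = E' at *
    rw [ea, eb]
    field_simp
    ring
  · intro c
    rw [key (i c) (C c) 1 one_ne_zero (by simp)]
    simp
  · rw [key f X 1 one_ne_zero (by simp)]
    simp

/-- A root in the maximal ideal. -/
theorem exists_root [IsAlgClosed k] {f : K} {O : Subring K} {M : Set K} (hL : Loc O M)
    (hi : ∀ c, i c ∈ O) (hf : f ∈ O) (n : ℕ) : ∀ P : k[X], P.natDegree = n → P ≠ 0 →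
    P.eval₂ i f ∈ M → ∃ c, f - i c ∈ M := by
  induction n using Nat.strong_induction_on with
  | _ n ih =>
    intro P hn h0 hP
    by_cases hd : P.degree = 0
    · exfalso
      rw [Polynomial.eq_C_of_degree_eq_zero hd, eval₂_C] at hP
      have hc : P.coeff 0 ≠ 0 := by
        intro h
        apply h0
        rw [Polynomial.eq_C_of_degree_eq_zero hd, h, C_0]
      exact hL.const i hi hc hP
    · obtain ⟨c, hc⟩ := IsAlgClosed.exists_root P hd
      obtain ⟨Q, hQ⟩ := Polynomial.dvd_iff_isRoot.mpr hc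
      have hQ0 : Q ≠ 0 := by
        rintro rfl
        exact h0 (by rw [hQ, mul_zero])
      rw [hQ, eval₂_mul, eval₂_sub, eval₂_X, eval₂_C] at hP
      rcases hL.prime (O.sub_mem hf (hi c)) hP with h | h
      · exact ⟨c, h⟩
      · refine ih Q.natDegree ?_ Q rfl hQ0 h
        rw [← hn, hQ, natDegree_mul (X_sub_C_ne_zero c) hQ0, natDegree_X_sub_C]
        omega

/-- Elements with nonzero constant term are units. -/
theorem unit_of {O : Subring K} {M : Set K} (hL : Loc O M) (hi : ∀ c, i c ∈ O) {w : K}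
    (hw : w ∈ M) {B : k[X]} (hB : B.coeff 0 ≠ 0) : B.eval₂ i w ∉ M := by
  intro h
  have h1 : B.eval₂ i w = B.divX.eval₂ i w * w + i (B.coeff 0) := by
    conv_lhs => rw [← Polynomial.divX_mul_X_add B]
    rw [eval₂_add, eval₂_mul, eval₂_X, eval₂_C]
  have h2 : i (B.coeff 0) = B.eval₂ i w + (- B.divX.eval₂ i w) * w := by
    rw [h1]
    ring
  have h3 : i (B.coeff 0) ∈ M := by
    rw [h2]
    exact hL.add _ h _ (hL.mul _ (O.neg_mem (eval_mem i hi (hL.sub w hw) _)) _ hw)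
  exact hL.const i hi hB h3

theorem eval_rev {f : K} (hf : f ≠ 0) (P : k[X]) :
    P.eval₂ i f = P.reverse.eval₂ i f⁻¹ * f ^ P.natDegree := by
  let _ : Invertible f := invertibleOfNonzero hf
  have h := Polynomial.eval₂_reverse_mul_pow i f P
  rw [invOf_eq_inv] at h
  exact h.symm

/-- At the pole. -/
theorem near {D : K → K} (hD : Der i D) {f : K} {O : Subring K} {M : Set K} (hL : Loc O M)
    (hi : ∀ c, i c ∈ O) (hf : f ≠ 0) (hw : f⁻¹ ∈ M) (h1 : D f = 1)
    (hfrac : ∀ g : K, ∃ P Q : k[X], Q ≠ 0 ∧ g * Q.eval₂ i f = P.eval₂ i f)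
    {q : k[X]} (hq : q.natDegree ≤ 2) {g : K} (hg : g ∈ O) : q.eval₂ i f * D g ∈ O := by
  have hwO : f⁻¹ ∈ O := hL.sub _ hw
  have hq2 : q.eval₂ i f * f⁻¹ ^ 2 ∈ O := by
    have e : q.eval₂ i f * f⁻¹ ^ 2 = q.reverse.eval₂ i f⁻¹ * f⁻¹ ^ (2 - q.natDegree) := by
      rw [eval_rev i hf q, mul_assoc]
      congr 1
      obtain ⟨m, hm⟩ := Nat.exists_eq_add_of_le hq
      rw [hm, pow_add, ← mul_assoc, ← mul_pow, mul_inv_cancel₀ hf, one_pow, one_mul,
        Nat.add_sub_cancel_left]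
    rw [e]
    exact O.mul_mem (eval_mem i hi hwO _) (O.pow_mem hwO _)
  -- the representation
  have rep : ∃ A B : k[X], B.coeff 0 ≠ 0 ∧ g * B.eval₂ i f⁻¹ = A.eval₂ i f⁻¹ := by
    obtain ⟨P, Q, hQ, h⟩ := hfrac g
    by_cases hP : P = 0
    · refine ⟨0, Q.reverse, ?_, ?_⟩
      · rw [coeff_zero_reverse]
        exact leadingCoeff_ne_zero.mpr hQ
      · rw [hP, eval₂_zero, eval_rev i hf Q, ← mul_assoc] at h
        rw [eval₂_zero]
        exact (mul_eq_zero.mp h).resolve_right (pow_ne_zero _ hf)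
    rw [eval_rev i hf Q, eval_rev i hf P] at h
    have hQr : Q.reverse.coeff 0 ≠ 0 := by
      rw [coeff_zero_reverse]
      exact leadingCoeff_ne_zero.mpr hQ
    have hPr : P.reverse.coeff 0 ≠ 0 := by
      rw [coeff_zero_reverse]
      exact leadingCoeff_ne_zero.mpr hP
    rcases le_or_gt P.natDegree Q.natDegree with hle | hlt
    · obtain ⟨m, hm⟩ := Nat.exists_eq_add_of_le hle
      refine ⟨P.reverse * X ^ m, Q.reverse, hQr, ?_⟩
      rw [hm, pow_add] at h
      rw [eval₂_mul, eval₂_pow, eval₂_X]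
      have hf1 := pow_ne_zero P.natDegree hf
      have hf2 := pow_ne_zero m hf
      have h3 : g * Q.reverse.eval₂ i f⁻¹ * f ^ m = P.reverse.eval₂ i f⁻¹ := by
        apply mul_right_cancel₀ hf1
        rw [← h]
        ring
      rw [← h3, mul_assoc, mul_assoc, ← mul_pow, mul_inv_cancel₀ hf, one_pow, mul_one]
    · exfalso
      obtain ⟨m, hm⟩ := Nat.exists_eq_add_of_le hlt
      rw [hm, Nat.succ_eq_add_one, add_assoc, pow_add] at h
      have hf1 := pow_ne_zero Q.natDegree hf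
      have h3 : g * Q.reverse.eval₂ i f⁻¹ = P.reverse.eval₂ i f⁻¹ * f ^ (1 + m) := by
        apply mul_right_cancel₀ hf1
        rw [mul_assoc, mul_assoc, h]
        ring
      have h4 : P.reverse.eval₂ i f⁻¹ = (g * Q.reverse.eval₂ i f⁻¹ * f⁻¹ ^ m) * f⁻¹ := by
        rw [h3, mul_assoc, mul_assoc, ← pow_succ, Nat.add_comm m 1, ← mul_pow, mul_inv_cancel₀ hf,
          one_pow, mul_one]
      refine unit_of i hL hi hw hPr ?_
      rw [h4]
      exact hL.mul _ (O.mul_mem (O.mul_mem hg (eval_mem i hi hwO _)) (O.pow_mem hwO _)) _ hw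
  obtain ⟨A, B, hB, h⟩ := rep
  have hBu := unit_of i hL hi hw hB
  have hBi : (B.eval₂ i f⁻¹)⁻¹ ∈ O := hL.inv _ (eval_mem i hi hwO _) hBu
  have hB0 : B.eval₂ i f⁻¹ ≠ 0 := by
    intro h0
    apply hBu
    rw [h0, ← zero_mul f⁻¹]
    exact hL.mul _ O.zero_mem _ hw
  rw [hD.quot hB0 h, hD.chain, hD.chain, hD.inv hf h1]
  have e : q.eval₂ i f * ((A.derivative.eval₂ i f⁻¹ * - f⁻¹ ^ 2 -
      g * (B.derivative.eval₂ i f⁻¹ * - f⁻¹ ^ 2)) * (B.eval₂ i f⁻¹)⁻¹) =
      (q.eval₂ i f * f⁻¹ ^ 2) * ((g * B.derivative.eval₂ i f⁻¹ - A.derivative.eval₂ i f⁻¹) *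
        (B.eval₂ i f⁻¹)⁻¹) := by
    ring
  rw [e]
  exact O.mul_mem hq2 (O.mul_mem (O.sub_mem (O.mul_mem hg (eval_mem i hi hwO _))
    (eval_mem i hi hwO _)) hBi)

end algebra

/-! ### Geometry -/

section geometry

variable {k : Type} [Field k] {E : Scheme.{0}} [IsIntegral E] (π : E ⟶ Sp k)

theorem loc (x : E) : Loc (O x) (Mx x) where
  sub := by
    rintro _ ⟨r, -, rfl⟩
    exact ⟨r, rfl⟩
  add := by
    rintro _ ⟨a, ha, rfl⟩ _ ⟨b, hb, rfl⟩
    exact ⟨a + b, add_mem ha hb, map_add _ _ _⟩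
  mul := by
    rintro _ ⟨a, rfl⟩ _ ⟨b, hb, rfl⟩
    exact ⟨a * b, Ideal.mul_mem_left _ _ hb, map_mul _ _ _⟩
  one := by
    rintro ⟨a, ha, h⟩
    have h1 : a = 1 := by
      apply IsFractionRing.injective (E.presheaf.stalk x) E.functionField
      rw [h, map_one]
    rw [h1, mem_maximalIdeal] at ha
    exact ha isUnit_one
  inv := by
    rintro _ ⟨a, rfl⟩ h
    have h1 : IsUnit a := by
      by_contra h2
      exact h ⟨a, (mem_maximalIdeal a).mpr h2, rfl⟩
    obtain ⟨b, hb⟩ := h1.exists_right_inv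
    refine ⟨b, ?_⟩
    apply eq_inv_of_mul_eq_one_right
    rw [← map_mul, hb, map_one]

theorem kfun_mem (x : E) (c : k) : kfun π c ∈ O x := by
  have hne : Nonempty (⊤ : E.Opens) := ⟨⟨x, trivial⟩⟩
  rw [← germ_kmap π ⊤ c]
  exact germ_mem_O (V := ⊤) x (Set.mem_univ x) _

variable {π} {p : E} {f : E.functionField} (hU : IsAffineOpen (dom f))
  (hdom : ∀ x, x ∈ dom f ↔ x ≠ p)
  (hall : ∀ h : E.functionField, (∀ x, x ≠ p → x ∈ dom h) →
    ∃ P : Polynomial k, h = P.eval₂ (kfun π) f)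

include hdom hall

theorem poly (a : Γ(E, dom f)) :
    ∃ P : Polynomial k, E.germToFunctionField (dom f) a = P.eval₂ (kfun π) f :=
  hall _ fun y hy => germ_mem_O y ((hdom y).mpr hy) a

include hU

theorem rep (x : E) (hx : x ∈ dom f) (g : E.functionField) (hg : g ∈ O x) :
    ∃ A B : Polynomial k, B.eval₂ (kfun π) f ≠ 0 ∧ (B.eval₂ (kfun π) f)⁻¹ ∈ O x ∧
      g * B.eval₂ (kfun π) f = A.eval₂ (kfun π) f := by
  obtain ⟨r, rfl⟩ := hg
  let _ := TopCat.Presheaf.algebra_section_stalk E.presheaf ⟨x, hx⟩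
  have hloc := hU.isLocalization_stalk ⟨x, hx⟩
  obtain ⟨⟨a, b⟩, hab⟩ :=
    IsLocalization.surj (hU.primeIdealOf ⟨x, hx⟩).asIdeal.primeCompl r
  have hb : IsUnit (E.presheaf.germ (dom f) x hx b.1) :=
    IsLocalization.map_units (E.presheaf.stalk x) b
  have hab' : r * E.presheaf.germ (dom f) x hx b.1 = E.presheaf.germ (dom f) x hx a := hab
  obtain ⟨A, hA⟩ := poly hdom hall a
  obtain ⟨B, hB⟩ := poly hdom hall b.1
  refine ⟨A, B, ?_, ?_, ?_⟩
  · rw [← hB, ← Scheme.algebraMap_germ_eq_germToFunctionField (X := E) hx]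
    exact (hb.map (algebraMap (E.presheaf.stalk x) E.functionField)).ne_zero
  · rw [← hB]
    exact inv_mem_O x b.1 ((Scheme.mem_basicOpen E b.1 x hx).mpr hb)
  · rw [← hA, ← hB, ← Scheme.algebraMap_germ_eq_germToFunctionField (X := E) hx,
      ← Scheme.algebraMap_germ_eq_germToFunctionField (X := E) hx, ← hab', map_mul]

theorem exists_c [IsAlgClosed k] (x : E) (hx : x ∈ dom f) (hgen : x ≠ genericPoint E) :
    ∃ c, f - kfun π c ∈ Mx x := by
  have h1 : genericPoint E ∉ closure {x} := by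
    intro h
    have h2 : x ⤳ genericPoint E := specializes_iff_mem_closure.mpr h
    exact hgen (h2.antisymm (genericPoint_specializes x)).eq
  obtain ⟨r, hr, hr'⟩ := hU.exists_basicOpen_le
    (V := (⟨(closure {x})ᶜ, isClosed_closure.isOpen_compl⟩ : E.Opens))
    ⟨genericPoint E, h1⟩ (genericPoint_mem_dom f)
  have hxr : x ∉ E.basicOpen r := fun h => hr h (subset_closure rfl)
  obtain ⟨P, hP⟩ := poly hdom hall r
  have hP0 : P ≠ 0 := by
    rintro rfl
    rw [Polynomial.eval₂_zero] at hP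
    have h2 : r = 0 := E.germToFunctionField_injective (dom f) (by rw [hP, map_zero])
    rw [h2, Scheme.basicOpen_zero] at hr'
    exact hr'
  have hPM : P.eval₂ (kfun π) f ∈ Mx x := by
    rw [← hP]
    refine ⟨E.presheaf.germ (dom f) x hx r, (mem_maximalIdeal _).mpr ?_,
      Scheme.algebraMap_germ_eq_germToFunctionField (X := E) hx r⟩
    intro h
    exact hxr ((Scheme.mem_basicOpen E r x hx).mpr h)
  exact exists_root (kfun π) (loc x) (kfun_mem π x) hx _ P rfl hP0 hPM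

end geometry

end DER_

open Polynomial in
/-- The vector fields `q(f) d/df`. -/
theorem t_DER : Stmt_DER := by
  intro k _ _ E π _ _ p hp hpg f hT hU hdom hw hall S hS hcard hpS hSg
  have hf0 : f ≠ 0 := hT.ne_zero π
  have hinj : ∀ P : k[X], P.eval₂ (kfun π) f = 0 → P = 0 := fun P h => hT (by
    rw [coe_eval₂RingHom, h, eval₂_zero])
  have hfrac : ∀ g : E.functionField, ∃ P Q : k[X], Q ≠ 0 ∧
      g * Q.eval₂ (kfun π) f = P.eval₂ (kfun π) f := by
    intro g
    obtain ⟨A, B, h1, -, h2⟩ := DER_.rep hU hdom hall (genericPoint E) (genericPoint_mem_dom f)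
      g (genericPoint_mem_dom g)
    refine ⟨A, B, ?_, h2⟩
    rintro rfl
    exact h1 (eval₂_zero _ _)
  obtain ⟨D, hD, h1⟩ := DER_.exists_der (kfun π) hinj hfrac
  have hSd : ∀ x : S, (x : E) ∈ dom f := fun x => (hdom _).mpr (by
    rintro h
    exact hpS (h ▸ x.2))
  have hc : ∀ x : S, ∃ c, f - kfun π c ∈ Mx (x : E) := fun x =>
    DER_.exists_c hU hdom hall x.1 (hSd x) (hSg _ x.2)
  choose c hc using hc
  have hfin : Fintype S := hS.fintype
  let q : k[X] := ∏ x : S, (X - C (c x))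
  have hq : q.natDegree ≤ 2 := by
    rw [natDegree_finsetProd_X_sub_C_eq_card, Finset.card_univ, ← Nat.card_eq_fintype_card,
      Nat.card_coe_set_eq]
    exact hcard
  have hq0 : q ≠ 0 := Finset.prod_ne_zero_iff.mpr fun x _ => X_sub_C_ne_zero _
  have hqe : q.eval₂ (kfun π) f ≠ 0 := fun h => hq0 (hinj q h)
  have hqO : ∀ x : E, x ≠ p → q.eval₂ (kfun π) f ∈ O x := fun x hx =>
    DER_.eval_mem (kfun π) (DER_.kfun_mem π x) ((hdom x).mpr hx) q
  have hqM : ∀ x ∈ S, q.eval₂ (kfun π) f ∈ Mx x := by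
    classical
    intro x hx
    have e : q = (∏ y ∈ Finset.univ.erase (⟨x, hx⟩ : S), (X - C (c y))) *
        (X - C (c ⟨x, hx⟩)) := (Finset.prod_erase_mul _ _ (Finset.mem_univ _)).symm
    rw [e, eval₂_mul, eval₂_sub, eval₂_X, eval₂_C]
    exact (DER_.loc x).mul _ (DER_.eval_mem (kfun π) (DER_.kfun_mem π x) (hSd ⟨x, hx⟩) _) _
      (hc ⟨x, hx⟩)
  have hfar : ∀ x : E, x ≠ p → ∀ g ∈ O x, q.eval₂ (kfun π) f * D g ∈ O x ∧
      (q.eval₂ (kfun π) f ∈ Mx x → q.eval₂ (kfun π) f * D g ∈ Mx x) := by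
    intro x hx g hg
    obtain ⟨A, B, h2, h3, h4⟩ := DER_.rep hU hdom hall x ((hdom x).mpr hx) g hg
    exact DER_.far hD (DER_.loc x) (DER_.kfun_mem π x) ((hdom x).mpr hx) h1 (hqO x hx) hg h2 h3 h4
  refine ⟨fun g => q.eval₂ (kfun π) f * D g, ⟨?_, ?_, ?_, ?_⟩, ⟨f, ?_⟩, ?_⟩
  · intro a b
    rw [hD.add, mul_add]
  · intro a b
    rw [hD.mul]
    ring
  · intro a
    rw [hD.const, mul_zero]
  · intro x g hg
    by_cases hx : x = p
    · subst hx
      exact DER_.near (kfun π) hD (DER_.loc x) (DER_.kfun_mem π x) hf0 hw h1 hfrac hq hg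
    · exact (hfar x hx g hg).1
  · change q.eval₂ (kfun π) f * D f ≠ 0
    rw [h1, mul_one]
    exact hqe
  · intro x hx g hg
    exact (hfar x (fun h => hpS (h ▸ hx)) g hg).2 (hqM x hx)

end Pool.Agent.MG.WL.CL
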