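import Pool.Agent.MG.WL.CL.StmtsC

/-!
# DFIN: the points on two components
-/

open CategoryTheory AlgebraicGeometry IsLocalRing TopologicalSpace

namespace Pool.Agent.MG.WL.CL

namespace DFIN_

variable {X : Scheme.{0}}

/-- The generic point of an irreducible component. -/
theorem exists_gen {Z : Set X} (hZ : Z ∈ irreducibleComponents X) :
    ∃ η : X, Gen η ∧ closure {η} = Z := by
  have hcl := isClosed_of_mem_irreducibleComponents Z hZ
  have hg := hZ.1.isGenericPoint_genericPoint hcl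
  refine ⟨hZ.1.genericPoint, ?_, hg⟩
  intro y hy
  have h1 : Z ⊆ closure {y} := by
    rw [← hg]
    exact closure_minimal (Set.singleton_subset_iff.2 (specializes_iff_mem_closure.1 hy))
      isClosed_closure
  have h2 : closure {y} ⊆ Z := hZ.2 isIrreducible_singleton.closure h1
  have h3 : hZ.1.genericPoint ⤳ y := by
    rw [specializes_iff_mem_closure, hg]
    exact h2 (subset_closure rfl)
  exact (hy.antisymm h3).eq

/-- The data of a point on two components. -/
theorem dbl_gen {x : X} (hx : x ∈ dbl X) :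
    ∃ η η' : X, Gen η ∧ Gen η' ∧ η ⤳ x ∧ η' ⤳ x ∧ η ≠ η' := by
  obtain ⟨Z, hZ, Z', hZ', hne, h1, h2⟩ := hx
  obtain ⟨η, hη, rfl⟩ := exists_gen hZ
  obtain ⟨η', hη', rfl⟩ := exists_gen hZ'
  refine ⟨η, η', hη, hη', specializes_iff_mem_closure.2 h1, specializes_iff_mem_closure.2 h2, ?_⟩
  rintro rfl
  exact hne rfl

/-- A finite union of closed sets. -/
theorem isClosed_dbl [NoetherianSpace X] : IsClosed (dbl X) := by
  have hf : (irreducibleComponents X).Finite := NoetherianSpace.finite_irreducibleComponents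
  have h : dbl X = ⋃ Z ∈ irreducibleComponents X, ⋃ Z' ∈ irreducibleComponents X,
      {x | Z ≠ Z' ∧ x ∈ Z ∧ x ∈ Z'} := by
    ext x
    simp only [dbl, Set.mem_iUnion, Set.mem_ofPred_eq, exists_prop]
  rw [h]
  refine hf.isClosed_biUnion fun Z hZ => hf.isClosed_biUnion fun Z' hZ' => ?_
  by_cases hne : Z = Z'
  · have : {x : X | Z ≠ Z' ∧ x ∈ Z ∧ x ∈ Z'} = ∅ := by
      ext x
      simp [hne]
    rw [this]
    exact isClosed_empty
  · have : {x : X | Z ≠ Z' ∧ x ∈ Z ∧ x ∈ Z'} = Z ∩ Z' := by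
      ext x
      simp [hne]
    rw [this]
    exact (isClosed_of_mem_irreducibleComponents Z hZ).inter
      (isClosed_of_mem_irreducibleComponents Z' hZ')

/-- A closed set all of whose points are closed is finite. -/
theorem finite_of_closed [NoetherianSpace X] {C : Set X} (hC : IsClosed C)
    (h : ∀ x ∈ C, IsClosed {x}) : C.Finite := by
  obtain ⟨S, hf, hcl, hirr, hS⟩ := NoetherianSpace.exists_finite_set_isClosed_irreducible hC
  rw [hS]
  refine hf.sUnion fun t ht => ?_
  obtain ⟨g, hg⟩ : ∃ g : X, closure {g} = t :=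
    ⟨_, (hirr t ht).isGenericPoint_genericPoint (hcl t ht)⟩
  have h1 : g ∈ t := by
    rw [← hg]
    exact subset_closure rfl
  have h2 : IsClosed {g} := h _ (by rw [hS]; exact ⟨t, ht, h1⟩)
  rw [← hg, h2.closure_eq]
  exact Set.finite_singleton _

end DFIN_

open DFIN_ in
theorem t_DFIN (hG : Stmt_GSP) (hM : Stmt_MPC) : Stmt_DFIN := by
  intro X _ hN
  have hst : ∀ x : X, _root_.IsReduced (X.presheaf.stalk x) := fun x => (hN x).red
  have hred : IsReduced X := isReduced_of_isReduced_stalk X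
  have hclosed : ∀ x ∈ dbl X, IsClosed {x} := by
    intro x hx
    obtain ⟨η, η', hη, hη', h1, h2, hne⟩ := dbl_gen hx
    have key : ∀ y : X, x ⤳ y → y = x := by
      intro y hy
      obtain ⟨-, g2, g3⟩ := hG y
      have hP : ((maximalIdeal (X.presheaf.stalk x)).comap
          (X.presheaf.stalkSpecializes hy).hom).IsPrime := Ideal.comap_isPrime _ _
      rcases (hN y).dim _ hP with hmin | hmax
      · exfalso
        -- a generic point gives a smaller prime
        have h3 := (g2 η x (h1.trans hy) hy).2 h1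
        have hQ : ((maximalIdeal (X.presheaf.stalk η)).comap
          (X.presheaf.stalkSpecializes (h1.trans hy)).hom).IsPrime := Ideal.comap_isPrime _ _
        have h4 := hmin.2 ⟨hQ, bot_le⟩ h3
        have h5 : x ⤳ η := (g2 x η hy (h1.trans hy)).1 h4
        have h6 : x = η := (h5.antisymm h1).eq
        rw [h6] at h2
        exact hne (hη η' h2).symm
      · have h3 : y ⤳ x := by
          apply (g2 y x (specializes_refl y) hy).1
          rw [g3 (specializes_refl y), hmax]
        exact (h3.antisymm hy).eq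
    rw [← closure_subset_iff_isClosed]
    intro y hy
    exact key y (specializes_iff_mem_closure.2 hy)
  refine ⟨finite_of_closed isClosed_dbl hclosed, hclosed, ?_, ?_⟩
  · intro x hx hdom
    obtain ⟨η, η', hη, hη', h1, h2, hne⟩ := dbl_gen hx
    obtain ⟨m1, m2, -⟩ := hM x
    have h3 := m1 η h1 hη
    have h4 := m1 η' h2 hη'
    rw [IsDomain.minimalPrimes_eq_singleton_bot, Set.mem_singleton_iff] at h3 h4
    exact hne (m2 η η' h1 h2 hη hη' (by rw [h3, h4]))
  · intro Z₁ hZ₁ Z₂ hZ₂ hne Z₃ hZ₃ x hx₁ hx₂ hx₃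
    obtain ⟨η₁, hη₁, rfl⟩ := exists_gen hZ₁
    obtain ⟨η₂, hη₂, rfl⟩ := exists_gen hZ₂
    obtain ⟨η₃, hη₃, rfl⟩ := exists_gen hZ₃
    have s₁ := specializes_iff_mem_closure.2 hx₁
    have s₂ := specializes_iff_mem_closure.2 hx₂
    have s₃ := specializes_iff_mem_closure.2 hx₃
    obtain ⟨m1, m2, -⟩ := hM x
    have hk : RingHom.ker (X.presheaf.stalkSpecializes s₁).hom ≠
        RingHom.ker (X.presheaf.stalkSpecializes s₂).hom := by
      intro h
      exact hne (by rw [m2 η₁ η₂ s₁ s₂ hη₁ hη₂ h])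
    rcases (hN x).two _ (m1 η₁ s₁ hη₁) _ (m1 η₂ s₂ hη₂) hk _ (m1 η₃ s₃ hη₃) with h | h
    · left
      rw [m2 η₃ η₁ s₃ s₁ hη₃ hη₁ h]
    · right
      rw [m2 η₃ η₂ s₃ s₂ hη₃ hη₂ h]

end Pool.Agent.MG.WL.CL
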