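import Pool.Agent.MG.WL.CL.StmtsC

/-!
# EXT: extension by zero of a vector field from a component
-/

open CategoryTheory AlgebraicGeometry IsLocalRing TopologicalSpace
open Pool.Agent.MG.Two Pool.Agent.MG.W Pool.Agent.MG.W.W0 Pool.Agent.MG.One

namespace Pool.Agent.MG.WL.CL

namespace EXT_

variable {E X : Scheme.{0}}

theorem app_coef {k : Type} [Field k] (π : X ⟶ Sp k) (ι : E ⟶ X) (U : X.Opens) (c : k) :
    (ι.app U).hom (coef π U c) = coef (ι ≫ π) (ι ⁻¹ᵁ U) c := by
  have h := coef_comp π ι U (ι ⁻¹ᵁ U) le_rfl c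
  rw [Scheme.Hom.appLE_eq_app] at h
  exact h

section gen

variable {ι : E ⟶ X} [IsIntegral E]

/-- The image of the generic point. -/
theorem range_le (ι : E ⟶ X) : Set.range ι ⊆ closure {ι (genericPoint E)} := by
  rintro _ ⟨z, rfl⟩
  have h1 : genericPoint E ⤳ z := (genericPoint_spec E).specializes trivial
  exact specializes_iff_mem_closure.1 (h1.map ι.continuous)

theorem gen_gen (h : IsComp ι) : Gen (ι (genericPoint E)) := by
  intro y hy
  have h2 : ι (genericPoint E) ∈ closure {y} := specializes_iff_mem_closure.1 hy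
  have h3 : Set.range ι ⊆ closure {y} := (range_le ι).trans
    (closure_minimal (Set.singleton_subset_iff.2 h2) isClosed_closure)
  have h4 : closure {y} ⊆ Set.range ι := h.range.2 isIrreducible_singleton.closure h3
  have h5 : y ∈ closure {ι (genericPoint E)} := range_le ι (h4 (subset_closure rfl))
  exact (hy.antisymm (specializes_iff_mem_closure.2 h5)).eq

theorem exists_pt (h : IsComp ι) {x : X} (hx : ι (genericPoint E) ⤳ x) : ∃ y : E, ι y = x := by
  have hcl := h.cl
  have h1 : IsClosed (Set.range ι) := ι.isClosedEmbedding.isClosed_range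
  have h2 : closure {ι (genericPoint E)} ⊆ Set.range ι :=
    closure_minimal (Set.singleton_subset_iff.2 ⟨_, rfl⟩) h1
  exact h2 (specializes_iff_mem_closure.1 hx)

theorem bij (hM : Stmt_MPC) [IsReduced X] (h : IsComp ι) :
    Function.Bijective (ι.stalkMap (genericPoint E)).hom := by
  have hcl := h.cl
  refine ⟨?_, ι.stalkMap_surjective (genericPoint E)⟩
  have h1 := (hM (ι (genericPoint E))).1 _ (specializes_refl _) (gen_gen h)
  have h2 : RingHom.ker (X.presheaf.stalkSpecializes
      (specializes_refl (ι (genericPoint E)))).hom = ⊥ := by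
    rw [TopCat.Presheaf.stalkSpecializes_refl]
    ext z
    rfl
  rw [h2] at h1
  have h3 := h.ker_min (genericPoint E)
  have h4 : RingHom.ker (ι.stalkMap (genericPoint E)).hom = ⊥ := by
    rw [eq_bot_iff]
    exact h3.2 ⟨h1.1.1, bot_le⟩ bot_le
  exact (RingHom.injective_iff_ker_eq_bot _).2 h4

/-- The local ring at the generic point is the function field. -/
noncomputable def φ (hM : Stmt_MPC) [IsReduced X] (h : IsComp ι) :
    X.presheaf.stalk (ι (genericPoint E)) ≃+* E.functionField :=
  RingEquiv.ofBijective (ι.stalkMap (genericPoint E)).hom (bij hM h)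

theorem φ_spec (hM : Stmt_MPC) [IsReduced X] (h : IsComp ι) (y : E)
    (hy : ι (genericPoint E) ⤳ ι y) (g : X.presheaf.stalk (ι y)) :
    φ hM h (X.presheaf.stalkSpecializes hy g) =
      algebraMap (E.presheaf.stalk y) E.functionField (ι.stalkMap y g) :=
  Scheme.Hom.stalkSpecializes_stalkMap_apply ι (genericPoint E) y
    ((genericPoint_spec E).specializes trivial) g

theorem φ_germ (hM : Stmt_MPC) [IsReduced X] (h : IsComp ι) (U : X.Opens)
    (hU : ι (genericPoint E) ∈ U) (a : Γ(X, U)) :
    φ hM h (X.presheaf.germ U _ hU a) =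
      E.presheaf.germ (ι ⁻¹ᵁ U) (genericPoint E) hU (ι.app U a) :=
  Scheme.Hom.germ_stalkMap_apply ι U (genericPoint E) hU a

end gen

theorem gen_comp {y : X} (hy : Gen y) : closure {y} ∈ irreducibleComponents X := by
  refine ⟨isIrreducible_singleton.closure, ?_⟩
  intro Z hZ hle
  have hZ' : IsIrreducible (closure Z) := hZ.closure
  have hg := hZ'.isGenericPoint_genericPoint isClosed_closure
  have h1 : y ∈ closure Z := subset_closure (hle (subset_closure rfl))
  have h2 : hZ'.genericPoint ⤳ y := by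
    rw [specializes_iff_mem_closure, hg.def]
    exact h1
  have h3 := hy _ h2
  intro z hz
  have h4 : z ∈ closure Z := subset_closure hz
  rw [← hg.def, h3] at h4
  exact h4

theorem mem_dbl {y y' x : X} (hy : Gen y) (hy' : Gen y') (hne : y ≠ y') (h : y ⤳ x)
    (h' : y' ⤳ x) : x ∈ dbl X := by
  refine ⟨_, gen_comp hy, _, gen_comp hy', ?_, specializes_iff_mem_closure.1 h,
    specializes_iff_mem_closure.1 h'⟩
  intro he
  apply hne
  have h1 : y ∈ closure {y'} := he ▸ subset_closure rfl
  exact (hy _ (specializes_iff_mem_closure.2 h1)).symm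

/-- The section of a point of the spectrum of a field. -/
theorem sec_zero {k : Type} [Field k] (σ : Sp k ⟶ X) (U : X.Opens) (s : Γ(X, U))
    (h : ∀ (q : Sp k) (hq : σ q ∈ U), X.presheaf.germ U (σ q) hq s ∈ maximalIdeal _) :
    (σ.app U).hom s = 0 := by
  have hr : IsReduced (Sp k) := by
    unfold Sp
    infer_instance
  apply eq_zero_of_basicOpen_eq_bot
  rw [← Scheme.preimage_basicOpen]
  rw [eq_bot_iff]
  intro q hq
  have h1 : σ q ∈ X.basicOpen s := hq
  have h2 : σ q ∈ U := X.basicOpen_le s h1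
  rw [Scheme.mem_basicOpen X s _ h2] at h1
  exact ((mem_maximalIdeal _).1 (h q h2) h1).elim

end EXT_

open EXT_ in
theorem t_EXT (hU : Stmt_UNQ) (_hG : Stmt_GSP) (hM : Stmt_MPC) (hV : Stmt_VF) : Stmt_EXT := by
  intro k _ _ C hprop hnod hL q E ι h _ δ hδ hd hq hf
  have hst : ∀ x : C.X, _root_.IsReduced (C.X.presheaf.stalk x) := fun x => (hL x).red
  have hred : IsReduced C.X := isReduced_of_isReduced_stalk C.X
  have hnoe : NoetherianSpace C.X := by
    have h1 : IsLocallyNoetherian C.X := LocallyOfFiniteType.isLocallyNoetherian C.π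
    have h2 : CompactSpace C.X := QuasiCompact.compactSpace_of_compactSpace C.π
    have h3 : IsNoetherian C.X := {}
    infer_instance
  have hcl := h.cl
  set η : C.X := ι (genericPoint E) with hη
  have hgen : Gen η := gen_gen h
  let e := φ hM h
  let D : C.X.presheaf.stalk η → C.X.presheaf.stalk η := fun g => e.symm (δ (e g))
  have heD : ∀ g, e (D g) = δ (e g) := fun g => e.apply_symm_apply _
  have hlift : ∀ (x : C.X) (hx : η ⤳ x) (g : C.X.presheaf.stalk x), ∃ g' : C.X.presheaf.stalk x,
      C.X.presheaf.stalkSpecializes hx g' = D (C.X.presheaf.stalkSpecializes hx g) ∧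
      ∀ (y : C.X) (hy : y ⤳ x), Gen y → y ≠ η → C.X.presheaf.stalkSpecializes hy g' = 0 := by
    intro x hx g
    obtain ⟨y, rfl⟩ := exists_pt h hx
    have hOg : algebraMap (E.presheaf.stalk y) E.functionField (ι.stalkMap y g) ∈ O y := ⟨_, rfl⟩
    have hkey : ∀ (g' : C.X.presheaf.stalk (ι y)),
        algebraMap (E.presheaf.stalk y) E.functionField (ι.stalkMap y g') =
          δ (algebraMap (E.presheaf.stalk y) E.functionField (ι.stalkMap y g)) →
        C.X.presheaf.stalkSpecializes hx g' = D (C.X.presheaf.stalkSpecializes hx g) := by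
      intro g' hg'
      apply e.injective
      rw [heD]
      have h1 := φ_spec hM h y hx g'
      have h2 := φ_spec hM h y hx g
      rw [show e = φ hM h from rfl, h1, h2, hg']
    by_cases hex : ∃ (y' : C.X), ∃ (_ : y' ⤳ ι y), Gen y' ∧ y' ≠ η
    · obtain ⟨y', hy', hg', hne⟩ := hex
      have hdb : ι y ∈ dbl C.X := mem_dbl hgen hg' (Ne.symm hne) hx hy'
      obtain ⟨a, ha, haδ⟩ := hd y hdb _ hOg
      obtain ⟨m, hm⟩ := ι.stalkMap_surjective y a
      have hmm : m ∈ maximalIdeal (C.X.presheaf.stalk (ι y)) := by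
        rw [mem_maximalIdeal, mem_nonunits_iff]
        intro hu
        rw [mem_maximalIdeal, mem_nonunits_iff] at ha
        apply ha
        rw [← hm]
        exact hu.map (ι.stalkMap y).hom
      obtain ⟨m1, m2, -⟩ := hM (ι y)
      have hP1 := m1 η hx hgen
      have hP2 := m1 y' hy' hg'
      have hP12 : RingHom.ker (C.X.presheaf.stalkSpecializes hx).hom ≠
          RingHom.ker (C.X.presheaf.stalkSpecializes hy').hom := fun he =>
        hne (m2 η y' hx hy' hgen hg' he).symm
      have hsum := (hL (ι y)).sum _ hP1 _ hP2 hP12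
      rw [← hsum, Submodule.mem_sup] at hmm
      obtain ⟨p1, hp1, p2, hp2, hp⟩ := hmm
      have hp1' : C.X.presheaf.stalkSpecializes hx p1 = 0 := hp1
      have hp2' : C.X.presheaf.stalkSpecializes hy' p2 = 0 := hp2
      refine ⟨p2, ?_, ?_⟩
      · have h1 : C.X.presheaf.stalkSpecializes hx m = C.X.presheaf.stalkSpecializes hx p2 := by
          rw [← hp, map_add, hp1', zero_add]
        rw [← h1]
        apply hkey
        rw [← haδ]
        exact congrArg _ hm
      · intro y'' hy'' hg'' hne''
        have hP3 := m1 y'' hy'' hg''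
        rcases (hL (ι y)).two _ hP1 _ hP2 hP12 _ hP3 with h3 | h3
        · exact (hne'' (m2 y'' η hy'' hx hg'' hgen h3)).elim
        · have h4 : p2 ∈ RingHom.ker (C.X.presheaf.stalkSpecializes hy'').hom := by
            rw [h3]
            exact hp2
          exact h4
    · obtain ⟨a, ha⟩ := hδ.reg y _ hOg
      obtain ⟨g', hg'⟩ := ι.stalkMap_surjective y a
      refine ⟨g', hkey g' ?_, ?_⟩
      · rw [← ha]
        exact congrArg _ hg'
      · intro y' hy' hgy hne
        exact (hex ⟨y', hy', hgy, hne⟩).elim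
  obtain ⟨F, hF1, hF2, hF3, hF4⟩ := hV η hgen D hlift
  have hD0 : ∀ a b, D (a + b) = D a + D b := by
    intro a b
    apply e.injective
    rw [map_add, heD, heD, heD, map_add, hδ.add]
  have hDm : ∀ a b, D (a * b) = a * D b + b * D a := by
    intro a b
    apply e.injective
    rw [map_add, map_mul, map_mul, heD, heD, heD, map_mul, hδ.mul]
  have hadd : ∀ (U : C.X.Opens) (a b : Γ(C.X, U)), F U (a + b) = F U a + F U b := by
    intro U a b
    refine hU U _ _ fun y hy hgy => ?_
    by_cases hne : y = η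
    · subst hne
      rw [hF1 U hy, map_add, map_add, hF1 U hy, hF1 U hy, hD0]
    · rw [hF2 U y hy hgy hne, map_add, hF2 U y hy hgy hne, hF2 U y hy hgy hne, add_zero]
  have hmul : ∀ (U : C.X.Opens) (a b : Γ(C.X, U)), F U (a * b) = a * F U b + b * F U a := by
    intro U a b
    refine hU U _ _ fun y hy hgy => ?_
    by_cases hne : y = η
    · subst hne
      rw [hF1 U hy, map_add, map_mul, map_mul, map_mul, hF1 U hy, hF1 U hy, hDm]
    · rw [hF2 U y hy hgy hne, map_add, map_mul, map_mul, hF2 U y hy hgy hne,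
        hF2 U y hy hgy hne, mul_zero, mul_zero, add_zero]
  have hconst : ∀ (U : C.X.Opens) (c : k), F U (coef C.π U c) = 0 := by
    intro U c
    refine hU U _ _ fun y hy hgy => ?_
    rw [map_zero]
    by_cases hne : y = η
    · subst hne
      rw [hF1 U hy]
      apply e.injective
      rw [heD, map_zero]
      have h1 := φ_germ hM h U hy (coef C.π U c)
      have h2 := app_coef C.π ι U c
      have hne' : Nonempty (ι ⁻¹ᵁ U) := ⟨⟨genericPoint E, hy⟩⟩
      have h3 := germ_coef (π := ι ≫ C.π) (ι ⁻¹ᵁ U) c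
      have h4 : e (C.X.presheaf.germ U η hy (coef C.π U c)) = kfun (ι ≫ C.π) c := by
        rw [← h3]
        refine h1.trans ?_
        exact congrArg _ h2
      rw [h4]
      exact hδ.const c
    · exact hF2 U y hy hgy hne _
  have hres : ∀ (U V : C.X.Opens) (hUV : U ≤ V) (a : Γ(C.X, V)),
      F U (C.X.presheaf.map (homOfLE hUV).op a) = C.X.presheaf.map (homOfLE hUV).op (F V a) := by
    intro U V hUV a
    refine hU U _ _ fun y hy hgy => ?_
    have h1 : ∀ s : Γ(C.X, V), C.X.presheaf.germ U y hy (C.X.presheaf.map (homOfLE hUV).op s) =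
        C.X.presheaf.germ V y (hUV hy) s := fun s =>
      C.X.presheaf.germ_res_apply (homOfLE hUV) y hy s
    rw [h1]
    by_cases hne : y = η
    · subst hne
      rw [hF1 U hy, hF1 V (hUV hy), h1]
    · rw [hF2 U y hy hgy hne, hF2 V y (hUV hy) hgy hne]
  have hsec : ∀ (U : C.X.Opens) (i : Fin 1) (a : Γ(C.X, U)), (C.σ i).app U (F U a) = 0 := by
    intro U i a
    refine sec_zero (C.σ i) U (F U a) fun q' hq' => ?_
    have hi : i = 0 := Subsingleton.elim _ _
    subst hi
    have hqq : q' = q := Subsingleton.elim _ _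
    subst hqq
    by_cases hsp : η ⤳ C.σ 0 q'
    · obtain ⟨g', hg1, hg2⟩ := hlift _ hsp (C.X.presheaf.germ U _ hq' a)
      rw [hF4 U _ hq' a hsp g' hg1 hg2]
      obtain ⟨y, hy⟩ := exists_pt h hsp
      rw [mem_maximalIdeal, mem_nonunits_iff]
      intro hu
      generalize hx : C.σ 0 q' = x at *
      subst hy
      have h1 := φ_spec hM h y hsp g'
      have h2 := φ_spec hM h y hsp (C.X.presheaf.germ U _ hq' a)
      have h3 : algebraMap (E.presheaf.stalk y) E.functionField (ι.stalkMap y g') =
          δ (algebraMap (E.presheaf.stalk y) E.functionField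
            (ι.stalkMap y (C.X.presheaf.germ U _ hq' a))) := by
        rw [← h1, ← h2, hg1]
        exact heD _
      obtain ⟨b, hb, hb'⟩ := hq y rfl _ ⟨_, rfl⟩
      rw [← h3] at hb'
      have h4 := IsFractionRing.injective (E.presheaf.stalk y) E.functionField hb'
      rw [h4, mem_maximalIdeal, mem_nonunits_iff] at hb
      exact hb (hu.map (ι.stalkMap y).hom)
    · rw [hF3 U _ hq' a hsp]
      exact zero_mem _
  obtain ⟨f, hf⟩ := hf
  obtain ⟨U, hηU, a, ha⟩ := C.X.presheaf.exists_germ_eq (e.symm f)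
  refine ⟨⟨fun U => AddMonoidHom.mk' (F U) (hadd U), hmul, hconst, hres, hsec⟩, U, fun h0 => ?_⟩
  have h1 : F U a = 0 := DFunLike.congr_fun h0 a
  have h2 := hF1 U hηU a
  rw [h1, map_zero, ha] at h2
  apply hf
  have h3 : e (D (e.symm f)) = 0 := by rw [← h2, map_zero]
  rw [heD, e.apply_symm_apply] at h3
  exact h3

end Pool.Agent.MG.WL.CL
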