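import Pool.Agent.MG.WL.CL.StmtsC

/-!
# `FIN`: domains of rational functions on curves are affine

`Two.phi_existence`, `Two.locallyQuasiFinite_of_injective` and `Two.isFinite_phi` with weaker
hypotheses: dimension at most one and `x ∈ dom f ∨ x ∈ dom f⁻¹` for all points `x`.
-/

open CategoryTheory AlgebraicGeometry IsLocalRing TopologicalSpace
open Pool.Agent.MG.Two Pool.Agent.MG.W Pool.Agent.MG.W.W0 Pool.Agent.MG.One

namespace Pool.Agent.MG.WL.CL

namespace FIN_

open Polynomial

variable {X : Scheme.{0}} [IsIntegral X] {k : Type} [Field k] (π : X ⟶ Sp k)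

lemma forall_mem_dom (f : X.functionField) (hv : ∀ x, x ∈ dom f ∨ x ∈ dom f⁻¹)
    (hf : f ≠ 0) {R : Type} [CommRing R] [IsLocalRing R] {K : Type} [Field K] [Algebra R K]
    (hinj : Function.Injective (algebraMap R K))
    (l : Spec (.of R) ⟶ X) (i₁ : Spec (.of K) ⟶ (dom f).toScheme)
    (i₂ : Spec (.of R) ⟶ Spec (.of (Polynomial k)))
    (h1 : Spec.map (CommRingCat.ofHom (algebraMap R K)) ≫ l = i₁ ≫ (dom f).ι)
    (h2 : i₁ ≫ phi π f = Spec.map (CommRingCat.ofHom (algebraMap R K)) ≫ i₂)
    (y : Spec (.of R)) : l y ∈ dom f := by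
  apply forall_mem_of_closedPoint_mem
  rcases hv (l (closedPoint R)) with hx | hx
  · exact hx
  set j : Spec (.of K) ⟶ Spec (.of R) := Spec.map (CommRingCat.ofHom (algebraMap R K)) with hj
  have hV2 : (⊤ : (Spec (.of R)).Opens) ≤ l ⁻¹ᵁ (dom f⁻¹) := fun y _ =>
    forall_mem_of_closedPoint_mem l _ hx y
  have hjV2 : (⊤ : (Spec (.of K)).Opens) ≤ (j ≫ l) ⁻¹ᵁ (dom f⁻¹) := fun y _ => by
    rw [Scheme.Hom.comp_preimage]
    exact hV2 trivial
  have hjV2' : (⊤ : (Spec (.of K)).Opens) ≤ (i₁ ≫ (dom f).ι) ⁻¹ᵁ (dom f⁻¹) := h1 ▸ hjV2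
  have hV1' : (⊤ : (Spec (.of K)).Opens) ≤ (i₁ ≫ (dom f).ι) ⁻¹ᵁ (dom f) := by
    rw [Scheme.Hom.comp_preimage, Scheme.Opens.ι_preimage_self]; exact le_pre_top i₁ ⊤
  set b := pb l f⁻¹ ⊤ hV2 with hb
  set a := i₂.appTop ((Scheme.ΓSpecIso (.of (Polynomial k))).inv Polynomial.X) with ha
  have hja : j.appTop a = pb (i₁ ≫ (dom f).ι) f ⊤ hV1' := by
    rw [← comp_phi_X π f i₁, h2, ha, Scheme.Hom.comp_appTop]
    rfl
  have hjb : j.appTop b = pb (i₁ ≫ (dom f).ι) f⁻¹ ⊤ hjV2' := by
    rw [hb, pb_comp j l f⁻¹ hV2 hjV2]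
    exact pb_congr h1 _ _ _ _
  have hab : a * b = 1 := by
    have hinj' : Function.Injective j.appTop := by
      have e1 := Scheme.ΓSpecIso_inv_naturality (CommRingCat.ofHom (algebraMap R K))
      have e2 : j.appTop = (Scheme.ΓSpecIso (.of R)).hom ≫ CommRingCat.ofHom (algebraMap R K) ≫
          (Scheme.ΓSpecIso (.of K)).inv := by
        rw [e1, Iso.hom_inv_id_assoc]
      rw [e2]
      intro x y hxy
      have h3 : (Scheme.ΓSpecIso (.of K)).inv (algebraMap R K ((Scheme.ΓSpecIso (.of R)).hom x)) =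
        (Scheme.ΓSpecIso (.of K)).inv (algebraMap R K ((Scheme.ΓSpecIso (.of R)).hom y)) := hxy
      have h4 := (ConcreteCategory.bijective_of_isIso (Scheme.ΓSpecIso (.of K)).inv).1 h3
      exact (ConcreteCategory.bijective_of_isIso (Scheme.ΓSpecIso (.of R)).hom).1 (hinj h4)
    apply hinj'
    rw [map_mul, hja, hjb, map_one]
    exact pb_mul_inv _ f hf _ _ _
  have hu : IsUnit b := IsUnit.of_mul_eq_one_right a hab
  have hbo := Scheme.basicOpen_appLE l ⊤ (dom f⁻¹) hV2 (sec f⁻¹)
  have hbo' : (Spec (.of R)).basicOpen b = ⊤ := by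
    simpa using Scheme.basicOpen_of_isUnit _ hu
  have hmem : closedPoint R ∈ (Spec (.of R)).basicOpen b := by
    rw [hbo']; trivial
  rw [hb, pb, hbo] at hmem
  have hmem2 : l (closedPoint R) ∈ X.basicOpen (sec f⁻¹) := hmem.2
  have hmem3 := (Scheme.mem_basicOpen X (sec f⁻¹) _ hx).mp hmem2
  exact mem_dom_of_isUnit f _ hx hmem3

theorem phi_existence (f : X.functionField) (hv : ∀ x, x ∈ dom f ∨ x ∈ dom f⁻¹)
    (hf : f ≠ 0) [UniversallyClosed π] : ValuativeCriterion.Existence (phi π f) := by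
  have hπ : ValuativeCriterion.Existence π := by
    have : (@UniversallyClosed) π := inferInstance
    rw [UniversallyClosed.eq_valuativeCriterion] at this
    exact this.1
  intro S
  have hsq : CommSq (S.i₁ ≫ (dom f).ι) (Spec.map (CommRingCat.ofHom (algebraMap S.R S.K))) π
      (S.i₂ ≫ Spec.map (CommRingCat.ofHom (Polynomial.C : k →+* Polynomial k))) := ⟨by
    rw [Category.assoc, ← phi_comp, ← Category.assoc, S.commSq.w, Category.assoc]⟩
  obtain ⟨⟨l, hl1, hl2⟩⟩ := hπ { R := S.R, K := S.K, commSq := hsq, .. }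
  have hmem := forall_mem_dom π f hv hf (IsFractionRing.injective S.R S.K) l S.i₁ S.i₂ hl1
    S.commSq.w
  have hr : Set.range l ⊆ Set.range (dom f).ι := by
    rintro _ ⟨y, rfl⟩
    rw [Scheme.Opens.range_ι]
    exact hmem y
  have hfst : Spec.map (CommRingCat.ofHom (algebraMap S.R S.K)) ≫
      IsOpenImmersion.lift (dom f).ι l hr = S.i₁ := by
    rw [← cancel_mono (dom f).ι, Category.assoc, IsOpenImmersion.lift_fac, hl1]
  refine ⟨⟨IsOpenImmersion.lift (dom f).ι l hr, hfst, ?_⟩⟩
  apply cancel_Spec_map (IsFractionRing.injective S.R S.K)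
  rw [← Category.assoc, hfst]
  exact S.commSq.w

/-- A domain all of whose local rings have dimension at most one has dimension at most one. -/
lemma dimensionLEOne_of_stalks {Y : Scheme.{0}} [IsIntegral Y] (hd : Dim1 Y) {V : Y.Opens}
    (hV : IsAffineOpen V) [Nonempty V] : Ring.DimensionLEOne Γ(Y, V) := by
  refine ⟨fun {P} hP hPp => ?_⟩
  obtain ⟨M, hM, hPM⟩ := P.exists_le_maximal hPp.ne_top
  have hMp : M.IsPrime := hM.isPrime
  have hx : hV.fromSpec ⟨M, hMp⟩ ∈ V := (hV.isoSpec.inv _).2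
  let := TopCat.Presheaf.algebra_section_stalk Y.presheaf ⟨hV.fromSpec ⟨M, hMp⟩, hx⟩
  have hloc : IsLocalization.AtPrime (Y.presheaf.stalk (hV.fromSpec ⟨M, hMp⟩)) M :=
    hV.isLocalization_stalk' ⟨M, hMp⟩ hx
  have hdisj : Disjoint (M.primeCompl : Set Γ(Y, V)) (P : Set Γ(Y, V)) := by
    rw [Set.disjoint_left]
    intro x hx hx'
    exact hx (hPM hx')
  have hPp' : (P.map (algebraMap Γ(Y, V) (Y.presheaf.stalk (hV.fromSpec ⟨M, hMp⟩)))).IsPrime :=
    IsLocalization.isPrime_of_isPrime_disjoint M.primeCompl _ P hPp hdisj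
  have hcomap : (P.map (algebraMap Γ(Y, V) (Y.presheaf.stalk (hV.fromSpec ⟨M, hMp⟩)))).comap
      (algebraMap Γ(Y, V) (Y.presheaf.stalk (hV.fromSpec ⟨M, hMp⟩))) = P :=
    IsLocalization.under_map_of_isPrime_disjoint M.primeCompl _ hPp hdisj
  rcases hd _ _ hPp' with h0 | h0
  · exfalso
    rw [h0] at hcomap
    have hinj : Function.Injective
        (algebraMap Γ(Y, V) (Y.presheaf.stalk (hV.fromSpec ⟨M, hMp⟩))) :=
      IsLocalization.injective _ M.primeCompl_le_nonZeroDivisors
    apply hP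
    rw [← hcomap]
    exact (RingHom.injective_iff_ker_eq_bot _).mp hinj
  · have h5 : (IsLocalRing.maximalIdeal (Y.presheaf.stalk (hV.fromSpec ⟨M, hMp⟩))).comap
        (algebraMap Γ(Y, V) (Y.presheaf.stalk (hV.fromSpec ⟨M, hMp⟩))) = M :=
      IsLocalization.AtPrime.under_maximalIdeal (Y.presheaf.stalk (hV.fromSpec ⟨M, hMp⟩)) M
    rw [h0, h5] at hcomap
    rwa [← hcomap]

/-- The condition `Dim1` passes to open subschemes. -/
lemma dim1_opens (hd : Dim1 X) (U : X.Opens) : Dim1 U.toScheme := by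
  intro x P hP
  set e := (U.stalkIso x).commRingCatIsoToRingEquiv with he
  have hP' : (P.comap e.symm.toRingHom).IsPrime := Ideal.comap_isPrime _ _
  rcases hd x.1 _ hP' with h | h
  · left
    rw [eq_bot_iff]
    intro a ha
    have h1 : e a ∈ P.comap e.symm.toRingHom := by
      rw [Ideal.mem_comap]
      have : e.symm.toRingHom (e a) = a := e.symm_apply_apply a
      rw [this]; exact ha
    rw [h] at h1
    have h2 : e a = 0 := by simpa using h1
    have h3 : a = 0 := by simpa using h2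
    rw [h3]; exact Ideal.zero_mem _
  · right
    apply le_antisymm (IsLocalRing.le_maximalIdeal hP.ne_top)
    intro a ha
    have h1 : e a ∈ maximalIdeal (X.presheaf.stalk x.1) := by
      rw [mem_maximalIdeal, mem_nonunits_iff] at ha ⊢
      intro hu
      apply ha
      exact (MulEquiv.isUnit_map e).mp hu
    rw [← h, Ideal.mem_comap] at h1
    have : e.symm.toRingHom (e a) = a := e.symm_apply_apply a
    rwa [this] at h1

theorem locallyQuasiFinite_of_injective {Y : Scheme.{0}} [IsIntegral Y] (p : Y ⟶ Spec (.of k))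
    [LocallyOfFiniteType p] (hdim : Dim1 Y)
    (g : Y ⟶ Spec (.of k[X])) (hg : g ≫ Spec.map (CommRingCat.ofHom (C : k →+* k[X])) = p)
    (hinj : Function.Injective g.appTop) : LocallyQuasiFinite g := by
  rw [HasRingHomProperty.iff_of_iSup_eq_top (P := @LocallyQuasiFinite)
    (fun V : Y.affineOpens => V) (iSup_affineOpens_eq_top Y)]
  intro V
  by_cases hne : Nonempty V.1
  swap
  · have hbot : V.1 = ⊥ := by
      ext x
      simp only [Opens.coe_bot, Set.mem_empty_iff_false, iff_false]
      intro hx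
      exact hne ⟨⟨x, hx⟩⟩
    have hs : Subsingleton Γ(Y, V.1) := by
      rw [hbot]; infer_instance
    apply RingHom.QuasiFinite.of_finite
    exact RingHom.Finite.of_surjective _ (fun y => ⟨0, Subsingleton.elim _ _⟩)
  · have hV := V.2
    have hd : Ring.DimensionLEOne Γ(Y, V.1) := dimensionLEOne_of_stalks hdim hV
    have hψinj : Function.Injective (g.appLE ⊤ V.1 (le_pre_top g V.1)) := by
      have h1 : g.appLE ⊤ V.1 (le_pre_top g V.1) =
          g.appTop ≫ Y.presheaf.map (homOfLE le_top).op := rfl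
      rw [h1]
      intro a b hab
      apply hinj
      apply map_injective_of_isIntegral Y (homOfLE le_top : V.1 ⟶ ⊤)
      exact hab
    let ψ : k[X] →+* Γ(Y, V.1) :=
      (g.appLE ⊤ V.1 (le_pre_top g V.1)).hom.comp (Scheme.ΓSpecIso (.of k[X])).inv.hom
    have hψ : ψ.QuasiFinite := by
      have hft := p.finiteType_appLE (isAffineOpen_top _) hV (le_pre_top p V.1)
      have hft2 : (ψ.comp C).FiniteType := by
        have h2 : ψ.comp C = (p.appLE ⊤ V.1 (le_pre_top p V.1)).hom.comp
            (Scheme.ΓSpecIso (.of k)).inv.hom := by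
          have h3 : CommRingCat.ofHom (C : k →+* k[X]) ≫ (Scheme.ΓSpecIso (.of k[X])).inv ≫
              g.appLE ⊤ V.1 (le_pre_top g V.1) =
              (Scheme.ΓSpecIso (.of k)).inv ≫ p.appLE ⊤ V.1 (le_pre_top p V.1) := by
            subst hg
            rw [← Category.assoc, Scheme.ΓSpecIso_inv_naturality, Category.assoc,
              ← Scheme.Hom.appLE_comp_appLE (U := ⊤) (V := ⊤) (W := V.1) (f := g)
                (g := Spec.map (CommRingCat.ofHom (C : k →+* k[X])))
                (e₁ := le_pre_top _ _) (e₂ := le_pre_top g V.1)]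
            rfl
          exact congrArg CommRingCat.Hom.hom h3
        rw [h2]
        exact hft.comp (RingHom.FiniteType.of_surjective _
          (ConcreteCategory.bijective_of_isIso (Scheme.ΓSpecIso (.of k)).inv).2)
      algebraize [ψ, ψ.comp C]
      have hinj' : Function.Injective (algebraMap k[X] Γ(Y, V.1)) := by
        intro a b hab
        exact (ConcreteCategory.bijective_of_isIso (Scheme.ΓSpecIso (.of k[X])).inv).1
          (hψinj hab)
      exact quasiFinite_of_dimensionLEOne (k := k) hinj'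
    exact RingHom.QuasiFinite.of_comp hψ

theorem isFinite_phi [IsProper π] (hdim : Dim1 X) {f : X.functionField}
    (hf : Transc π f) (hv : ∀ x, x ∈ dom f ∨ x ∈ dom f⁻¹) : IsFinite (phi π f) := by
  have hln : IsLocallyNoetherian X := LocallyOfFiniteType.isLocallyNoetherian π
  have hcomp := phi_comp π f
  have h1 : LocallyOfFiniteType (phi π f ≫ Spec.map (CommRingCat.ofHom (C : k →+* k[X]))) := by
    rw [hcomp]; infer_instance
  have h2 : QuasiCompact (phi π f ≫ Spec.map (CommRingCat.ofHom (C : k →+* k[X]))) := by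
    rw [hcomp]; infer_instance
  have h3 : IsSeparated (phi π f ≫ Spec.map (CommRingCat.ofHom (C : k →+* k[X]))) := by
    rw [hcomp]; infer_instance
  have h4 : LocallyOfFiniteType (phi π f) := locallyOfFiniteType_of_comp _
    (Spec.map (CommRingCat.ofHom (C : k →+* k[X])))
  have h5 : QuasiCompact (phi π f) := QuasiCompact.of_comp _
    (Spec.map (CommRingCat.ofHom (C : k →+* k[X])))
  have h6 : IsSeparated (phi π f) := IsSeparated.of_comp _
    (Spec.map (CommRingCat.ofHom (C : k →+* k[X])))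
  have h7 : UniversallyClosed (phi π f) := UniversallyClosed.of_valuativeCriterion _
    (phi_existence π f hv (hf.ne_zero π))
  have h8 : IsProper (phi π f) := { }
  have h9 : LocallyQuasiFinite (phi π f) := by
    refine locallyQuasiFinite_of_injective ((dom f).ι ≫ π) (dim1_opens hdim _) (phi π f)
      hcomp ?_
    rw [phi_appTop]
    intro a b hab
    have e1 := (ConcreteCategory.bijective_of_isIso (dom f).topIso.inv).1 hab
    have e2 := polyMap_injective π hf e1
    exact (ConcreteCategory.bijective_of_isIso (Scheme.ΓSpecIso (.of k[X])).hom).1 e2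
  exact IsFinite.of_isProper_of_locallyQuasiFinite _

end FIN_

theorem t_FIN : Stmt_FIN := by
  intro k _ X π _ _ hdim f hf hv
  have := FIN_.isFinite_phi π hdim hf hv
  exact isAffine_of_isAffineHom (phi π f)

end Pool.Agent.MG.WL.CL
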