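import Pool.Agent.MG.WL.CL.StmtsC

/-!
# GEN0: functions with poles only at `p` are polynomials in `f`
-/

open CategoryTheory AlgebraicGeometry IsLocalRing TopologicalSpace
open Pool.Agent.MG.Two Pool.Agent.MG.W Pool.Agent.MG.W.W0 Pool.Agent.MG.One

namespace Pool.Agent.MG.WL.CL

namespace GEN0_

/-- The germ of the coordinate generates the maximal ideal. -/
theorem max_eq {X : Scheme.{0}} {p : X} (c : Cht p) :
    maximalIdeal (X.presheaf.stalk p) =
      Ideal.span {X.presheaf.germ c.N p c.mem c.z} := by
  have hz : p ∉ X.basicOpen c.z := (c.gz c.z).2 ⟨1, (mul_one _).symm⟩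
  apply le_antisymm
  · intro a ha
    let := TopCat.Presheaf.algebra_section_stalk X.presheaf ⟨p, c.mem⟩
    have := c.aff.isLocalization_stalk ⟨p, c.mem⟩
    obtain ⟨⟨r, s⟩, hrs⟩ := IsLocalization.surj
      (c.aff.primeIdealOf ⟨p, c.mem⟩).asIdeal.primeCompl a
    have hrs' : a * X.presheaf.germ c.N p c.mem s.1 = X.presheaf.germ c.N p c.mem r := hrs
    have hs : IsUnit (X.presheaf.germ c.N p c.mem s.1) := IsLocalization.map_units
      (M := (c.aff.primeIdealOf ⟨p, c.mem⟩).asIdeal.primeCompl) (X.presheaf.stalk p) s
    have hr : X.presheaf.germ c.N p c.mem r ∈ maximalIdeal (X.presheaf.stalk p) := by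
      rw [← hrs']
      exact Ideal.mul_mem_right _ _ ha
    have hr' : p ∉ X.basicOpen r := by
      rw [Scheme.mem_basicOpen X r p c.mem]
      exact (mem_maximalIdeal _).1 hr
    obtain ⟨t, ht⟩ := (c.gz r).1 hr'
    rw [ht, map_mul] at hrs'
    obtain ⟨w, hw⟩ := hs.exists_right_inv
    rw [Ideal.mem_span_singleton']
    refine ⟨X.presheaf.germ c.N p c.mem t * w, ?_⟩
    calc X.presheaf.germ c.N p c.mem t * w * X.presheaf.germ c.N p c.mem c.z
        = (X.presheaf.germ c.N p c.mem c.z * X.presheaf.germ c.N p c.mem t) * w := by ring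
      _ = a := by rw [← hrs', mul_assoc, hw, mul_one]
  · rw [Ideal.span_singleton_le_iff_mem, mem_maximalIdeal]
    intro h
    exact hz ((Scheme.mem_basicOpen X c.z p c.mem).2 h)

section

variable {k : Type} [Field k] {E : Scheme.{0}} (π : E ⟶ Sp k) [IsIntegral E]

theorem kfun_mem_O (x : E) (γ : k) : kfun π γ ∈ O x := by
  have : Nonempty (⊤ : E.Opens) := ⟨⟨x, trivial⟩⟩
  rw [← germ_kmap π ⊤ γ]
  exact germ_mem_O (V := (⊤ : E.Opens)) x trivial _

end

end GEN0_

open GEN0_ in
theorem t_GEN0 (hV : Stmt_VAL) : Stmt_GEN0 := by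
  intro k _ _ E π _ _ p hp hpir c _ f u hf hu hfu
  have := hpir
  have hne : Nonempty (⊤ : E.Opens) := ⟨⟨p, trivial⟩⟩
  obtain ⟨e, he, hec⟩ := hV π p hp
  let R := E.presheaf.stalk p
  set zp : R := E.presheaf.germ c.N p c.mem c.z with hzp
  have hpN : p ∈ c.N := c.mem
  set up : R := E.presheaf.germ c.N p c.mem u with hup
  have hzK : algebraMap R E.functionField zp = E.germToFunctionField c.N c.z :=
    Scheme.algebraMap_germ_eq_germToFunctionField (X := E) c.mem c.z
  have huK : algebraMap R E.functionField up = E.germToFunctionField c.N u :=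
    Scheme.algebraMap_germ_eq_germToFunctionField (X := E) c.mem u
  have hup' : IsUnit up := (Scheme.mem_basicOpen E u p c.mem).1 hu
  have hmax : maximalIdeal R = Ideal.span {zp} := max_eq c
  have hinj : Function.Injective (algebraMap R E.functionField) :=
    IsFractionRing.injective R E.functionField
  have hfz : f * algebraMap R E.functionField zp = algebraMap R E.functionField up := by
    rw [hzK, huK, hfu]
  have hz0 : algebraMap R E.functionField zp ≠ 0 := by
    intro h0
    rw [h0, mul_zero] at hfz
    have h1 : up = 0 := hinj (by rw [← hfz, map_zero])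
    rw [h1] at hup'
    exact not_isUnit_zero hup'
  have key : ∀ (n : ℕ) (h : E.functionField), (∀ x, x ≠ p → x ∈ dom h) →
      h * algebraMap R E.functionField zp ^ n ∈ O p →
      ∃ P : Polynomial k, h = P.eval₂ (kfun π) f := by
    intro n
    induction n with
    | zero =>
      intro h hh hp0
      rw [pow_zero, mul_one] at hp0
      obtain ⟨s, hs⟩ := exists_sec (N := (⊤ : E.Opens)) h (by
        intro x _
        by_cases hx : x = p
        · rw [hx]; exact hp0
        · exact hh x hx)
      obtain ⟨a, ha⟩ := exists_const π s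
      refine ⟨Polynomial.C a, ?_⟩
      rw [Polynomial.eval₂_C, ← hs, ha, germ_kmap]
    | succ n ih =>
      intro h hh hp0
      obtain ⟨r, hr⟩ := hp0
      have heu : e up ≠ 0 := (hup'.map e).ne_zero
      set γ : k := e r / e up ^ (n + 1) with hγ
      set γp : R := E.presheaf.germ c.N p c.mem (coef π c.N γ) with hγp
      have hγK : algebraMap R E.functionField γp = kfun π γ := by
        rw [hγp, Scheme.algebraMap_germ_eq_germToFunctionField (X := E) c.mem]
        exact germ_coef (π := π) c.N γ
      have h1 : e (r - γp * up ^ (n + 1)) = 0 := by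
        rw [map_sub, map_mul, map_pow, hγp, hec, hγ, div_mul_cancel₀ _ (pow_ne_zero _ heu),
          sub_self]
      have h2 : r - γp * up ^ (n + 1) ∈ maximalIdeal R := by
        rw [← he]
        exact h1
      rw [hmax, Ideal.mem_span_singleton'] at h2
      obtain ⟨t, ht⟩ := h2
      have h3 : (h - kfun π γ * f ^ (n + 1)) * algebraMap R E.functionField zp ^ (n + 1) =
          algebraMap R E.functionField t * algebraMap R E.functionField zp := by
        rw [← map_mul, ht, map_sub, map_mul, map_pow, hγK, ← hfz, sub_mul, ← hr]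
        ring
      have h4 : (h - kfun π γ * f ^ (n + 1)) * algebraMap R E.functionField zp ^ n =
          algebraMap R E.functionField t := by
        apply mul_right_cancel₀ hz0
        rw [← h3, pow_succ]
        ring
      obtain ⟨P, hP⟩ := ih (h - kfun π γ * f ^ (n + 1)) (by
        intro x hx
        have h5 : h ∈ O x := hh x hx
        have h6 : f ∈ O x := hf x hx
        show h - kfun π γ * f ^ (n + 1) ∈ O x
        exact (O x).sub_mem h5 ((O x).mul_mem (kfun_mem_O π x γ) ((O x).pow_mem h6 _)))
        ⟨t, h4.symm⟩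
      refine ⟨P + Polynomial.C γ * Polynomial.X ^ (n + 1), ?_⟩
      rw [Polynomial.eval₂_add, ← hP, Polynomial.eval₂_mul, Polynomial.eval₂_C,
        Polynomial.eval₂_pow, Polynomial.eval₂_X]
      ring
  intro h hh
  -- the order of the pole
  obtain ⟨a, b, hb, hab⟩ := IsFractionRing.div_surjective (A := R) h
  have hb0 : b ≠ 0 := nonZeroDivisors.ne_zero hb
  obtain ⟨n, v, hv⟩ := exists_eq_unit_mul_pow zp hmax b hb0
  refine key n h hh ⟨a * ((v⁻¹ : Rˣ) : R), ?_⟩
  have hbK : algebraMap R E.functionField b ≠ 0 := by
    intro h0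
    exact hb0 (hinj (by rw [h0, map_zero]))
  have hvv : algebraMap R E.functionField (v : R) * algebraMap R E.functionField ((v⁻¹ : Rˣ) : R) =
      1 := by rw [← map_mul, Units.mul_inv, map_one]
  rw [map_mul, ← hab]
  have h7 : algebraMap R E.functionField b =
      algebraMap R E.functionField (v : R) * algebraMap R E.functionField zp ^ n := by
    rw [hv, map_mul, map_pow]
  have h8 : algebraMap R E.functionField zp ^ n =
      algebraMap R E.functionField b * algebraMap R E.functionField ((v⁻¹ : Rˣ) : R) := by
    rw [h7]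
    calc algebraMap R E.functionField zp ^ n
        = (algebraMap R E.functionField (v : R) *
            algebraMap R E.functionField ((v⁻¹ : Rˣ) : R)) *
            algebraMap R E.functionField zp ^ n := by rw [hvv, one_mul]
      _ = _ := by ring
  rw [h8, ← mul_assoc, div_mul_cancel₀ _ hbK]

end Pool.Agent.MG.WL.CL
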