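import Pool.Agent.MG.WL.CL.StmtsC

/-!
# GSP: primes of local rings and generisations
-/

open CategoryTheory AlgebraicGeometry IsLocalRing TopologicalSpace
open Pool.Agent.MG.Two Pool.Agent.MG.W Pool.Agent.MG.W.W0 Pool.Agent.MG.One

namespace Pool.Agent.MG.WL.CL

namespace GSP_

/-- The prime of the local ring at `x` of a generisation `y` of `x`. -/
theorem map_pt {X : Scheme.{0}} {x y : X} (h : y ⤳ x) :
    X.fromSpecStalk x
      ((Spec.map (X.presheaf.stalkSpecializes h)) (closedPoint (X.presheaf.stalk y))) = y := by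
  have h1 := Scheme.fromSpecStalk_closedPoint (x := y)
  rw [← Scheme.SpecMap_stalkSpecializes_fromSpecStalk h] at h1
  exact h1

theorem pt_ideal {X : Scheme.{0}} {x y : X} (h : y ⤳ x) :
    PrimeSpectrum.asIdeal
      ((Spec.map (X.presheaf.stalkSpecializes h)) (closedPoint (X.presheaf.stalk y))) =
    (maximalIdeal (X.presheaf.stalk y)).comap (X.presheaf.stalkSpecializes h).hom := rfl

end GSP_

open GSP_

theorem t_GSP : Stmt_GSP := by
  intro X x
  refine ⟨?_, ?_, ?_⟩
  · intro P hP
    let p : Spec (X.presheaf.stalk x) := (⟨P, hP⟩ : PrimeSpectrum (X.presheaf.stalk x))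
    have hy : X.fromSpecStalk x p ∈ Set.range (X.fromSpecStalk x) := ⟨p, rfl⟩
    rw [Scheme.range_fromSpecStalk] at hy
    refine ⟨X.fromSpecStalk x p, hy, ?_⟩
    have h1 := map_pt (X := X) (x := x) hy
    have h2 := (X.fromSpecStalk x).isEmbedding.injective h1
    rw [← pt_ideal, h2]
  · intro y y' h h'
    rw [← pt_ideal, ← pt_ideal]
    have h1 := map_pt (X := X) h
    have h2 := map_pt (X := X) h'
    have h3 := (X.fromSpecStalk x).isEmbedding.isInducing.specializes_iff
      (x := (Spec.map (X.presheaf.stalkSpecializes h)) (closedPoint (X.presheaf.stalk y)))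
      (y := (Spec.map (X.presheaf.stalkSpecializes h')) (closedPoint (X.presheaf.stalk y')))
    rw [h1, h2] at h3
    rw [h3]
    exact PrimeSpectrum.le_iff_specializes _ _
  · intro h
    rw [TopCat.Presheaf.stalkSpecializes_refl]
    rfl

end Pool.Agent.MG.WL.CL
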