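import Pool.Agent.MG.WL.CL.INTA
import Pool.Agent.MG.W.W0

/-!
# Integral curves of genus one with a regular marked point are Weierstrass curves
-/

open CategoryTheory CategoryTheory.Limits AlgebraicGeometry TensorProduct TopologicalSpace
open IsLocalRing

namespace Pool.Agent.MG.WL.CL

open Pool.Agent.MG.Two Pool.Agent.MG.W Pool.Agent.MG.W.W0 Pool.Agent.MG.GLU Pool.Agent.MG.One

namespace INT_

theorem isClosed_of_dim1 {X : Scheme.{0}} {k : Type} [Field k] (π : X ⟶ Sp k) [IsSeparated π]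
    (σ : Sp k ⟶ X) (hσ : σ ≫ π = 𝟙 _) (q : Sp k) : IsClosed ({σ q} : Set X) := by
  have h1 : IsClosedImmersion (σ ≫ π) := by
    rw [hσ]
    infer_instance
  have h2 : IsClosedImmersion σ := IsClosedImmersion.of_comp σ π
  have h3 := σ.isClosedEmbedding.isClosed_range
  have h4 : Set.range σ = {σ q} := by
    ext x
    constructor
    · rintro ⟨y, rfl⟩
      have : y = q := Subsingleton.elim (α := PrimeSpectrum k) y q
      rw [this]
      rfl
    · rintro rfl
      exact ⟨q, rfl⟩
  rw [← h4]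
  exact h3

variable {X : Scheme.{0}} [IsIntegral X] {k : Type} [Field k] {π : X ⟶ Sp k}

/-- A function with a pole. -/
theorem notMem_dom {p : X} (c : Cht p) [Nonempty c.N] {f : X.functionField} {n : ℕ} (hn : 1 ≤ n)
    {u : Γ(X, c.N)} (hu : p ∈ X.basicOpen u)
    (h : f * X.germToFunctionField c.N c.z ^ n = X.germToFunctionField c.N u) : p ∉ dom f := by
  intro hf
  obtain ⟨a, ha⟩ := hf
  have hz : ¬ IsUnit (X.presheaf.germ c.N p c.mem c.z) := by
    rw [← Scheme.mem_basicOpen X c.z p c.mem]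
    exact (c.gz c.z).2 ⟨1, (mul_one _).symm⟩
  have hu' : IsUnit (X.presheaf.germ c.N p c.mem u) := (Scheme.mem_basicOpen X u p c.mem).1 hu
  have e : a * X.presheaf.germ c.N p c.mem c.z ^ n = X.presheaf.germ c.N p c.mem u := by
    apply IsFractionRing.injective (X.presheaf.stalk p) X.functionField
    rw [map_mul, map_pow, ha, Scheme.algebraMap_germ_eq_germToFunctionField (X := X) c.mem,
      Scheme.algebraMap_germ_eq_germToFunctionField (X := X) c.mem, h]
  apply hz
  rw [← e] at hu'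
  have h2 := isUnit_of_mul_isUnit_right hu'
  exact (isUnit_pow_iff (by omega)).1 h2

theorem inv_mem {p : X} (c : Cht p) [Nonempty c.N] {f : X.functionField} {n : ℕ}
    {u : Γ(X, c.N)} (hu : p ∈ X.basicOpen u)
    (h : f * X.germToFunctionField c.N c.z ^ n = X.germToFunctionField c.N u) : f⁻¹ ∈ O p := by
  have h1 := inv_mem_O p u hu
  have h2 : X.germToFunctionField c.N u ≠ 0 := by
    intro h0
    have h3 : u = 0 := X.germToFunctionField_injective c.N (by rw [h0, map_zero])
    rw [h3] at hu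
    simp at hu
  have h4 : f⁻¹ = X.germToFunctionField c.N c.z ^ n * (X.germToFunctionField c.N u)⁻¹ := by
    rw [← h] at h2 ⊢
    have h5 := left_ne_zero_of_mul h2
    have h6 := right_ne_zero_of_mul h2
    field_simp
  rw [h4]
  exact mul_mem (pow_mem (germ_mem_O p c.mem c.z) n) h1

end INT_

open INT_

theorem t_INT (hC : Stmt_CHT) (hP : Stmt_POLE) (hF : Stmt_FIN) (hT : Stmt_TRS) : Stmt_INT := by
  intro k _ _ _ C _ hprop hdim hg hpir
  let q : Sp k := (⊥ : PrimeSpectrum k)
  have hid : spMap (RingHom.id k) = 𝟙 (Sp k) := by simp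
  obtain ⟨f0, hf0⟩ := hT C.π hg
  have hgen : C.σ 0 q ≠ genericPoint C.X := section_ne_genericPoint C.π hf0 _ (C.sec 0) q
  have hcl : IsClosed ({C.σ 0 q} : Set C.X) := isClosed_of_dim1 C.π _ (C.sec 0) q
  obtain ⟨c, -⟩ := hC C.π hdim (C.σ 0 q) hgen (hpir q) ⊤ trivial
  have hNne : Nonempty c.N := ⟨⟨_, c.mem⟩⟩
  obtain ⟨f, n, u, hn, -, hreg, hu, hfu⟩ := hP C.π 1 hg hcl hgen c
  have hnd : C.σ 0 q ∉ dom f := notMem_dom c hn hu hfu
  have hfi : f⁻¹ ∈ O (C.σ 0 q) := inv_mem c hu hfu
  have htr : Transc C.π f := by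
    apply transc_of
    intro a ha
    apply hnd
    have : Nonempty (⊤ : C.X.Opens) := ⟨⟨C.σ 0 q, trivial⟩⟩
    exact (mem_dom_iff' f _).mpr ⟨⊤, trivial, this, coef C.π ⊤ a, by rw [germ_coef, ha]⟩
  have haff : IsAffineOpen (dom f) := by
    refine hF C.π hdim f htr fun x => ?_
    by_cases h : x = C.σ 0 q
    · right
      rw [h]
      exact hfi
    · exact Or.inl (hreg x h)
  let G : GD (π := C.π) (C.σ 0) q :=
    { V := dom f
      U := c.N
      aV := haff
      aU := c.aff
      mV := fun x => ⟨fun h hx => hnd (hx ▸ h), hreg x⟩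
      mU := c.mem
      z := c.z
      gz := c.gz }
  have hWb : G.V ⊓ G.U = C.X.basicOpen G.z := by
    apply le_antisymm
    · intro x hx
      exact (c.bas x hx.2).2 ((G.mV x).1 hx.1)
    · intro x hx
      have hxU : x ∈ c.N := C.X.basicOpen_le _ hx
      exact ⟨(G.mV x).2 ((c.bas x hxU).1 hx), hxU⟩
  obtain ⟨D, hc1, hc2, hj1, hj2, hz, hev⟩ := INT_.exists_AD hg (C.sec 0) hgen G hWb
  obtain ⟨a, b, x, y, hx, hy, heq⟩ := AD.exists_W (D := D)
  obtain ⟨s, hs1, hs2⟩ := id hx
  obtain ⟨t, ht1, ht2⟩ := id hy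
  have heq' : y ^ 2 = x ^ 3 + coef C.π G.V a * x + coef C.π G.V b := by
    rw [← hc1]
    exact heq
  have hlift : ∀ (φ : k →+* Γ(C.X, G.V)) (_ : φ = D.c1)
      (h' : y ^ 2 = x ^ 3 + φ a * x + φ b), lift1 φ x y h' = lift1 D.c1 x y heq := by
    rintro _ rfl _
    rfl
  let H : WG G a b :=
    { x := x
      y := y
      s := s
      t := t
      hs := by
        rw [hj1, hj2, hz] at hs1
        exact hs1
      es := by
        rw [hev] at hs2
        exact hs2
      ht := by
        rw [hj1, hj2, hz] at ht1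
        exact ht1
      et := by
        rw [hev] at ht2
        exact ht2
      eq := heq'
      bij := by
        rw [hlift _ hc1.symm heq']
        exact AD.bij t_WRG hx hy heq }
  have hxy : ∀ c, H.x * H.y ≠ coef C.π G.V c := by
    intro c hc
    have h1 : D.Ord 0 (x * y) c := by
      have h2 : x * y = D.c1 c := by
        rw [hc1]
        exact hc
      rw [h2]
      exact AD.ord_const c
    have h3 := h1.lt (hx.mul hy) (by rw [mul_one]; exact one_ne_zero)
    omega
  obtain ⟨I⟩ := INT_.exists_Inf hF hdim (C.sec 0) hgen t_WRG G H hxy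
  have hVN : IsAffineOpen (G.V ⊓ I.N) := isAffineOpen_inf C.π G.aV I.aN
  have hPu := isPush H I hVN
  let e : C.X ≅ WX k a b := hPu.isoPushout
  have e1 : W0.i1 H ≫ e.hom = WX.in1 k a b := hPu.inl_isoPushout_hom
  have e2 : W0.i2 H I ≫ e.hom = WX.in2 k a b := hPu.inr_isoPushout_hom
  have hπ : e.hom ≫ WX.pr k a b = C.π := by
    apply hPu.hom_ext
    · rw [← Category.assoc, e1, WX.in1_pr, W0.i1_π]
    · rw [← Category.assoc, e2, WX.in2_pr, W0.i2_π]
  have hiso : IsIso e.hom := e.isIso_hom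
  refine ⟨a, b, ⟨e.hom, ?_, ?_⟩, hiso⟩
  · have hiso' : IsIso (spMap (RingHom.id k)) := by
      rw [hid]
      infer_instance
    have hw : e.hom ≫ WX.pr k a b = C.π ≫ spMap (RingHom.id k) := by
      rw [hid, Category.comp_id]
      exact hπ
    exact IsPullback.of_horiz_isIso (fst := e.hom) (snd := C.π) (f := WX.pr k a b)
      (g := spMap (RingHom.id k)) ⟨hw⟩
  · intro i
    rw [hid, Category.id_comp]
    have hi : i = 0 := Subsingleton.elim _ _
    subst hi
    change C.σ 0 ≫ e.hom = spMap (inf2 k a b) ≫ WX.in2 k a b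
    conv_lhs => rw [point2 H I]
    rw [Category.assoc, e2]

end Pool.Agent.MG.WL.CL
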