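import Pool.Agent.MG.WL.CL.L2

/-!
# Local rings of nodal curves
-/

open CategoryTheory AlgebraicGeometry IsLocalRing TensorProduct

namespace Pool.Agent.MG.WL.CL

namespace L_

open NOD

theorem eu_stalk {U X : Scheme.{0}} (f : U ⟶ X) [Etale f] (u : U) :
    @EU (X.presheaf.stalk (f u)) (U.presheaf.stalk u) _ _ _ _ (f.stalkMap u).hom.toAlgebra := by
  algebraize [(f.stalkMap u).hom]
  refine ⟨?_, ?_, ?_, ?_⟩
  · exact inferInstanceAs (IsLocalHom (f.stalkMap u).hom)
  · exact Flat.stalkMap f u
  · exact FormallyUnramified.stalkMap f u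
  · exact LocallyOfFiniteType.stalkMap f u

variable {k : Type} [Field k]

/-- The local ring of the node. -/
theorem node_cases {R : Type} [CommRing R] [IsLocalRing R] [Algebra (NodeRing k) R]
    (n : Ideal (NodeRing k)) [hn : n.IsPrime] [IsLocalization.AtPrime R n] :
    (IsDomain R ∧ IsPrincipalIdealRing R) ∨
    (uu k ∈ n ∧ vv k ∈ n ∧
      (IsDomain (R ⧸ Ideal.span {algebraMap (NodeRing k) R (uu k)}) ∧
        IsPrincipalIdealRing (R ⧸ Ideal.span {algebraMap (NodeRing k) R (uu k)})) ∧
      (IsDomain (R ⧸ Ideal.span {algebraMap (NodeRing k) R (vv k)}) ∧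
        IsPrincipalIdealRing (R ⧸ Ideal.span {algebraMap (NodeRing k) R (vv k)}))) := by
  have hv : vv k ∈ n → (IsDomain (R ⧸ Ideal.span {algebraMap (NodeRing k) R (vv k)}) ∧
        IsPrincipalIdealRing (R ⧸ Ideal.span {algebraMap (NodeRing k) R (vv k)})) := by
    intro hvn
    refine branch n (nu k 0).toRingHom (mu k 0).toRingHom (vv k) (fun d => nu_mu k 0 d)
      (nu_vv k 0) (fun a => SmNod.exists_vv_mul k a) hvn
  have hu : uu k ∈ n → (IsDomain (R ⧸ Ideal.span {algebraMap (NodeRing k) R (uu k)}) ∧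
        IsPrincipalIdealRing (R ⧸ Ideal.span {algebraMap (NodeRing k) R (uu k)})) := by
    intro hun
    refine branch n ((nu k 0).toRingHom.comp (SmNod.sw k).toRingHom)
      ((SmNod.sw k).toRingHom.comp (mu k 0).toRingHom) (uu k) (fun d => ?_) ?_ (fun a => ?_) hun
    · change nu k 0 (SmNod.sw k (SmNod.sw k (mu k 0 d))) = d
      rw [SmNod.sw_sw, nu_mu]
    · change nu k 0 (SmNod.sw k (uu k)) = 0
      rw [SmNod.sw_uu, nu_vv]
    · obtain ⟨w, hw⟩ := SmNod.exists_vv_mul k (SmNod.sw k a)
      refine ⟨SmNod.sw k w, ?_⟩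
      change a = SmNod.sw k (mu k 0 (nu k 0 (SmNod.sw k a))) + uu k * SmNod.sw k w
      conv_lhs => rw [← SmNod.sw_sw k a, hw]
      rw [map_add, map_mul, SmNod.sw_vv]
  have key : ∀ w w' : NodeRing k, w * w' = 0 → w' ∉ n →
      (IsDomain (R ⧸ Ideal.span {algebraMap (NodeRing k) R w}) ∧
        IsPrincipalIdealRing (R ⧸ Ideal.span {algebraMap (NodeRing k) R w})) →
      IsDomain R ∧ IsPrincipalIdealRing R := by
    intro w w' hww hw' h
    have h1 : IsUnit (algebraMap (NodeRing k) R w') :=
      IsLocalization.map_units R (⟨w', hw'⟩ : n.primeCompl)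
    have h2 : algebraMap (NodeRing k) R w = 0 := by
      apply h1.mul_left_eq_zero.1
      rw [← map_mul, hww, map_zero]
    rw [h2] at h
    have h3 : Ideal.span {(0 : R)} = ⊥ := by simp
    rw [h3] at h
    have e : (R ⧸ (⊥ : Ideal R)) ≃+* R := RingEquiv.quotientBot R
    obtain ⟨h4, h5⟩ := h
    exact ⟨e.symm.toMulEquiv.isDomain _, IsPrincipalIdealRing.of_surjective e.toRingHom e.surjective⟩
  have huv : uu k * vv k = 0 := uu_vv k
  by_cases h1 : uu k ∈ n
  · by_cases h2 : vv k ∈ n
    · exact Or.inr ⟨h1, h2, hu h1, hv h2⟩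
    · exact Or.inl (key _ _ huv h2 (hu h1))
  · have h2 : vv k ∈ n := by
      have : uu k * vv k ∈ n := by
        rw [huv]
        exact n.zero_mem
      exact (hn.mem_or_mem this).resolve_left h1
    exact Or.inl (key _ _ (by rw [mul_comm, huv]) h1 (hv h2))

theorem span_max (n : Ideal (NodeRing k)) [hn : n.IsPrime] (hu : uu k ∈ n) (hv : vv k ∈ n) :
    n = Ideal.span {uu k} ⊔ Ideal.span {vv k} := by
  refine le_antisymm ?_ ?_
  · intro a ha
    obtain ⟨w, hw⟩ := SmNod.exists_vv_mul k a
    have h1 : mu k 0 (nu k 0 a) ∈ n := by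
      have : mu k 0 (nu k 0 a) = a - vv k * w := by
        conv_rhs => rw [hw]
        ring
      rw [this]
      exact n.sub_mem ha (n.mul_mem_right _ hv)
    have h2 : ∀ p : Polynomial k, ∃ e, mu k 0 p = algebraMap k _ (p.coeff 0) + uu k * e := by
      intro p
      refine ⟨mu k 0 p.divX, ?_⟩
      conv_lhs => rw [← Polynomial.divX_mul_X_add p]
      rw [map_add, map_mul, ← Polynomial.algebraMap_eq, AlgHom.commutes]
      have : mu k 0 Polynomial.X = uu k := by
        have := mu_nu_uu k 0
        rw [nu_uu] at this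
        rw [map_zero, add_zero] at this
        exact this
      rw [this]
      ring
    obtain ⟨e, he⟩ := h2 (nu k 0 a)
    have h3 : algebraMap k (NodeRing k) ((nu k 0 a).coeff 0) ∈ n := by
      have : algebraMap k (NodeRing k) ((nu k 0 a).coeff 0) = mu k 0 (nu k 0 a) - uu k * e := by
        rw [he]
        ring
      rw [this]
      exact n.sub_mem h1 (n.mul_mem_right _ hu)
    have h4 : (nu k 0 a).coeff 0 = 0 := by
      by_contra hne
      have h5 : IsUnit (algebraMap k (NodeRing k) ((nu k 0 a).coeff 0)) :=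
        (IsUnit.mk0 _ hne).map _
      exact hn.ne_top (Ideal.eq_top_of_isUnit_mem _ h3 h5)
    rw [hw, he, h4, map_zero, zero_add]
    refine Ideal.add_mem _ ?_ ?_
    · exact Ideal.mem_sup_left (Ideal.mem_span_singleton.2 ⟨e, rfl⟩)
    · exact Ideal.mem_sup_right (Ideal.mem_span_singleton.2 ⟨w, rfl⟩)
  · rw [sup_le_iff, Ideal.span_singleton_le_iff_mem, Ideal.span_singleton_le_iff_mem]
    exact ⟨hu, hv⟩

/-- Local rings over the local rings of the node. -/
theorem nodeLoc_over {R S : Type} [CommRing R] [IsLocalRing R] [CommRing S] [IsLocalRing S]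
    [Algebra R S] [Algebra (NodeRing k) R] (n : Ideal (NodeRing k)) [hn : n.IsPrime]
    [IsLocalization.AtPrime R n] (h : EU R S) : NodeLoc S := by
  have hnoeN : IsNoetherianRing (NodeRing k) := inferInstance
  have hnoe : IsNoetherianRing R := IsLocalization.isNoetherianRing n.primeCompl R hnoeN
  rcases node_cases (R := R) n with ⟨h1, h2⟩ | ⟨hun, hvn, hu, hv⟩
  · exact h.nodeLoc_of_pid
  · refine h.nodeLoc_of_node (algebraMap _ R (uu k)) (algebraMap _ R (vv k)) ?_ hu hv ?_ ?_
    · rw [← map_mul, uu_vv, map_zero]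
    · have h1 : n.map (algebraMap (NodeRing k) R) = maximalIdeal R :=
        IsLocalization.AtPrime.map_eq_maximalIdeal n R
      rw [← h1]
      conv_rhs => rw [span_max n hun hvn]
      rw [Ideal.map_sup, Ideal.map_span, Ideal.map_span, Set.image_singleton, Set.image_singleton]
    · intro z hz
      obtain ⟨⟨a, s⟩, hs⟩ := IsLocalization.surj n.primeCompl z
      have hs' : z * algebraMap _ R (s : NodeRing k) = algebraMap _ R a := hs
      have h2 : algebraMap (NodeRing k) R ((uu k + vv k) * a) = 0 := by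
        rw [map_mul, map_add, ← hs']
        linear_combination algebraMap _ R (s : NodeRing k) * hz
      obtain ⟨t, ht⟩ := (IsLocalization.map_eq_zero_iff n.primeCompl R _).1 h2
      have h3 : (t : NodeRing k) * a = 0 := by
        apply SmNod.regular
        linear_combination ht
      have h4 : algebraMap (NodeRing k) R a = 0 :=
        (IsLocalization.map_eq_zero_iff n.primeCompl R _).2 ⟨t, h3⟩
      rw [h4] at hs'
      exact (IsLocalization.map_units R s).mul_left_eq_zero.1 hs'

theorem exists_alg (A : CommRingCat.{0}) (y : Spec A) :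
    ∃ alg : Algebra A ((Spec A).presheaf.stalk y),
      @IsLocalization.AtPrime A _ ((Spec A).presheaf.stalk y) _ alg y.asIdeal _ :=
  ⟨StructureSheaf.stalkAlgebra A y, StructureSheaf.IsLocalization.to_stalk A y⟩

theorem nodeLoc_stalk {U : Scheme.{0}} (h : U ⟶ Sp (NodeRing k)) [Etale h] (u : U) :
    NodeLoc (U.presheaf.stalk u) := by
  obtain ⟨alg, hloc⟩ := exists_alg (CommRingCat.of (NodeRing k)) (h u)
  let a2 : Algebra ((Sp (NodeRing k)).presheaf.stalk (h u)) (U.presheaf.stalk u) :=
    (h.stalkMap u).hom.toAlgebra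
  let a3 : Algebra (NodeRing k) ((Sp (NodeRing k)).presheaf.stalk (h u)) := alg
  have hp : (h u : PrimeSpectrum (NodeRing k)).asIdeal.IsPrime := (h u).2
  have hl : @IsLocalization.AtPrime (NodeRing k) _ ((Sp (NodeRing k)).presheaf.stalk (h u)) _ a3
    (h u : PrimeSpectrum (NodeRing k)).asIdeal hp := hloc
  exact nodeLoc_over (R := (Sp (NodeRing k)).presheaf.stalk (h u))
    (h u : PrimeSpectrum (NodeRing k)).asIdeal (eu_stalk h u)

end L_

open L_

theorem t_L : Stmt_L := by
  intro k _ X π hπ x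
  obtain ⟨U, f, h, hf, hh, -, u, rfl⟩ := hπ x
  let _ := (f.stalkMap u).hom.toAlgebra
  exact NodeLoc.down (eu_stalk f u) (nodeLoc_stalk h u)

end Pool.Agent.MG.WL.CL
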