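import Pool.Agent.MG.WL.CL.L

/-!
# The smooth locus of a nodal curve is dense
-/

open CategoryTheory AlgebraicGeometry IsLocalRing TensorProduct

namespace Pool.Agent.MG.WL.CL

namespace LS_

open NOD L_

theorem pir_down {R S : Type} [CommRing R] [IsLocalRing R] [CommRing S] [IsLocalRing S]
    [Algebra R S] (h : EU R S) [IsDomain S] [IsNoetherianRing S] (t : S)
    (ht : maximalIdeal S = Ideal.span {t}) : IsDomain R ∧ IsPrincipalIdealRing R := by
  have hnoe := h.noeth_down
  have hdom : IsDomain R := h.inj.isDomain (algebraMap R S)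
  have hmax := h.map_max
  refine ⟨hdom, ?_⟩
  by_cases h0 : t = 0
  · have h1 : maximalIdeal R = Ideal.span {0} := by
      rw [← h.comap_map (maximalIdeal R), hmax, ht, h0]
      have h2 := h.comap_map ⊥
      rw [Ideal.map_bot] at h2
      simpa using h2
    exact Two.isPrincipalIdealRing_of_maximalIdeal 0 h1
  · obtain ⟨r, hr, hrt⟩ : ∃ r ∈ maximalIdeal R,
        algebraMap R S r ∉ Ideal.span {t} * maximalIdeal S := by
      by_contra hcon
      push Not at hcon
      have h1 : maximalIdeal S ≤ Ideal.span {t} * maximalIdeal S := by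
        rw [← hmax, Ideal.map_le_iff_le_comap]
        intro r hr
        have := hcon r hr
        rw [← hmax] at this
        exact this
      have h2 : t ∈ Ideal.span {t} * maximalIdeal S := by
        apply h1
        rw [ht]
        exact Ideal.mem_span_singleton_self t
      rw [Ideal.mem_span_singleton_mul] at h2
      obtain ⟨s, hs, hs'⟩ := h2
      have h3 : s = 1 := by
        apply mul_left_cancel₀ h0
        rw [hs', mul_one]
      rw [h3] at hs
      exact (maximalIdeal.isMaximal S).ne_top ((Ideal.eq_top_iff_one _).2 hs)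
    have hrS : algebraMap R S r ∈ maximalIdeal S := by
      rw [← hmax]
      exact Ideal.mem_map_of_mem _ hr
    rw [ht, Ideal.mem_span_singleton] at hrS
    obtain ⟨w, hw⟩ := hrS
    have hwu : IsUnit w := by
      by_contra hwn
      apply hrt
      rw [hw]
      exact Ideal.mul_mem_mul (Ideal.mem_span_singleton_self t) hwn
    have h4 : Ideal.span {algebraMap R S r} = maximalIdeal S := by
      rw [ht, hw]
      obtain ⟨w, rfl⟩ := hwu
      exact Ideal.span_singleton_mul_right_unit w.isUnit t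
    have h5 : maximalIdeal R = Ideal.span {r} := by
      rw [← h.comap_map (maximalIdeal R), hmax, ← h4, ← h.comap_map (Ideal.span {r}),
        Ideal.map_span, Set.image_singleton]
    exact Two.isPrincipalIdealRing_of_maximalIdeal r h5

variable {k : Type} [Field k]

theorem stalk_pid {X U : Scheme.{0}} (f : U ⟶ X) [Etale f] (h : U ⟶ Sp (NodeRing k)) [Etale h]
    (u : U) (hu : uu k + vv k ∉ (h u : PrimeSpectrum (NodeRing k)).asIdeal) :
    IsDomain (X.presheaf.stalk (f u)) ∧ IsPrincipalIdealRing (X.presheaf.stalk (f u)) := by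
  obtain ⟨alg, hloc⟩ := exists_alg (CommRingCat.of (NodeRing k)) (h u)
  let a2 : Algebra ((Sp (NodeRing k)).presheaf.stalk (h u)) (U.presheaf.stalk u) :=
    (h.stalkMap u).hom.toAlgebra
  let a3 : Algebra (NodeRing k) ((Sp (NodeRing k)).presheaf.stalk (h u)) := alg
  have hp : (h u : PrimeSpectrum (NodeRing k)).asIdeal.IsPrime := (h u).2
  have hl : @IsLocalization.AtPrime (NodeRing k) _ ((Sp (NodeRing k)).presheaf.stalk (h u)) _ a3
    (h u : PrimeSpectrum (NodeRing k)).asIdeal hp := hloc
  have hcase := node_cases (R := (Sp (NodeRing k)).presheaf.stalk (h u))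
    (h u : PrimeSpectrum (NodeRing k)).asIdeal
  rcases hcase with ⟨h1, h2⟩ | ⟨h1, h2, -⟩
  · have hEU : EU ((Sp (NodeRing k)).presheaf.stalk (h u)) (U.presheaf.stalk u) := eu_stalk h u
    obtain ⟨⟨h3, -⟩, t, ht⟩ := hEU.pid
    have h4 := hEU.noeth
    let a4 : Algebra (X.presheaf.stalk (f u)) (U.presheaf.stalk u) :=
      (f.stalkMap u).hom.toAlgebra
    exact pir_down (eu_stalk f u) t ht
  · exact absurd (Ideal.add_mem _ h1 h2) hu

end LS_

open LS_ NOD L_

theorem t_LS : Stmt_LS := by
  intro k _ X π hπ W ⟨⟨x, hx⟩⟩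
  obtain ⟨U, f, h, hf, hh, -, u, rfl⟩ := hπ x
  let G : (Sp (NodeRing k)).Opens := PrimeSpectrum.basicOpen (uu k + vv k)
  let W' : U.Opens := f ⁻¹ᵁ W
  have hfo : IsOpenMap f := f.isOpenMap
  have hho : IsOpenMap h := h.isOpenMap
  let V' : U.Opens := W' ⊓ h ⁻¹ᵁ G
  have hV' : ∃ u', u' ∈ V' := by
    have h1 : IsOpen (h '' (W' : Set U)) := hho _ W'.isOpen
    have h2 : h u ∈ h '' (W' : Set U) := ⟨u, hx, rfl⟩
    obtain ⟨_, ⟨a, rfl⟩, ha1, ha2⟩ := PrimeSpectrum.isTopologicalBasis_basic_opens.isOpen_iff.1 h1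
      _ h2
    have h3 : ¬ IsNilpotent (a * (uu k + vv k)) := by
      rintro ⟨n, hn⟩
      rw [mul_pow] at hn
      have h4 : ∀ m : ℕ, ∀ z : NodeRing k, z * (uu k + vv k) ^ m = 0 → z = 0 := by
        intro m
        induction m with
        | zero =>
          intro z hz
          rwa [pow_zero, mul_one] at hz
        | succ m ih =>
          intro z hz
          apply ih
          apply SmNod.regular
          rw [← hz]
          ring
      have h5 : IsNilpotent a := ⟨n, h4 n _ hn⟩
      exact ha1 (nilpotent_iff_mem_prime.1 h5 _ (h u).2)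
    rw [nilpotent_iff_mem_prime] at h3
    push Not at h3
    obtain ⟨P, hP, hPa⟩ := h3
    let y : PrimeSpectrum (NodeRing k) := ⟨P, hP⟩
    have h6 : y ∈ (PrimeSpectrum.basicOpen a : Set (PrimeSpectrum (NodeRing k))) := by
      intro hmem
      exact hPa (P.mul_mem_right _ hmem)
    obtain ⟨u', hu', hu''⟩ := ha2 h6
    refine ⟨u', hu', ?_⟩
    change h u' ∈ G
    rw [hu'']
    intro hmem
    exact hPa (P.mul_mem_left _ hmem)
  obtain ⟨u', hu'⟩ := hV'
  refine ⟨⟨f '' (V' : Set U), hfo _ V'.isOpen⟩, ⟨⟨f u', u', hu', rfl⟩⟩, ?_, ?_⟩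
  · rintro _ ⟨v, hv, rfl⟩
    exact hv.1
  · rintro _ ⟨v, hv, rfl⟩
    exact stalk_pid f h v hv.2

end Pool.Agent.MG.WL.CL
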