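import Pool.Agent.MG.WL.CL.StmtsC

/-!
# `M̄_{1,1}`, block `CL`: `NAFF`, functions on an affine nodal curve
-/

open CategoryTheory AlgebraicGeometry IsLocalRing TopologicalSpace

namespace Pool.Agent.MG.WL.CL

namespace NAFF_

/-- The ideal of the denominators. -/
def A {R I : Type} [CommRing R] (J : I → Ideal R) (m : I → R) : Ideal R where
  carrier := {b | ∃ a, ∀ i, a - b * m i ∈ J i}
  add_mem' := by
    rintro b b' ⟨a, ha⟩ ⟨a', ha'⟩
    refine ⟨a + a', fun i => ?_⟩
    have h := (J i).add_mem (ha i) (ha' i)
    have e : a + a' - (b + b') * m i = (a - b * m i) + (a' - b' * m i) := by ring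
    rw [e]; exact h
  zero_mem' := ⟨0, fun i => by simp⟩
  smul_mem' := by
    rintro c b ⟨a, ha⟩
    refine ⟨c * a, fun i => ?_⟩
    have h := (J i).mul_mem_left c (ha i)
    have e : c * a - (c • b) * m i = c * (a - b * m i) := by
      rw [smul_eq_mul]; ring
    rw [e]; exact h

theorem mem_A {R I : Type} [CommRing R] {J : I → Ideal R} {m : I → R} {b : R} (a : R)
    (h : ∀ i, a - b * m i ∈ J i) : b ∈ A J m := ⟨a, h⟩

/-- An element outside of a prime `P` in all the ideals which are not contained in `P`. -/
theorem exists_s {R I : Type} [CommRing R] [Finite I] (J : I → Ideal R) (P : Ideal R)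
    (hP : P.IsPrime) : ∃ s, s ∉ P ∧ ∀ i, ¬ J i ≤ P → s ∈ J i := by
  classical
  have : Fintype I := Fintype.ofFinite I
  have h1 : ∀ i, ∃ s, s ∉ P ∧ (¬ J i ≤ P → s ∈ J i) := by
    intro i
    by_cases h : J i ≤ P
    · exact ⟨1, fun h1 => hP.ne_top ((Ideal.eq_top_iff_one P).2 h1), fun h2 => absurd h h2⟩
    · obtain ⟨s, hs, hs'⟩ := SetLike.not_le_iff_exists.1 h
      exact ⟨s, hs', fun _ => hs⟩
  choose s hs hs' using h1
  refine ⟨∏ i, s i, ?_, ?_⟩
  · intro h
    obtain ⟨i, -, hi⟩ := (hP.prod_mem_iff).1 h
    exact hs i hi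
  · intro i hi
    exact (J i).mem_of_dvd (Finset.dvd_prod_of_mem s (Finset.mem_univ i)) (hs' i hi)

end NAFF_

open NAFF_ in
theorem t_NAFF : Stmt_NAFF := by
  intro R I _ _ J _ htwo hsum m hm
  have key : A J m = ⊤ := by
    by_contra hne
    obtain ⟨P, hP, hle⟩ := Ideal.exists_le_maximal _ hne
    obtain ⟨s, hs, hsJ⟩ := exists_s J P hP.isPrime
    by_cases h0 : ∃ i, J i ≤ P
    · obtain ⟨i, hi⟩ := h0
      by_cases h1 : ∃ j, J j ≤ P ∧ i ≠ j
      · obtain ⟨j, hj, hij⟩ := h1
        obtain ⟨t, ht, htm⟩ := hsum P hP i j hi hj hij (m i - m j) (hm P hP i j hi hj)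
        obtain ⟨α, hα, β, hβ, hαβ⟩ := Submodule.mem_sup.1 htm
        have hst : s * t ∈ A J m := by
          refine mem_A (s * (t * m i - α)) fun l => ?_
          by_cases hl : J l ≤ P
          · rcases htwo P hP i j l hi hj hl hij with rfl | rfl
            · have e : s * (t * m l - α) - s * t * m l = (-s) * α := by ring
              rw [e]
              exact (J l).mul_mem_left _ hα
            · have e : s * (t * m i - α) - s * t * m l = s * β := by
                have : β = t * (m i - m l) - α := by rw [← hαβ]; ring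
                rw [this]; ring
              rw [e]
              exact (J l).mul_mem_left _ hβ
          · have e : s * (t * m i - α) - s * t * m l = (t * m i - α - t * m l) * s := by ring
            rw [e]
            exact (J l).mul_mem_left _ (hsJ l hl)
        rcases hP.isPrime.mem_or_mem (hle hst) with h | h
        · exact hs h
        · exact ht h
      · have hsA : s ∈ A J m := by
          refine mem_A (s * m i) fun l => ?_
          by_cases hl : J l ≤ P
          · have : l = i := by
              by_contra hli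
              exact h1 ⟨l, hl, fun h => hli h.symm⟩
            subst this
            simp
          · have e : s * m i - s * m l = (m i - m l) * s := by ring
            rw [e]
            exact (J l).mul_mem_left _ (hsJ l hl)
        exact hs (hle hsA)
    · have hsA : s ∈ A J m := by
        refine mem_A 0 fun l => ?_
        have hl : ¬ J l ≤ P := fun h => h0 ⟨l, h⟩
        have e : 0 - s * m l = (- m l) * s := by ring
        rw [e]
        exact (J l).mul_mem_left _ (hsJ l hl)
      exact hs (hle hsA)
  have h1 : (1 : R) ∈ A J m := by rw [key]; exact Submodule.mem_top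
  obtain ⟨a, ha⟩ := h1
  refine ⟨a, fun i => ?_⟩
  have := ha i
  rwa [one_mul] at this

end Pool.Agent.MG.WL.CL
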