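import Pool.Agent.MG.WL.CL.StmtsC

/-!
# P1: vector fields on integral curves with `H¹(O) = 0`
-/

open CategoryTheory AlgebraicGeometry IsLocalRing TopologicalSpace
open Pool.Agent.MG.Two Pool.Agent.MG.W Pool.Agent.MG.W.W0 Pool.Agent.MG.One

namespace Pool.Agent.MG.WL.CL

namespace P1_

variable {E : Scheme.{0}} [IsIntegral E]

/-- In dimension at most one the points other than the generic point are closed. -/
theorem isClosed_of_ne (hD : Dim1 E) (x : E) (hx : x ≠ genericPoint E) : IsClosed {x} := by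
  rw [← closure_subset_iff_isClosed]
  intro y hy
  have hxy : x ⤳ y := specializes_iff_mem_closure.2 hy
  have h1 : x ∈ Set.range (E.fromSpecStalk y) := by
    rw [Scheme.range_fromSpecStalk]
    exact hxy
  obtain ⟨P, hP⟩ := h1
  rcases hD y P.asIdeal P.isPrime with h | h
  · exfalso
    apply hx
    have h2 : genericPoint E ∈ Set.range (E.fromSpecStalk y) := by
      rw [Scheme.range_fromSpecStalk]
      exact genericPoint_specializes y
    obtain ⟨Q, hQ⟩ := h2
    have h3 : P ⤳ Q := by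
      refine (PrimeSpectrum.le_iff_specializes P Q).1 ?_
      change P.asIdeal ≤ Q.asIdeal
      rw [h]
      exact bot_le
    have h4 := h3.map (E.fromSpecStalk y).continuous
    rw [hP, hQ] at h4
    exact (h4.antisymm (genericPoint_specializes x)).eq
  · have h2 : P = closedPoint (E.presheaf.stalk y) := PrimeSpectrum.ext h
    rw [h2, Scheme.fromSpecStalk_closedPoint] at hP
    exact hP

theorem Mx_mul {p : E} {a b : E.functionField} (ha : a ∈ Mx p) (hb : b ∈ O p) : a * b ∈ Mx p := by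
  obtain ⟨a', ha', rfl⟩ := ha
  obtain ⟨b', rfl⟩ := hb
  exact ⟨a' * b', Ideal.mul_mem_right _ _ ha', map_mul _ _ _⟩

theorem one_notMem_Mx {p : E} : (1 : E.functionField) ∉ Mx p := by
  rintro ⟨a, ha, h⟩
  have h1 : a = 1 := by
    apply IsFractionRing.injective (E.presheaf.stalk p) E.functionField
    rw [h, map_one]
  rw [h1] at ha
  exact (Ideal.ne_top_iff_one _).1 (maximalIdeal.isMaximal _).ne_top ha

theorem germ_mem_Mx {V : E.Opens} [Nonempty V] {p : E} (hp : p ∈ V) (r : Γ(E, V))
    (h : p ∉ E.basicOpen r) : E.germToFunctionField V r ∈ Mx p := by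
  refine ⟨E.presheaf.germ V p hp r, ?_, Scheme.algebraMap_germ_eq_germToFunctionField (X := E) hp r⟩
  rw [mem_maximalIdeal, mem_nonunits_iff]
  rwa [Scheme.mem_basicOpen E r p hp] at h

theorem kfun_mem_O {k : Type} [Field k] (π : E ⟶ Sp k) (p : E) (c : k) : kfun π c ∈ O p := by
  have : Nonempty (⊤ : E.Opens) := ⟨⟨p, trivial⟩⟩
  rw [← germ_kmap π ⊤ c]
  exact germ_mem_O (V := ⊤) p trivial _

end P1_

open P1_ in
theorem t_P1 (hC : Stmt_CHT) (hP : Stmt_POLE) (hF : Stmt_FIN) (hG : Stmt_GEN0)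
    (hD : Stmt_DER) : Stmt_P1 := by
  intro k _ _ E π _ _ hdim hgen ⟨V, hV, hpir⟩ S hS hcard hSg hne
  have hJ : JacobsonSpace E := LocallyOfFiniteType.jacobsonSpace π
  have hScl : IsClosed S := by
    rw [← Set.biUnion_of_singleton S]
    exact hS.isClosed_biUnion fun x hx => isClosed_of_ne hdim x (hSg x hx)
  have hgV : genericPoint E ∈ V :=
    ((genericPoint_spec E).mem_open_set_iff V.isOpen).mpr (by simpa using hV)
  have hgS : genericPoint E ∉ S := fun h => hSg _ h rfl
  obtain ⟨p, ⟨hpV, hpS⟩, hpc⟩ := nonempty_inter_closedPoints (Z := (V : Set E) \ S)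
    ⟨_, hgV, hgS⟩ (V.isOpen.sdiff hScl).isLocallyClosed
  have hpc' : IsClosed {p} := hpc
  have hpg : p ≠ genericPoint E := by
    intro h
    obtain ⟨x, hx⟩ := hne
    apply hSg x hx
    have h1 : x ∈ closure {p} := by
      rw [h, ← specializes_iff_mem_closure]
      exact genericPoint_specializes x
    rw [hpc'.closure_eq] at h1
    rw [← h]
    exact h1
  have hpp := hpir p hpV
  obtain ⟨c, -⟩ := hC π hdim p hpg hpp ⊤ trivial
  have hNne : Nonempty c.N := ⟨⟨p, c.mem⟩⟩
  obtain ⟨f, n, u, hn1, hn2, hreg, hpu, hfu⟩ := hP π 0 hgen hpc' hpg c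
  have hn : n = 1 := by omega
  subst hn
  rw [pow_one] at hfu
  have hZ : E.germToFunctionField c.N c.z ∈ Mx p :=
    germ_mem_Mx c.mem c.z ((c.gz c.z).2 ⟨1, (mul_one _).symm⟩)
  have hUi := inv_mem_O p u hpu
  have hU0 : E.germToFunctionField c.N u ≠ 0 := by
    intro h
    have h1 : u = 0 := E.germToFunctionField_injective c.N (by rw [h, map_zero])
    rw [h1, Scheme.basicOpen_zero] at hpu
    exact hpu
  have hf0 : f ≠ 0 := by
    rintro rfl
    apply hU0
    rw [← hfu, zero_mul]
  have hfi : f⁻¹ = E.germToFunctionField c.N c.z * (E.germToFunctionField c.N u)⁻¹ := by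
    rw [← hfu, mul_inv, mul_comm f⁻¹, ← mul_assoc, mul_inv_cancel₀, one_mul]
    intro h
    apply hU0
    rw [← hfu, h, mul_zero]
  have hfM : f⁻¹ ∈ Mx p := by
    rw [hfi]
    exact Mx_mul hZ hUi
  have hfp : p ∉ dom f := by
    intro h
    apply one_notMem_Mx (E := E) (p := p)
    rw [← inv_mul_cancel₀ hf0]
    exact Mx_mul hfM h
  have hfd : ∀ x, x ∈ dom f ↔ x ≠ p := fun x => ⟨fun h h' => hfp (h' ▸ h), hreg x⟩
  have hT : Transc π f := by
    apply transc_of
    intro a ha
    apply hfp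
    rw [ha]
    exact kfun_mem_O π p a
  have haff : IsAffineOpen (dom f) := by
    refine hF π hdim f hT fun x => ?_
    by_cases hx : x = p
    · right
      rw [hx, hfi]
      have h1 : E.germToFunctionField c.N c.z ∈ O p := germ_mem_O p c.mem c.z
      exact mul_mem h1 hUi
    · exact Or.inl (hreg x hx)
  exact hD π hpc' hpg f hT haff hfd hfM (hG π hpc' hpp c f u hreg hpu hfu) S hS hcard hpS hSg

end Pool.Agent.MG.WL.CL
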