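import Pool.Agent.MG.WL.CL.StmtsC

/-!
# Block CL, module POLE: a function with a pole of small order at one point
-/

open CategoryTheory CategoryTheory.Limits AlgebraicGeometry IsLocalRing TopologicalSpace
open Pool.Agent.MG.Two Pool.Agent.MG.W Pool.Agent.MG.W.W0 Pool.Agent.MG.One

namespace Pool.Agent.MG.WL.CL

namespace POLE_

/-- The form of `Stmt_POLE` which is proved. -/
def Stmt : Prop :=
  ∀ {k : Type} [Field k] [IsAlgClosed k] {X : Scheme.{0}} (π : X ⟶ Sp k) [IsProper π]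
    [IsIntegral X] (g : ℕ), HasGenus π g → ∀ {p : X}, IsClosed {p} → p ≠ genericPoint X →
      ∀ (c : Cht p) [Nonempty c.N],
      ∃ (f : X.functionField) (n : ℕ) (u : Γ(X, c.N)), 1 ≤ n ∧ n ≤ g + 1 ∧
        (∀ x, x ≠ p → x ∈ dom f) ∧ p ∈ X.basicOpen u ∧
        f * X.germToFunctionField c.N c.z ^ n = X.germToFunctionField c.N u

/-- The complement of a closed point in an open set. -/
def rem {X : Scheme.{0}} {p : X} (hp : IsClosed {p}) (V : X.Opens) : X.Opens :=
  V ⊓ ⟨{p}ᶜ, hp.isOpen_compl⟩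

lemma mem_rem {X : Scheme.{0}} {p : X} (hp : IsClosed {p}) (V : X.Opens) (x : X) :
    x ∈ rem hp V ↔ x ∈ V ∧ x ≠ p := Iff.rfl

lemma rem_le {X : Scheme.{0}} {p : X} (hp : IsClosed {p}) (V : X.Opens) : rem hp V ≤ V :=
  inf_le_left

/-- A non trivial relation between `g + 1` vectors in `k^g`, with the last non zero coefficient. -/
lemma exists_rel {k : Type} [Field k] (g : ℕ) (v : Fin (g + 1) → (Fin g → k)) :
    ∃ (α : Fin (g + 1) → k) (i₀ : Fin (g + 1)), ∑ i, α i • v i = 0 ∧ α i₀ ≠ 0 ∧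
      ∀ i, i₀ < i → α i = 0 := by
  classical
  have hn : ¬ LinearIndependent k v := by
    intro h
    have h1 := h.fintype_card_le_finrank
    simp at h1
  rw [Fintype.not_linearIndependent_iff] at hn
  obtain ⟨α, hα, i, hi⟩ := hn
  have hne : (Finset.univ.filter (fun i => α i ≠ 0)).Nonempty := ⟨i, by simpa using hi⟩
  refine ⟨α, (Finset.univ.filter (fun i => α i ≠ 0)).max' hne, hα, ?_, ?_⟩
  · have h := Finset.max'_mem _ hne
    simpa using h
  · intro j hj
    by_contra hj'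
    have h := Finset.le_max' (Finset.univ.filter (fun i => α i ≠ 0)) j (by simpa using hj')
    exact absurd hj (not_lt.2 h)

/-- The computation in a field. -/
lemma field_comp {K : Type} [Field K] {g : ℕ} (α A : Fin (g + 1) → K) (Z U : K) (hZ : Z ≠ 0)
    (i₀ : Fin (g + 1)) (h0 : ∀ i, i₀ < i → α i = 0) :
    (∑ i, α i * (A i - (Z⁻¹) ^ (i.1 + 1)) - U) * Z ^ (i₀.1 + 1) =
      Z * (∑ i, α i * (Z ^ i₀.1 * A i) -
        ∑ i, (if i < i₀ then α i * Z ^ (i₀.1 - i.1 - 1) else 0) - Z ^ i₀.1 * U) - α i₀ := by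
  have h1 : ∀ i : Fin (g + 1), α i * (A i - (Z⁻¹) ^ (i.1 + 1)) * Z ^ (i₀.1 + 1) =
      Z * (α i * (Z ^ i₀.1 * A i)) -
        Z * (if i < i₀ then α i * Z ^ (i₀.1 - i.1 - 1) else 0) - (if i = i₀ then α i else 0) := by
    intro i
    have e0 : α i * (A i - (Z⁻¹) ^ (i.1 + 1)) * Z ^ (i₀.1 + 1) =
        Z * (α i * (Z ^ i₀.1 * A i)) - α i * ((Z⁻¹) ^ (i.1 + 1) * Z ^ (i₀.1 + 1)) := by ring
    rw [e0, sub_sub]
    congr 1
    rcases lt_trichotomy i i₀ with h | h | h
    · rw [if_pos h, if_neg h.ne, add_zero]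
      have hlt : i.1 < i₀.1 := h
      obtain ⟨d, hd⟩ : ∃ d, i₀.1 = i.1 + 1 + d := ⟨i₀.1 - i.1 - 1, by omega⟩
      have e1 : i₀.1 - i.1 - 1 = d := by omega
      have e2 : (Z⁻¹) ^ (i.1 + 1) * Z ^ (i.1 + 1) = 1 := by
        rw [← mul_pow, inv_mul_cancel₀ hZ, one_pow]
      rw [e1, hd]
      calc α i * ((Z⁻¹) ^ (i.1 + 1) * Z ^ (i.1 + 1 + d + 1))
          = ((Z⁻¹) ^ (i.1 + 1) * Z ^ (i.1 + 1)) * (α i * Z ^ (d + 1)) := by ring
        _ = Z * (α i * Z ^ d) := by rw [e2, one_mul]; ring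
    · subst h
      rw [if_neg (lt_irrefl _), if_pos rfl, ← mul_pow, inv_mul_cancel₀ hZ, one_pow]
      ring
    · rw [h0 i h, if_neg (not_lt.2 h.le), if_neg h.ne']
      ring
  rw [sub_mul, Finset.sum_mul, Finset.sum_congr rfl (fun i _ => h1 i), Finset.sum_sub_distrib,
    Finset.sum_sub_distrib, ← Finset.mul_sum, ← Finset.mul_sum, Finset.sum_ite_eq']
  simp only [Finset.mem_univ, if_true]
  ring

end POLE_

open POLE_ in
theorem t_POLE' (hA : Stmt_AFC) : POLE_.Stmt := by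
  intro k _ _ X π _ _ g hg p hp hgen c _
  classical
  -- an affine cover
  obtain ⟨U, V, hU, hV, hcov, hpU⟩ : ∃ U V : X.Opens, IsAffineOpen U ∧ IsAffineOpen V ∧
      U ⊔ V = ⊤ ∧ p ∈ U := by
    obtain ⟨U, V, hU, hV, hcov, -⟩ := hg
    have h1 : p ∈ U ⊔ V := by rw [hcov]; trivial
    rcases h1 with h1 | h1
    · exact ⟨U, V, hU, hV, hcov, h1⟩
    · exact ⟨V, U, hV, hU, by rw [sup_comm]; exact hcov, h1⟩
  have hV' : IsAffineOpen (rem hp V) := hA c hV (fun x => mem_rem hp V x)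
  have hU' : IsAffineOpen (rem hp U) := hA c hU (fun x => mem_rem hp U x)
  have hN : IsAffineOpen (c.N ⊓ U) := isAffineOpen_inf π c.aff hU
  have hN' : IsAffineOpen (rem hp (c.N ⊓ U)) := hA c hN (fun x => mem_rem hp _ x)
  have hcov' : U ⊔ rem hp V = ⊤ := by
    rw [eq_top_iff]
    intro x _
    by_cases hx : x = p
    · left
      rw [hx]
      exact hpU
    · have h1 : x ∈ U ⊔ V := by rw [hcov]; trivial
      rcases h1 with h1 | h1
      · left; exact h1
      · right; exact ⟨h1, hx⟩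
  -- the opens are not empty
  have hη : ∀ W : X.Opens, Nonempty W → Nonempty (rem hp W) := by
    intro W hW
    have h1 := ((genericPoint_spec X).mem_open_set_iff W.isOpen).mpr (by simpa using hW)
    exact ⟨⟨genericPoint X, h1, fun h => hgen h.symm⟩⟩
  have neU : Nonempty U := ⟨⟨p, hpU⟩⟩
  have neN : Nonempty (c.N ⊓ U : X.Opens) := ⟨⟨p, c.mem, hpU⟩⟩
  have neU' : Nonempty (rem hp U) := hη U neU
  have neN' : Nonempty (rem hp (c.N ⊓ U)) := hη _ neN
  obtain ⟨L, -, hLc, hL0⟩ := t_COVI π g hg U (rem hp V) hU hV' hcov'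
  set Z : X.functionField := X.germToFunctionField c.N c.z with hZdef
  -- the inverse of `z`
  have hle : rem hp (c.N ⊓ U) ≤ X.basicOpen c.z := fun x hx => (c.bas x hx.1.1).2 hx.2
  have hleN : rem hp (c.N ⊓ U) ≤ c.N := (rem_le hp _).trans inf_le_left
  have hzu : IsUnit (rs X hleN c.z) := by
    have h1 : IsUnit (rs X (X.basicOpen_le c.z) c.z) := X.toRingedSpace.isUnit_res_basicOpen c.z
    have h2 := h1.map (rs X hle)
    rwa [COVI.rs_rs] at h2
  obtain ⟨zi, hzi⟩ := hzu.exists_right_inv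
  have hzi' : X.germToFunctionField _ zi = Z⁻¹ := by
    rw [germ_inv hzi, germ_rs]
  have hZ0 : Z ≠ 0 := by
    intro h
    rw [h, inv_zero] at hzi'
    have h1 := congrArg (X.germToFunctionField _) hzi
    rw [map_mul, hzi', mul_zero, map_one] at h1
    exact zero_ne_one h1
  -- the principal parts
  have hNU : rem hp (c.N ⊓ U) ≤ rem hp U := fun x hx => ⟨hx.1.2, hx.2⟩
  have hac : ∀ m : ℕ, ∃ (a : Γ(X, c.N ⊓ U)) (b : Γ(X, rem hp U)),
      zi ^ m = rs X (rem_le hp (c.N ⊓ U)) a - rs X hNU b := by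
    intro m
    refine COVI.acyc (X := X) (W := U) hU inf_le_right (rem_le hp U) ?_ _ _ ?_ hN hU' hN' _
    · intro x hx
      by_cases hxp : x = p
      · left
        rw [hxp]
        exact ⟨c.mem, hpU⟩
      · right
        exact ⟨hx, hxp⟩
    · intro x hx
      exact ⟨hx.1, hx.2.2⟩
  choose a b hab using hac
  have hab' : ∀ m, X.germToFunctionField _ (b m) = X.germToFunctionField _ (a m) - (Z⁻¹) ^ m := by
    intro m
    have h1 := congrArg (X.germToFunctionField _) (hab m)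
    rw [map_sub, map_pow, hzi', germ_rs, germ_rs] at h1
    rw [h1]
    ring
  -- the relation
  have hUV : U ⊓ rem hp V ≤ rem hp U := fun x hx => ⟨hx.1, hx.2.2⟩
  obtain ⟨α, i₀, hrel, hα0, hαi⟩ := exists_rel g (fun i => L (rs X hUV (b (i.1 + 1))))
  have hL : L (∑ i : Fin (g + 1), coef π (U ⊓ rem hp V) (α i) * rs X hUV (b (i.1 + 1))) = 0 := by
    rw [map_sum, ← hrel]
    exact Finset.sum_congr rfl (fun i _ => hLc _ _)
  obtain ⟨u', v', huv⟩ := (hL0 _).1 hL
  set f : X.functionField := ∑ i : Fin (g + 1), kfun π (α i) *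
    X.germToFunctionField _ (b (i.1 + 1)) - X.germToFunctionField U u' with hf
  have hdom : ∀ x, x ≠ p → x ∈ dom f := by
    intro x hx
    have h1 : x ∈ U ⊔ rem hp V := by rw [hcov']; trivial
    rcases h1 with h1 | h1
    · refine (mem_dom_iff' f x).mpr ⟨rem hp U, ⟨h1, hx⟩, neU',
        ∑ i : Fin (g + 1), coef π (rem hp U) (α i) * b (i.1 + 1) - rs X (rem_le hp U) u', ?_⟩
      rw [map_sub, map_sum, germ_rs, hf]
      congr 1
      refine Finset.sum_congr rfl (fun i _ => ?_)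
      rw [map_mul, germ_coef]
    · have neV' : Nonempty (rem hp V) := ⟨⟨x, h1⟩⟩
      have neW : Nonempty (U ⊓ rem hp V : X.Opens) := nonempty_inf neU neV'
      refine (mem_dom_iff' f x).mpr ⟨rem hp V, h1, neV', v', ?_⟩
      have h2 := congrArg (X.germToFunctionField (U ⊓ rem hp V)) huv
      rw [map_add, germ_rs, germ_rs, map_sum] at h2
      rw [hf, eq_sub_iff_add_eq, add_comm, ← h2]
      refine Finset.sum_congr rfl (fun i _ => ?_)
      rw [map_mul, germ_coef, germ_rs]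
  -- the function near `p`
  set z' : Γ(X, c.N ⊓ U) := rs X inf_le_left c.z with hz'
  set w : Γ(X, c.N ⊓ U) := ∑ i : Fin (g + 1), coef π _ (α i) * (z' ^ i₀.1 * a (i.1 + 1)) -
    ∑ i : Fin (g + 1), (if i < i₀ then coef π _ (α i) * z' ^ (i₀.1 - i.1 - 1) else 0) -
      z' ^ i₀.1 * rs X inf_le_right u' with hw
  have gz' : X.germToFunctionField _ z' = Z := germ_rs _ _
  have key : f * Z ^ (i₀.1 + 1) = X.germToFunctionField _ (z' * w - coef π _ (α i₀)) := by
    have h1 := field_comp (fun i => kfun π (α i)) (fun i : Fin (g + 1) =>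
      X.germToFunctionField _ (a (i.1 + 1))) Z (X.germToFunctionField U u') hZ0 i₀
      (fun i hi => by rw [hαi i hi, map_zero])
    rw [hf, map_sub, map_mul, hw, map_sub, map_sub, map_sum, map_sum, map_mul, map_pow, gz',
      germ_coef, germ_rs]
    simp only [hab']
    rw [h1]
    congr 4
    · refine Finset.sum_congr rfl (fun i _ => ?_)
      rw [map_mul, map_mul, map_pow, gz', germ_coef]
    · refine Finset.sum_congr rfl (fun i _ => ?_)
      split_ifs
      · rw [map_mul, map_pow, gz', germ_coef]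
      · rw [map_zero]
  have hpt : p ∈ X.basicOpen (z' * w - coef π _ (α i₀)) := by
    have hpN : p ∈ c.N ⊓ U := ⟨c.mem, hpU⟩
    rw [← X.evaluation_ne_zero_iff_mem_basicOpen p hpN]
    have e1 : X.evaluation _ p hpN z' = 0 := by
      rw [X.evaluation_eq_zero_iff_notMem_basicOpen p hpN]
      intro h
      have h2 : p ∈ X.basicOpen c.z := by
        have h3 := X.basicOpen_res c.z (homOfLE (inf_le_left : c.N ⊓ U ≤ c.N)).op
        have h4 : p ∈ (c.N ⊓ U) ⊓ X.basicOpen c.z := by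
          rw [← h3]
          exact h
        exact h4.2
      exact (c.bas p c.mem).1 h2 rfl
    intro h0
    have h1 : (X.evaluation (c.N ⊓ U) p hpN).hom (z' * w - coef π _ (α i₀)) = 0 := h0
    rw [map_sub, map_mul] at h1
    have h2 : (X.evaluation (c.N ⊓ U) p hpN).hom z' = 0 := e1
    rw [h2, zero_mul, zero_sub, neg_eq_zero] at h1
    have h3 : IsUnit ((X.evaluation (c.N ⊓ U) p hpN).hom (coef π (c.N ⊓ U) (α i₀))) :=
      ((IsUnit.mk0 _ hα0).map (coef π (c.N ⊓ U))).map (X.evaluation (c.N ⊓ U) p hpN).hom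
    exact h3.ne_zero h1
  -- the section over `c.N`
  have hcN : c.N ≤ dom (f * Z ^ (i₀.1 + 1)) := by
    intro x hx
    by_cases hxp : x = p
    · subst hxp
      exact (mem_dom_iff' _ _).mpr ⟨c.N ⊓ U, ⟨hx, hpU⟩, neN, _, key.symm⟩
    · obtain ⟨W, hW, neW, s, hs⟩ := (mem_dom_iff' f x).mp (hdom x hxp)
      have neWN : Nonempty (W ⊓ c.N : X.Opens) := ⟨⟨x, hW, hx⟩⟩
      refine (mem_dom_iff' _ _).mpr ⟨W ⊓ c.N, ⟨hW, hx⟩, neWN,
        rs X inf_le_left s * rs X inf_le_right c.z ^ (i₀.1 + 1), ?_⟩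
      rw [map_mul, map_pow, germ_rs, germ_rs, hs]
  refine ⟨f, i₀.1 + 1, rs X hcN (sec (f * Z ^ (i₀.1 + 1))), by omega, by omega, hdom, ?_, ?_⟩
  · have h1 : rs X (inf_le_left : c.N ⊓ U ≤ c.N) (rs X hcN (sec (f * Z ^ (i₀.1 + 1)))) =
        z' * w - coef π _ (α i₀) := by
      apply X.germToFunctionField_injective (c.N ⊓ U)
      rw [germ_rs, germ_rs, germ_sec, key]
    have h2 := X.basicOpen_res (rs X hcN (sec (f * Z ^ (i₀.1 + 1))))
      (homOfLE (inf_le_left : c.N ⊓ U ≤ c.N)).op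
    have h3 : p ∈ X.basicOpen (rs X (inf_le_left : c.N ⊓ U ≤ c.N)
        (rs X hcN (sec (f * Z ^ (i₀.1 + 1))))) := by
      rw [h1]
      exact hpt
    have h4 : p ∈ (c.N ⊓ U) ⊓ X.basicOpen (rs X hcN (sec (f * Z ^ (i₀.1 + 1)))) := by
      rw [← h2]
      exact h3
    exact h4.2
  · rw [germ_rs, germ_sec]

theorem t_POLE (hA : Stmt_AFC) : Stmt_POLE := t_POLE' hA

end Pool.Agent.MG.WL.CL
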