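import Pool.Agent.MG.WL.CL.StmtsC
import Pool.Agent.MG.SmNod
import Pool.Agent.MG.TwoSmC

/-!
# `M̄_{1,1}`, block `CL`: smooth points of nodal curves are regular
-/

open CategoryTheory AlgebraicGeometry IsLocalRing TopologicalSpace
open Pool.Agent.MG.Two Pool.Agent.MG.W Pool.Agent.MG.W.W0 Pool.Agent.MG.One

namespace Pool.Agent.MG.WL.CL

namespace SMP_

/-- An open subscheme of a nodal curve is a nodal curve. -/
theorem nodal_open {k : Type} [Field k] {X : Scheme.{0}} (π : X ⟶ Sp k) (h : Nodal π)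
    (U : X.Opens) : Nodal (U.ι ≫ π) := by
  intro x
  obtain ⟨Y, f, g, hf, hg, hc, y, hy⟩ := h (U.ι x)
  have hyU : y ∈ f ⁻¹ᵁ U := by
    show f y ∈ U
    rw [hy]
    exact x.2
  refine ⟨(f ⁻¹ᵁ U : Y.Opens), f ∣_ U, (f ⁻¹ᵁ U).ι ≫ g, inferInstance, inferInstance, ?_,
    ⟨⟨y, hyU⟩, ?_⟩⟩
  · rw [← Category.assoc, morphismRestrict_ι, Category.assoc, hc, Category.assoc]
  · have h0 : ∀ z, U.ι ((f ∣_ U) z) = f ((f ⁻¹ᵁ U).ι z) := by
      intro z
      rw [← Scheme.Hom.comp_apply, morphismRestrict_ι, Scheme.Hom.comp_apply]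
    have h1 : U.ι ((f ∣_ U) ⟨y, hyU⟩) = U.ι x := (h0 ⟨y, hyU⟩).trans hy
    exact U.ι.injective h1

end SMP_

theorem t_SMP : Stmt_SMP := by
  intro k _ X π hnod U hsm x hx
  have h1 : Nodal (U.ι ≫ π) := SMP_.nodal_open π hnod U
  have h2 : SmoothOfRelativeDimension 1 (U.ι ≫ π) :=
    SmNod.smoothOfRelativeDimension_one (U.ι ≫ π) h1
  have h3 := isDomain_stalk (U.ι ≫ π) ⟨x, hx⟩
  have h4 := pir_stalk (U.ι ≫ π) ⟨x, hx⟩
  let e := (U.stalkIso ⟨x, hx⟩).commRingCatIsoToRingEquiv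
  constructor
  · exact e.symm.toMulEquiv.isDomain _
  · exact IsPrincipalIdealRing.of_surjective e.toRingHom e.surjective

end Pool.Agent.MG.WL.CL
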