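import Pool.Agent.MG.WL.CL.StmtsC

/-!
# TRS: curves of genus one have non constant functions
-/

open CategoryTheory AlgebraicGeometry IsLocalRing TopologicalSpace Opposite
open Pool.Agent.MG.Two Pool.Agent.MG.W Pool.Agent.MG.W.W0 Pool.Agent.MG.One

namespace Pool.Agent.MG.WL.CL

namespace TRS_

variable {k : Type} [Field k] {X : Scheme.{0}} (π : X ⟶ Sp k)

theorem map_coef {U V : X.Opens} (h : U ≤ V) (c : k) :
    X.presheaf.map (homOfLE h).op (coef π V c) = coef π U c := by
  have h1 : (Scheme.ΓSpecIso (CommRingCat.of k)).inv ≫ π.appTop ≫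
      X.presheaf.map (homOfLE (le_top : V ≤ ⊤)).op ≫ X.presheaf.map (homOfLE h).op =
      (Scheme.ΓSpecIso (CommRingCat.of k)).inv ≫ π.appTop ≫
      X.presheaf.map (homOfLE (le_top : U ≤ ⊤)).op := by
    rw [← X.presheaf.map_comp]
    rfl
  exact ConcreteCategory.congr_hom h1 c

end TRS_

open TRS_ in
/-- TRS -/
theorem t_TRS : Stmt_TRS := by
  intro k _ _ X π _ hg
  by_contra hne
  push Not at hne
  have hc : ∀ f : X.functionField, ∃ c, f = kfun π c := by
    intro f
    by_contra h
    push Not at h
    exact hne f (transc_of π f h)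
  obtain ⟨U, V, -, -, -, L, hL, -, hker⟩ := hg
  obtain ⟨s, hs⟩ := hL fun _ => 1
  have h0 : L s = 0 := by
    by_cases hUV : Nonempty (U ⊓ V : X.Opens)
    · obtain ⟨c, hcs⟩ := hc (X.germToFunctionField (U ⊓ V) s)
      have hs2 : s = coef π (U ⊓ V) c := by
        apply X.germToFunctionField_injective (U ⊓ V)
        rw [hcs, germ_coef]
      refine (hker s).2 ⟨coef π U c, 0, ?_⟩
      rw [hs2, map_zero, add_zero, map_coef]
    · have hbot : U ⊓ V = ⊥ := by
        ext x
        constructor
        · intro hx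
          exact hUV ⟨⟨x, hx⟩⟩
        · intro hx
          exact hx.elim
      have hsub : Subsingleton Γ(X, U ⊓ V) := by
        rw [hbot]
        infer_instance
      rw [Subsingleton.elim s 0, map_zero]
  rw [h0] at hs
  exact zero_ne_one (congrFun hs 0)

end Pool.Agent.MG.WL.CL
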