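import Pool.Agent.MG.WL.CL.StmtsC

/-!
# UNQ: sections of a reduced scheme are determined by their germs at the generic points
-/

open CategoryTheory AlgebraicGeometry TopologicalSpace

namespace Pool.Agent.MG.WL.CL

namespace UNQ_

/-- Every point is a specialisation of a generic point. -/
theorem exists_gen {X : Scheme.{0}} (x : X) : ∃ η : X, η ⤳ x ∧ Gen η := by
  have hi : IsIrreducible (irreducibleComponent x) := isIrreducible_irreducibleComponent
  have hs := hi.isGenericPoint_genericPoint isClosed_irreducibleComponent
  refine ⟨hi.genericPoint, ?_, ?_⟩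
  · rw [specializes_iff_mem_closure, hs.def]
    exact mem_irreducibleComponent
  · intro y hy
    have h1 : irreducibleComponent x ⊆ closure {y} := by
      rw [← hs.def]
      exact closure_minimal (Set.singleton_subset_iff.2 (specializes_iff_mem_closure.1 hy))
        isClosed_closure
    have h2 : closure {y} = irreducibleComponent x :=
      eq_irreducibleComponent isPreirreducible_singleton.closure h1
    have h3 : hi.genericPoint ⤳ y := by
      rw [specializes_iff_mem_closure, hs.def, ← h2]
      exact subset_closure rfl
    exact (hy.antisymm h3).eq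

end UNQ_

theorem t_UNQ : Stmt_UNQ := by
  intro X _ U a b h
  rw [← sub_eq_zero]
  rw [← basicOpen_eq_bot_iff]
  rw [eq_bot_iff]
  intro x hx
  obtain ⟨η, h1, h2⟩ := UNQ_.exists_gen x
  have h3 : η ∈ X.basicOpen (a - b) := h1.mem_open (X.basicOpen (a - b)).isOpen hx
  have hU : η ∈ U := X.basicOpen_le _ h3
  have h4 := (X.mem_basicOpen (a - b) η hU).1 h3
  rw [map_sub, h η hU h2, sub_self] at h4
  exact absurd h4 not_isUnit_zero

end Pool.Agent.MG.WL.CL
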