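import Pool.Agent.MG.WL.CL.StmtsC
import Pool.Agent.MG.TwoChart
import Pool.Agent.MG.TwoCoord
import Pool.Agent.MG.TwoPts

/-!
# VAL: values at closed points
-/

open CategoryTheory AlgebraicGeometry IsLocalRing TopologicalSpace
open Pool.Agent.MG.Two

namespace Pool.Agent.MG.WL.CL

namespace VAL_

theorem isMaximal {X : Scheme.{0}} {x : X} (hx : IsClosed {x}) {V : X.Opens}
    (hV : IsAffineOpen V) (hxV : x ∈ V) : (hV.primeIdealOf ⟨x, hxV⟩).asIdeal.IsMaximal := by
  rw [← PrimeSpectrum.isClosed_singleton_iff_isMaximal]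
  have h1 : ({hV.primeIdealOf ⟨x, hxV⟩} : Set (Spec Γ(X, V))) = hV.fromSpec ⁻¹' {x} := by
    refine Set.ext fun Q => ⟨fun h => ?_, fun h => ?_⟩
    · have h2 : Q = hV.primeIdealOf ⟨x, hxV⟩ := h
      rw [h2]
      exact hV.fromSpec_primeIdealOf ⟨x, hxV⟩
    · have h2 : hV.fromSpec Q = hV.fromSpec (hV.primeIdealOf ⟨x, hxV⟩) := by
        rw [hV.fromSpec_primeIdealOf]
        exact h
      exact hV.fromSpec.isOpenEmbedding.injective h2
  have h3 : IsClosed (hV.fromSpec ⁻¹' {x}) := hx.preimage hV.fromSpec.continuous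
  rw [← h1] at h3
  exact h3

theorem germ_coef {k : Type} [Field k] {X : Scheme.{0}} (π : X ⟶ Sp k) {x : X} {U V : X.Opens}
    (hU : x ∈ U) (hV : x ∈ V) (c : k) :
    X.presheaf.germ U x hU (coef π U c) = X.presheaf.germ V x hV (coef π V c) := by
  have h1 : ∀ (W : X.Opens) (hW : x ∈ W), X.presheaf.germ W x hW (coef π W c) =
      X.presheaf.germ ⊤ x trivial (coef π ⊤ c) := fun W hW => by
    rw [← coef_rs π (le_top : W ≤ ⊤) c]
    exact X.presheaf.germ_res_apply (homOfLE le_top) x hW (coef π ⊤ c)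
  exact (h1 U hU).trans (h1 V hV).symm

/-- Every germ at a closed point is a constant modulo the maximal ideal. -/
theorem exists_const {k : Type} [Field k] [IsAlgClosed k] {X : Scheme.{0}} (π : X ⟶ Sp k)
    [LocallyOfFiniteType π] {x : X} (hx : IsClosed {x}) {V : X.Opens} (hV : IsAffineOpen V)
    (hxV : x ∈ V) (s : X.presheaf.stalk x) :
    ∃ c : k, s - X.presheaf.germ V x hxV (coef π V c) ∈ maximalIdeal (X.presheaf.stalk x) := by
  let _ : Algebra k Γ(X, V) := (kmap π V).toAlgebra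
  have hft : Algebra.FiniteType k Γ(X, V) := kmap_finiteType π hV
  have hM := isMaximal hx hV hxV
  let _ : Algebra Γ(X, V) (X.presheaf.stalk x) := (X.presheaf.germ V x hxV).hom.toAlgebra
  have hloc : IsLocalization.AtPrime (X.presheaf.stalk x)
      (hV.primeIdealOf ⟨x, hxV⟩).asIdeal := hV.isLocalization_stalk ⟨x, hxV⟩
  set P := (hV.primeIdealOf ⟨x, hxV⟩).asIdeal with hP
  obtain ⟨⟨a, t⟩, hat⟩ := IsLocalization.surj P.primeCompl s
  obtain ⟨ca, hca⟩ := exists_sub_mem (k := k) P a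
  obtain ⟨ct, hct⟩ := exists_sub_mem (k := k) P (t : Γ(X, V))
  have hct0 : ct ≠ 0 := by
    rintro rfl
    rw [map_zero, sub_zero] at hct
    exact t.2 hct
  refine ⟨ca / ct, ?_⟩
  have hco : ∀ c : k, coef π V c = algebraMap k Γ(X, V) c := fun c => by
    rw [coef_eq]
    rfl
  have htu : IsUnit (algebraMap Γ(X, V) (X.presheaf.stalk x) (t : Γ(X, V))) :=
    IsLocalization.map_units _ t
  rw [← Ideal.mul_unit_mem_iff_mem _ htu, sub_mul, hat]
  have h2 : X.presheaf.germ V x hxV (coef π V (ca / ct)) =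
      algebraMap Γ(X, V) (X.presheaf.stalk x) (algebraMap k Γ(X, V) (ca / ct)) := by
    rw [hco]
    rfl
  rw [h2, ← map_mul, ← map_sub, ← Ideal.mem_comap]
  have h3 : (maximalIdeal (X.presheaf.stalk x)).comap
      (algebraMap Γ(X, V) (X.presheaf.stalk x)) = P :=
    IsLocalization.AtPrime.under_maximalIdeal (X.presheaf.stalk x) P
  rw [h3]
  have h4 : a - algebraMap k Γ(X, V) (ca / ct) * (t : Γ(X, V)) =
      (a - algebraMap k Γ(X, V) ca) -
        algebraMap k Γ(X, V) (ca / ct) * ((t : Γ(X, V)) - algebraMap k Γ(X, V) ct) := by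
    rw [mul_sub, ← map_mul, div_mul_cancel₀ _ hct0]
    ring
  rw [h4]
  exact sub_mem hca (P.mul_mem_left _ hct)

end VAL_

theorem t_VAL : Stmt_VAL := by
  intro k _ _ X π _ x hx
  obtain ⟨V, hV, hxV, -⟩ := exists_isAffineOpen_mem_and_subset (x := x) (U := (⊤ : X.Opens)) trivial
  let γ : k →+* X.presheaf.stalk x := (X.presheaf.germ V x hxV).hom.comp (coef π V)
  have hbij : Function.Bijective ((residue (X.presheaf.stalk x)).comp γ) := by
    refine ⟨RingHom.injective _, fun y => ?_⟩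
    obtain ⟨s, rfl⟩ := residue_surjective y
    obtain ⟨c, hc⟩ := VAL_.exists_const π hx hV hxV s
    refine ⟨c, ?_⟩
    have h1 := (residue_eq_zero_iff _).2 hc
    rw [map_sub, sub_eq_zero] at h1
    exact h1.symm
  let E := RingEquiv.ofBijective _ hbij
  refine ⟨(E.symm : ResidueField (X.presheaf.stalk x) →+* k).comp
    (residue (X.presheaf.stalk x)), ?_, ?_⟩
  · ext s
    rw [RingHom.mem_ker, RingHom.comp_apply, ← residue_eq_zero_iff]
    exact map_eq_zero_iff (E.symm : ResidueField (X.presheaf.stalk x) →+* k) E.symm.injective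
  · intro U hU c
    rw [VAL_.germ_coef π hU hxV c]
    have h1 : E c = residue (X.presheaf.stalk x) (X.presheaf.germ V x hxV (coef π V c)) := rfl
    rw [RingHom.comp_apply, ← h1]
    exact E.symm_apply_apply c

end Pool.Agent.MG.WL.CL
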