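import Pool.Agent.MG.WL.CL.StmtsC

/-!
# VF: a vector field from a map of the local ring at one generic point
-/

open CategoryTheory AlgebraicGeometry IsLocalRing TopologicalSpace
open Pool.Agent.MG.Two Pool.Agent.MG.W Pool.Agent.MG.W.W0 Pool.Agent.MG.One

namespace Pool.Agent.MG.WL.CL

namespace VF_

/-- A generic point generates an irreducible component. -/
lemma closure_gen {X : Scheme.{0}} {y : X} (hy : Gen y) :
    closure ({y} : Set X) ∈ irreducibleComponents X := by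
  obtain ⟨Z, hZ, hyZ⟩ := exists_mem_irreducibleComponents_subset_of_isIrreducible
    (closure ({y} : Set X)) isIrreducible_singleton.closure
  have hZc : IsClosed Z := isClosed_of_mem_irreducibleComponents Z hZ
  obtain ⟨z, hz⟩ := QuasiSober.sober hZ.1 hZc
  have h1 : z ⤳ y := by
    rw [specializes_iff_mem_closure, hz.def]
    exact hyZ (subset_closure rfl)
  have h2 := hy z h1
  rw [← h2, hz.def]
  exact hZ

/-- A small neighbourhood: all its generic points specialise to `x`. -/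
lemma nbhd {X : Scheme.{0}} [NoetherianSpace X] (x : X) :
    ∃ N : X.Opens, x ∈ N ∧ ∀ y ∈ N, Gen y → y ⤳ x := by
  have hfin : ({Z ∈ irreducibleComponents X | x ∉ Z} : Set (Set X)).Finite :=
    (NoetherianSpace.finite_irreducibleComponents (α := X)).subset (fun Z h => h.1)
  refine ⟨⟨(⋃ Z ∈ ({Z ∈ irreducibleComponents X | x ∉ Z} : Set (Set X)), Z)ᶜ, ?_⟩, ?_, ?_⟩
  · rw [isOpen_compl_iff]
    exact hfin.isClosed_biUnion fun Z h => isClosed_of_mem_irreducibleComponents Z h.1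
  · change x ∉ ⋃ Z ∈ ({Z ∈ irreducibleComponents X | x ∉ Z} : Set (Set X)), Z
    intro h
    simp only [Set.mem_iUnion] at h
    obtain ⟨Z, hZ, hx⟩ := h
    exact hZ.2 hx
  · intro y hyN hy
    rw [specializes_iff_mem_closure]
    by_contra hx
    apply hyN
    simp only [Set.mem_iUnion]
    exact ⟨closure {y}, ⟨closure_gen hy, hx⟩, subset_closure rfl⟩

/-- Good sections. -/
structure Gd {X : Scheme.{0}} (η : X) (D : X.presheaf.stalk η → X.presheaf.stalk η)
    (U : X.Opens) (a : Γ(X, U)) (N : X.Opens) (s : Γ(X, N)) : Prop where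
  le : N ≤ U
  e : ∀ h : η ∈ N, X.presheaf.germ N η h s = D (X.presheaf.germ U η (le h) a)
  o : ∀ (y : X) (h : y ∈ N), Gen y → y ≠ η → X.presheaf.germ N y h s = 0

lemma Gd.unique (hU : Stmt_UNQ) {X : Scheme.{0}} [IsReduced X] {η : X}
    {D : X.presheaf.stalk η → X.presheaf.stalk η} {U : X.Opens} {a : Γ(X, U)} {N : X.Opens}
    {s s' : Γ(X, N)} (h : Gd η D U a N s) (h' : Gd η D U a N s') : s = s' := by
  refine hU N s s' fun y hy hg => ?_
  by_cases hy' : y = η
  · subst hy'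
    rw [h.e hy, h'.e hy]
  · rw [h.o y hy hg hy', h'.o y hy hg hy']

lemma Gd.res {X : Scheme.{0}} {η : X}
    {D : X.presheaf.stalk η → X.presheaf.stalk η} {U : X.Opens} {a : Γ(X, U)} {N : X.Opens}
    {s : Γ(X, N)} (h : Gd η D U a N s) {N' : X.Opens} (i : N' ≤ N) :
    Gd η D U a N' (X.presheaf.map (homOfLE i).op s) where
  le := i.trans h.le
  e hη := (X.presheaf.germ_res_apply (homOfLE i) η hη s).trans (h.e (i hη))
  o y hy hg hne := (X.presheaf.germ_res_apply (homOfLE i) y hy s).trans (h.o y (i hy) hg hne)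

/-- Lifting a germ. -/
lemma lift {X : Scheme.{0}} [NoetherianSpace X] {η : X} (hη : Gen η)
    (D : X.presheaf.stalk η → X.presheaf.stalk η) (U : X.Opens) (a : Γ(X, U)) (x : X)
    (hx : x ∈ U) (g' : X.presheaf.stalk x)
    (h1 : ∀ h : η ⤳ x, X.presheaf.stalkSpecializes h g' =
      D (X.presheaf.stalkSpecializes h (X.presheaf.germ U x hx a)))
    (h2 : ∀ (y : X) (hy : y ⤳ x), Gen y → y ≠ η → X.presheaf.stalkSpecializes hy g' = 0) :
    ∃ (N : X.Opens) (hN : x ∈ N) (s : Γ(X, N)), X.presheaf.germ N x hN s = g' ∧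
      Gd η D U a N s := by
  obtain ⟨N₀, hx0, hN0⟩ := nbhd x
  obtain ⟨N₁, hx1, s₁, hs₁⟩ := X.presheaf.exists_germ_eq g'
  have hxN : x ∈ (N₁ ⊓ (N₀ ⊓ U) : X.Opens) := ⟨hx1, hx0, hx⟩
  have hs : X.presheaf.germ (N₁ ⊓ (N₀ ⊓ U)) x hxN
      (X.presheaf.map (homOfLE (inf_le_left : N₁ ⊓ (N₀ ⊓ U) ≤ N₁)).op s₁) = g' :=
    (X.presheaf.germ_res_apply _ x hxN s₁).trans hs₁
  refine ⟨N₁ ⊓ (N₀ ⊓ U), hxN,
    X.presheaf.map (homOfLE (inf_le_left : N₁ ⊓ (N₀ ⊓ U) ≤ N₁)).op s₁, hs,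
    ⟨inf_le_right.trans inf_le_right, fun h => ?_, fun y hy hg hne => ?_⟩⟩
  · have hsp : η ⤳ x := hN0 η h.2.1 hη
    have e1 := h1 hsp
    rw [← hs, TopCat.Presheaf.germ_stalkSpecializes_apply,
      TopCat.Presheaf.germ_stalkSpecializes_apply] at e1
    exact e1
  · have hsp : y ⤳ x := hN0 y hy.2.1 hg
    have e1 := h2 y hsp hg hne
    rw [← hs, TopCat.Presheaf.germ_stalkSpecializes_apply] at e1
    exact e1

/-- The global good section. -/
lemma exists_good (hU : Stmt_UNQ) {X : Scheme.{0}} [IsReduced X] [NoetherianSpace X] (η : X)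
    (hη : Gen η) (D : X.presheaf.stalk η → X.presheaf.stalk η)
    (hD : ∀ (x : X) (h : η ⤳ x) (g : X.presheaf.stalk x), ∃ g' : X.presheaf.stalk x,
      X.presheaf.stalkSpecializes h g' = D (X.presheaf.stalkSpecializes h g) ∧
      ∀ (y : X) (hy : y ⤳ x), Gen y → y ≠ η → X.presheaf.stalkSpecializes hy g' = 0)
    (U : X.Opens) (a : Γ(X, U)) : ∃ t : Γ(X, U), Gd η D U a U t := by
  have hloc : ∀ x : U, ∃ (N : X.Opens) (_ : x.1 ∈ N) (s : Γ(X, N)), Gd η D U a N s := by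
    intro x
    by_cases hsp : η ⤳ x.1
    · obtain ⟨g', h1, h2⟩ := hD x.1 hsp (X.presheaf.germ U x.1 x.2 a)
      obtain ⟨N, hN, s, -, hs⟩ := lift hη D U a x.1 x.2 g' (fun _ => h1) h2
      exact ⟨N, hN, s, hs⟩
    · obtain ⟨N, hN, s, -, hs⟩ := lift hη D U a x.1 x.2 0 (fun h => absurd h hsp)
        (fun y hy _ _ => map_zero _)
      exact ⟨N, hN, s, hs⟩
  choose N hxN s hs using hloc
  obtain ⟨t, ht, -⟩ := X.sheaf.existsUnique_gluing' N U
    (fun x => homOfLE (hs x).le)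
    (fun y hy => by
      simp only [Opens.mem_iSup]
      exact ⟨⟨y, hy⟩, hxN ⟨y, hy⟩⟩) s
    (fun x y => Gd.unique hU ((hs x).res inf_le_left) ((hs y).res inf_le_right))
  refine ⟨t, le_rfl, fun h => ?_, fun y hy hg hne => ?_⟩
  · have h1 := ht ⟨η, h⟩
    have h2 : X.presheaf.germ (N ⟨η, h⟩) η (hxN ⟨η, h⟩)
        (X.presheaf.map (homOfLE (hs ⟨η, h⟩).le).op t) = X.presheaf.germ U η h t :=
      X.presheaf.germ_res_apply _ η _ t
    rw [← h2]
    exact (congrArg (X.presheaf.germ (N ⟨η, h⟩) η (hxN ⟨η, h⟩)) h1).trans ((hs ⟨η, h⟩).e _)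
  · have h1 := ht ⟨y, hy⟩
    have h2 : X.presheaf.germ (N ⟨y, hy⟩) y (hxN ⟨y, hy⟩)
        (X.presheaf.map (homOfLE (hs ⟨y, hy⟩).le).op t) = X.presheaf.germ U y hy t :=
      X.presheaf.germ_res_apply _ y _ t
    rw [← h2]
    exact (congrArg (X.presheaf.germ (N ⟨y, hy⟩) y (hxN ⟨y, hy⟩)) h1).trans
      ((hs ⟨y, hy⟩).o _ _ hg hne)

end VF_

open VF_ in
theorem t_VF (hU : Stmt_UNQ) : Stmt_VF := by
  intro X _ _ η hη D hD
  choose F hF using fun U a => exists_good hU η hη D hD U a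
  have key : ∀ (U : X.Opens) (x : X) (hx : x ∈ U) (a : Γ(X, U)) (g' : X.presheaf.stalk x),
      (∀ h : η ⤳ x, X.presheaf.stalkSpecializes h g' =
        D (X.presheaf.stalkSpecializes h (X.presheaf.germ U x hx a))) →
      (∀ (y : X) (hy : y ⤳ x), Gen y → y ≠ η → X.presheaf.stalkSpecializes hy g' = 0) →
      X.presheaf.germ U x hx (F U a) = g' := by
    intro U x hx a g' h1 h2
    obtain ⟨N, hN, s, hs, hG⟩ := lift hη D U a x hx g' h1 h2
    have e1 := Gd.unique hU ((hF U a).res hG.le) hG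
    have e2 : X.presheaf.germ N x hN (X.presheaf.map (homOfLE hG.le).op (F U a)) =
        X.presheaf.germ U x hx (F U a) := X.presheaf.germ_res_apply _ x hN _
    rw [← e2, e1, hs]
  refine ⟨F, fun U hηU a => (hF U a).e hηU, fun U y hy hg hne a => (hF U a).o y hy hg hne,
    fun U x hx a hsp => key U x hx a 0 (fun h => absurd h hsp) (fun y hy _ _ => map_zero _),
    fun U x hx a h g' h1 h2 => key U x hx a g' (fun _ => h1) h2⟩

end Pool.Agent.MG.WL.CL
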