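import Pool.Agent.MG.WL.CL.Fin
import Pool.Agent.MG.WL.CL.L
import Pool.Agent.MG.WL.CL.LS
import Pool.Agent.MG.WL.CL.UNQ
import Pool.Agent.MG.WL.CL.GSP
import Pool.Agent.MG.WL.CL.MPC
import Pool.Agent.MG.WL.CL.VF
import Pool.Agent.MG.WL.CL.CE
import Pool.Agent.MG.WL.CL.EXT
import Pool.Agent.MG.WL.CL.CNT0
import Pool.Agent.MG.WL.CL.NAFF
import Pool.Agent.MG.WL.CL.DFIN
import Pool.Agent.MG.WL.CL.VAL
import Pool.Agent.MG.WL.CL.NGEO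
import Pool.Agent.MG.WL.CL.CNT
import Pool.Agent.MG.WL.CL.ARITH
import Pool.Agent.MG.WL.CL.AFC
import Pool.Agent.MG.WL.CL.CHT
import Pool.Agent.MG.WL.CL.POLE
import Pool.Agent.MG.WL.CL.FIN
import Pool.Agent.MG.WL.CL.TRS
import Pool.Agent.MG.WL.CL.GEN0
import Pool.Agent.MG.WL.CL.DER
import Pool.Agent.MG.WL.CL.P1
import Pool.Agent.MG.WL.CL.INT
import Pool.Agent.MG.WL.CL.CUSP
import Pool.Agent.MG.WL.CL.SMP

/-!
# Stable one-pointed curves of genus one are Weierstrass curves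
-/

namespace Pool.Agent.MG.WL.CL

/-- CL. -/
theorem t_CL : Stmt_CL := by
  have hM : Stmt_MPC := t_MPC t_GSP
  have hD : Stmt_DFIN := t_DFIN t_GSP hM
  have hV : Stmt_VF := t_VF t_UNQ
  have hE : Stmt_CE := t_CE t_LS t_GSP hM
  have hN : Stmt_NGEO := t_NGEO t_UNQ t_GSP hM
  have hP : Stmt_POLE := t_POLE t_AFC
  have hC : Stmt_CNT := t_CNT t_CNT0 t_NAFF hD t_VAL hN hE
  have hG : Stmt_GEN0 := t_GEN0 t_VAL
  have h1 : Stmt_P1 := t_P1 t_CHT hP t_FIN hG t_DER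
  have h2 : Stmt_EXT := t_EXT t_UNQ t_GSP hM hV
  have h3 : Stmt_INT := t_INT t_CHT hP t_FIN t_TRS
  have h4 : Stmt_CUSP := t_CUSP t_UNQ hV
  exact @cl_of @t_L @hC @hD @t_ARITH @h1 @h2 @h3 @h4 @t_SMP

end Pool.Agent.MG.WL.CL
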