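import Pool.Agent.MG.WL.CL.StmtsC

/-!
# Stable one-pointed curves of genus one are Weierstrass curves: assembly
-/

open CategoryTheory CategoryTheory.Limits AlgebraicGeometry TopologicalSpace IsLocalRing

namespace Pool.Agent.MG.WL.CL

open Pool.Agent.MG.Two Pool.Agent.MG.W Pool.Agent.MG.W.W0 Pool.Agent.MG.GLU Pool.Agent.MG.One

namespace Fin_

theorem isReduced_of {X : Scheme.{0}} (h : NodeLocs X) : IsReduced X := by
  have : ∀ x : X, _root_.IsReduced (X.presheaf.stalk x) := fun x => (h x).red
  exact isReduced_of_isReduced_stalk X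

theorem isIntegral_of {X : Scheme.{0}} (h : NodeLocs X) [IrreducibleSpace X] : IsIntegral X := by
  have := isReduced_of h
  exact isIntegral_of_irreducibleSpace_of_isReduced X

theorem dim1_of {X : Scheme.{0}} (h : NodeLocs X) [IsIntegral X] : Dim1 X := by
  intro x P hP
  rcases (h x).dim P hP with h1 | h1
  · left
    have h2 : minimalPrimes (X.presheaf.stalk x) = {⊥} := IsDomain.minimalPrimes_eq_singleton_bot _
    rw [h2] at h1
    exact h1
  · exact Or.inr h1

theorem isClosed_section {X : Scheme.{0}} {k : Type} [Field k] (π : X ⟶ Sp k) [IsSeparated π]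
    (σ : Sp k ⟶ X) (hσ : σ ≫ π = 𝟙 _) (q : Sp k) : IsClosed ({σ q} : Set X) := by
  have h1 : IsClosedImmersion (σ ≫ π) := by
    rw [hσ]
    infer_instance
  have h2 : IsClosedImmersion σ := IsClosedImmersion.of_comp σ π
  have h3 := σ.isClosedEmbedding.isClosed_range
  have h4 : Set.range σ = {σ q} := by
    ext x
    constructor
    · rintro ⟨y, rfl⟩
      have : y = q := Subsingleton.elim (α := PrimeSpectrum k) y q
      rw [this]
      rfl
    · rintro rfl
      exact ⟨q, rfl⟩
  rw [← h4]
  exact h3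

/-- The generic point of a component. -/
theorem range_le {E X : Scheme.{0}} (ι : E ⟶ X) [IsIntegral E] (Z : Set X) (hZ : IsClosed Z)
    (h : ι (genericPoint E) ∈ Z) : Set.range ι ⊆ Z := by
  rintro _ ⟨y, rfl⟩
  have h1 : genericPoint E ⤳ y := genericPoint_specializes y
  have h2 : ι (genericPoint E) ⤳ ι y := h1.map ι.continuous
  exact h2.mem_closed hZ h

end Fin_

open Fin_

/-- Assembly. -/
theorem cl_of (hL : Stmt_L) (hCNT : Stmt_CNT) (hDF : Stmt_DFIN) (hAR : Stmt_ARITH)
    (hP1 : Stmt_P1) (hEXT : Stmt_EXT) (hINT : Stmt_INT) (hCUSP : Stmt_CUSP) (hSMP : Stmt_SMP) :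
    Stmt_CL := by
  intro k _ _ _ C hC
  have hprop : IsProper C.π := hC.proper
  have hid : spMap (RingHom.id k) = 𝟙 (Sp k) := by simp
  have hst : StableCurve 1 C := hC.fib k (RingHom.id k) C ⟨{
    f := 𝟙 C.X
    cart := by
      rw [hid]
      exact IsPullback.of_id_fst
    sec := fun i => by rw [hid, Category.comp_id, Category.id_comp] }⟩
  have hcon : ConnectedSpace C.X := hst.connected
  have hNL : NodeLocs C.X := hL C.π hst.nodal
  let q : Sp k := (⊥ : PrimeSpectrum k)
  have hregs : ∀ q : Sp k, IsDomain (C.X.presheaf.stalk (C.σ 0 q)) ∧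
      IsPrincipalIdealRing (C.X.presheaf.stalk (C.σ 0 q)) := by
    intro q
    obtain ⟨U, hqU, hsm⟩ := hst.smooth 0 q
    exact hSMP C.π hst.nodal U hsm _ hqU
  have hnoe : NoetherianSpace C.X := by
    have h1 : IsLocallyNoetherian C.X := LocallyOfFiniteType.isLocallyNoetherian C.π
    have h2 : CompactSpace C.X := by
      exact QuasiCompact.compactSpace_of_compactSpace C.π
    have h3 : IsNoetherian C.X := {}
    infer_instance
  obtain ⟨hDfin, hDcl, hDdom, hDtwo⟩ := hDF hNL
  by_cases hirr : IrreducibleSpace C.X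
  · have hint : IsIntegral C.X := isIntegral_of hNL
    obtain ⟨a, b, f, hf⟩ := hINT C hprop (dim1_of hNL) hst.genus (fun q => (hregs q).2)
    refine ⟨a, b, ?_, f, hf⟩
    by_contra hab
    push Not at hab
    obtain ⟨rfl, rfl⟩ := hab
    have hne' : Nonempty (Wei (WZ (0 : k) 0)).X := ⟨f.f (genericPoint C.X)⟩
    have hint' : IsIntegral (Wei (WZ (0 : k) 0)).X := isIntegral_of_isOpenImmersion (inv f.f)
    have hst' : StableCurve 1 (Wei (WZ (0 : k) 0)) :=
      hC.fib k (RingHom.id k) _ ⟨{
        f := inv f.f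
        cart := by
          have hiso' : IsIso (spMap (RingHom.id k)) := by
            rw [hid]
            infer_instance
          have hw : inv f.f ≫ C.π = (Wei (WZ (0 : k) 0)).π ≫ spMap (RingHom.id k) := by
            rw [IsIso.inv_comp_eq]
            have := f.cart.w
            rw [hid, Category.comp_id] at this ⊢
            exact this.symm
          exact IsPullback.of_horiz_isIso ⟨hw⟩
        sec := fun i => by
          have := f.sec i
          rw [hid, Category.id_comp] at this ⊢
          rw [← this, Category.assoc, IsIso.hom_inv_id, Category.comp_id] }⟩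
    obtain ⟨v, U, hv⟩ := hCUSP hint'
    exact hv (hst'.rigid v U)
  · exfalso
    have hs : C.σ 0 q ∉ dbl C.X := fun h => hDdom _ h (hregs q).1
    obtain ⟨Z, hZ, ⟨E, ι, hι, hran, hg0⟩, hne, hcard⟩ := hAR (dbl C.X) (Good C.π) (C.σ 0 q) hDfin
      (fun x => Iff.rfl) hDtwo (hCNT C.π hst.nodal hNL hst.genus) hs hirr
    have hEint : IsIntegral E := hι.int
    have hcl : IsClosedImmersion ι := hι.cl
    have hprE : IsProper (ι ≫ C.π) := inferInstance
    have hinj : Function.Injective ι := ι.isClosedEmbedding.injective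
    let S : Set E := ι ⁻¹' (dbl C.X ∪ {C.σ 0 q})
    have hSfin : S.Finite := (hDfin.union (Set.finite_singleton _)).preimage hinj.injOn
    have hSim : ι '' S = Z ∩ (dbl C.X ∪ {C.σ 0 q}) := by
      rw [Set.image_preimage_eq_inter_range, hran, Set.inter_comm]
    have hScard : S.ncard ≤ 2 := by
      rw [← Set.ncard_image_of_injective S hinj, hSim]
      exact hcard
    have hgenZ : ∀ Z' ∈ irreducibleComponents C.X, ι (genericPoint E) ∈ Z' → Z' = Z := by
      intro Z' hZ' h
      have h1 : Set.range ι ⊆ Z' :=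
        range_le ι Z' (isClosed_of_mem_irreducibleComponents Z' hZ') h
      rw [hran] at h1
      exact Set.Subset.antisymm (hZ.2 hZ'.1 h1) h1
    have hSgen : ∀ x ∈ S, x ≠ genericPoint E := by
      rintro x (hx | hx) rfl
      · obtain ⟨Z₁, h1, Z₂, h2, h12, hm1, hm2⟩ := hx
        exact h12 ((hgenZ Z₁ h1 hm1).trans (hgenZ Z₂ h2 hm2).symm)
      · have hx' : ι (genericPoint E) = C.σ 0 q := hx
        have h1 : Set.range ι ⊆ {C.σ 0 q} :=
          range_le ι _ (isClosed_section C.π _ (C.sec 0) q) hx'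
        obtain ⟨d, hdZ, hdD⟩ := hne
        rw [hran] at h1
        have h2 : d = C.σ 0 q := h1 hdZ
        exact hs (h2 ▸ hdD)
    have hSne : S.Nonempty := by
      obtain ⟨d, hdZ, hdD⟩ := hne
      rw [← hran] at hdZ
      obtain ⟨y, rfl⟩ := hdZ
      exact ⟨y, Or.inl hdD⟩
    obtain ⟨δ, hδ, hδ0, hδS⟩ := hP1 (ι ≫ C.π) hι.dim hg0 hι.pir S hSfin hScard hSgen hSne
    obtain ⟨v, U, hv⟩ := hEXT C hprop hst.nodal hNL q ι hι δ hδ
      (fun y hy => hδS y (Or.inl hy)) (fun y hy => hδS y (Or.inr hy)) hδ0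
    exact hv (hst.rigid v U)

end Pool.Agent.MG.WL.CL
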