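import Pool.Agent.MG.WL.CL.StmtsC

/-!
# Integral curves of genus one with a regular marked point: ring data and the chart at infinity
-/

open CategoryTheory CategoryTheory.Limits AlgebraicGeometry TensorProduct TopologicalSpace

namespace Pool.Agent.MG.WL.CL.INT_

open Pool.Agent.MG.Two Pool.Agent.MG.W Pool.Agent.MG.W.W0

variable {X : Scheme.{0}} {k : Type} [Field k] {π : X ⟶ Sp k} {σ : Sp k ⟶ X} {q : Sp k}

/-- The ring data of a curve of genus one. -/
theorem exists_AD [IsIntegral X] [IsAlgClosed k] [IsProper π]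
    (hg : HasGenus π 1) (hσ : σ ≫ π = 𝟙 _) (hgen : σ q ≠ genericPoint X) (G : GD (π := π) σ q)
    (hWb : G.V ⊓ G.U = X.basicOpen G.z) :
    ∃ D : AD k Γ(X, G.V) Γ(X, G.U) Γ(X, G.V ⊓ G.U), D.c1 = coef π G.V ∧ D.c2 = coef π G.U ∧
      D.j1 = rs X inf_le_left ∧ D.j2 = rs X inf_le_right ∧ D.z = G.z ∧
      D.ev = evs σ G.U G.leU := by
  have hV : Nonempty G.V := ⟨⟨genericPoint X, (G.mV _).2 (Ne.symm hgen)⟩⟩
  have hU : Nonempty G.U := ⟨⟨σ q, G.mU⟩⟩
  have hW : Nonempty (G.V ⊓ G.U : X.Opens) := nonempty_inf hV hU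
  have hpV : σ q ∉ G.V := fun h => (G.mV _).1 h rfl
  have hu : IsUnit (rs X (inf_le_right : G.V ⊓ G.U ≤ G.U) G.z) :=
    unit_aux G.z inf_le_right hWb
  obtain ⟨zi, hzi⟩ := hu.exists_right_inv
  obtain ⟨L, hLs, hLc, hL0⟩ := t_COVI π 1 hg G.V G.U G.aV G.aU G.cover
  exact ⟨{
    c1 := coef π G.V
    c2 := coef π G.U
    c12 := coef π (G.V ⊓ G.U)
    j1 := rs X inf_le_left
    j2 := rs X inf_le_right
    jc1 := coef_rs π _
    jc2 := coef_rs π _
    inj1 := map_injective_of_isIntegral X (homOfLE (inf_le_left : G.V ⊓ G.U ≤ G.V))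
    inj2 := map_injective_of_isIntegral X (homOfLE (inf_le_right : G.V ⊓ G.U ≤ G.U))
    z := G.z
    zi := zi
    hz := hzi
    ev := evs σ G.U G.leU
    evc := evs_coef π σ hσ G.U G.leU
    evz := by
      rw [evs_eq_zero_iff _ _ _ _ q]
      exact (G.gz G.z).2 ⟨1, (mul_one _).symm⟩
    evk := fun r hr => by
      rw [evs_eq_zero_iff _ _ _ _ q] at hr
      exact (G.gz r).1 hr
    loc := loc_aux G.aU G.z inf_le_right hWb
    h0 := fun a b hab => const_of_agree π G.cover a b hab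
    L := fun r => L r 0
    Ladd := fun r s => by rw [map_add]; rfl
    Lc := fun c r => by rw [hLc]; rfl
    L0 := fun r => by
      rw [← hL0]
      constructor
      · intro h
        ext i
        rw [Subsingleton.elim i 0, h]
        rfl
      · intro h
        rw [h]
        rfl
    Ls := by
      obtain ⟨r, hr⟩ := hLs 1
      refine ⟨r, ?_⟩
      rw [hr]
      exact one_ne_zero }, rfl, rfl, rfl, rfl, rfl, rfl⟩


/-- The chart at infinity. -/
theorem exists_Inf [IsIntegral X] [IsAlgClosed k] [IsProper π] (hF : Stmt_FIN) (hdim : Dim1 X)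
    (hσ : σ ≫ π = 𝟙 _) (hgen : σ q ≠ genericPoint X) (hW : Stmt_WRG) (G : GD (π := π) σ q)
    {a b : k} (H : WG G a b)
    (hxy : ∀ c, H.x * H.y ≠ coef π G.V c) : Nonempty (Inf H) := by
  have hVne : Nonempty G.V := ⟨⟨genericPoint X, (G.mV _).2 (Ne.symm hgen)⟩⟩
  have hUne : Nonempty G.U := ⟨⟨σ q, G.mU⟩⟩
  have hWne : Nonempty (G.V ⊓ G.U : X.Opens) := nonempty_inf hVne hUne
  -- the elements of the function field
  obtain ⟨Xk, hXk⟩ : ∃ Xk, X.germToFunctionField G.V H.x = Xk := ⟨_, rfl⟩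
  obtain ⟨Yk, hYk⟩ : ∃ Yk, X.germToFunctionField G.V H.y = Yk := ⟨_, rfl⟩
  obtain ⟨Z, hZ⟩ : ∃ Z, X.germToFunctionField G.U G.z = Z := ⟨_, rfl⟩
  obtain ⟨S, hS⟩ : ∃ S, X.germToFunctionField G.U H.s = S := ⟨_, rfl⟩
  obtain ⟨T, hT⟩ : ∃ T, X.germToFunctionField G.U H.t = T := ⟨_, rfl⟩
  have k1 : Z ^ 2 * Xk = S := by
    have h := congrArg (X.germToFunctionField (G.V ⊓ G.U)) H.hs
    rwa [map_mul, map_pow, germ_rs, germ_rs, germ_rs, hZ, hXk, hS] at h
  have k2 : Z ^ 3 * Yk = T := by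
    have h := congrArg (X.germToFunctionField (G.V ⊓ G.U)) H.ht
    rwa [map_mul, map_pow, germ_rs, germ_rs, germ_rs, hZ, hYk, hT] at h
  have k3 : Yk ^ 2 = Xk ^ 3 + kfun π a * Xk + kfun π b := by
    have h := congrArg (X.germToFunctionField G.V) H.eq
    rwa [map_add, map_add, map_mul, map_pow, map_pow, germ_coef, germ_coef, hXk, hYk] at h
  have hs0 : H.s ≠ 0 := by
    intro h
    have := H.es
    rw [h, map_zero] at this
    exact zero_ne_one this
  have ht0 : H.t ≠ 0 := by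
    intro h
    have := H.et
    rw [h, map_zero] at this
    exact zero_ne_one this
  have hS0 : S ≠ 0 := by
    rw [← hS]
    intro h
    exact hs0 (X.germToFunctionField_injective G.U (by rw [h, map_zero]))
  have hT0 : T ≠ 0 := by
    rw [← hT]
    intro h
    exact ht0 (X.germToFunctionField_injective G.U (by rw [h, map_zero]))
  have hZ0 : Z ≠ 0 := by
    rintro rfl
    apply hS0
    rw [← k1]
    ring
  have hX0 : Xk ≠ 0 := by
    rintro rfl
    apply hS0
    rw [← k1, mul_zero]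
  have hY0 : Yk ≠ 0 := by
    rintro rfl
    apply hT0
    rw [← k2, mul_zero]
  -- regularity at `σ q`
  have oZ : Z ∈ O (σ q) := hZ ▸ germ_mem_O (σ q) G.mU G.z
  have oS : S ∈ O (σ q) := hS ▸ germ_mem_O (σ q) G.mU H.s
  have oT : T ∈ O (σ q) := hT ▸ germ_mem_O (σ q) G.mU H.t
  have oS' : S⁻¹ ∈ O (σ q) := by
    rw [← hS]
    apply inv_mem_O
    by_contra h
    have := H.es
    rw [(evs_eq_zero_iff _ _ _ _ q).2 h] at this
    exact zero_ne_one this
  have oT' : T⁻¹ ∈ O (σ q) := by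
    rw [← hT]
    apply inv_mem_O
    by_contra h
    have := H.et
    rw [(evs_eq_zero_iff _ _ _ _ q).2 h] at this
    exact zero_ne_one this
  have eX : Xk = S * (Z ^ 2)⁻¹ := by rw [← k1]; field_simp
  have eY : Yk = T * (Z ^ 3)⁻¹ := by rw [← k2]; field_simp
  -- the open set
  obtain ⟨g, hg⟩ : ∃ g, g = (Xk * Yk)⁻¹ := ⟨_, rfl⟩
  have gT : Transc π g := by
    apply transc_of
    intro c hc
    have h1 : Xk * Yk = kfun π c⁻¹ := by
      rw [map_inv₀, ← hc, hg, inv_inv]
    apply hxy c⁻¹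
    apply X.germToFunctionField_injective G.V
    rw [map_mul, hXk, hYk, germ_coef, h1]
  have ogq : g ∈ O (σ q) := by
    have : g = Z ^ 5 * S⁻¹ * T⁻¹ := by rw [hg, eX, eY]; field_simp
    rw [this]
    exact mul_mem (mul_mem (pow_mem oZ 5) oS') oT'
  have hgi : ∀ p ∈ G.V, p ∈ dom g⁻¹ := by
    intro p hp
    have h1 : g⁻¹ = X.germToFunctionField G.V (H.x * H.y) := by
      rw [hg, inv_inv, map_mul, hXk, hYk]
    rw [h1]
    exact germ_mem_O p hp _
  have aN : IsAffineOpen (dom g) := by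
    refine hF π hdim g gT fun p => ?_
    by_cases h : p = σ q
    · left
      rw [h]
      exact ogq
    · exact Or.inr (hgi p ((G.mV p).2 h))
  have oX : ∀ p ∈ G.V, Xk ∈ O p := fun p hp => hXk ▸ germ_mem_O p hp H.x
  have oY : ∀ p ∈ G.V, Yk ∈ O p := fun p hp => hYk ▸ germ_mem_O p hp H.y
  have gxy : X.germToFunctionField G.V (H.x * H.y) = Xk * Yk := by rw [map_mul, hXk, hYk]
  have hVN : G.V ⊓ dom g = X.basicOpen (H.x * H.y) := by
    apply le_antisymm
    · intro p hp
      apply mem_basicOpen_of_inv p hp.1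
      · rw [gxy]
        exact mul_ne_zero hX0 hY0
      · rw [gxy, ← hg]
        exact hp.2
    · intro p hp
      refine ⟨X.basicOpen_le _ hp, ?_⟩
      change g ∈ O p
      rw [hg, ← gxy]
      exact inv_mem_O p _ hp
  have hor : ∀ p, p = σ q ∨ p ∈ G.V := by
    intro p
    by_cases h : p = σ q
    · exact Or.inl h
    · exact Or.inr ((G.mV p).2 h)
  have oz : ∀ p ∈ dom g, Xk * Yk⁻¹ ∈ O p := by
    intro p hp
    rcases hor p with h | h
    · subst h
      have : Xk * Yk⁻¹ = Z * S * T⁻¹ := by rw [eX, eY]; field_simp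
      rw [this]
      exact mul_mem (mul_mem oZ oS) oT'
    · have : Xk * Yk⁻¹ = Xk ^ 2 * g := by rw [hg]; field_simp
      rw [this]
      exact mul_mem (pow_mem (oX p h) 2) (show g ∈ O p from hp)
  have ot : ∀ p ∈ dom g, Yk ^ 2 * (Xk ^ 3)⁻¹ ∈ O p := by
    intro p hp
    rcases hor p with h | h
    · subst h
      have : Yk ^ 2 * (Xk ^ 3)⁻¹ = T ^ 2 * S⁻¹ ^ 3 := by rw [eX, eY]; field_simp
      rw [this]
      exact mul_mem (pow_mem oT 2) (pow_mem oS' 3)
    · have : Yk ^ 2 * (Xk ^ 3)⁻¹ = Yk ^ 5 * g ^ 3 := by rw [hg]; field_simp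
      rw [this]
      exact mul_mem (pow_mem (oY p h) 5) (pow_mem (show g ∈ O p from hp) 3)
  obtain ⟨N, hN⟩ : ∃ N, N = dom g := ⟨_, rfl⟩
  rw [← hN] at aN hVN oz ot
  have mN : σ q ∈ N := by rw [hN]; exact ogq
  have hNne : Nonempty N := ⟨⟨σ q, mN⟩⟩
  have hVNne : Nonempty (G.V ⊓ N : X.Opens) := nonempty_inf hVne hNne
  have leN : ⊤ ≤ σ ⁻¹ᵁ N := top_le_of_mem σ _ q mN
  obtain ⟨zz, hzz⟩ := exists_sec _ oz
  obtain ⟨tt, htt⟩ := exists_sec _ ot
  have rel : tt = 1 + coef π N a * zz ^ 4 * tt ^ 2 + coef π N b * zz ^ 6 * tt ^ 3 := by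
    apply X.germToFunctionField_injective N
    rw [map_add, map_add, map_mul, map_mul, map_mul, map_mul, map_pow, map_pow, map_pow, map_pow,
      map_one, germ_coef, germ_coef, hzz, htt]
    field_simp
    linear_combination k3
  -- values at `σ q`
  have hUN : Nonempty (G.U ⊓ N : X.Opens) := nonempty_inf hUne hNne
  have leUN : ⊤ ≤ σ ⁻¹ᵁ (G.U ⊓ N) := top_le_of_mem σ _ q ⟨G.mU, mN⟩
  have hevz : evs σ G.U G.leU G.z = 0 := by
    rw [evs_eq_zero_iff _ _ _ _ q]
    exact (G.gz G.z).2 ⟨1, (mul_one _).symm⟩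
  have vz : evs σ N leN zz = 0 := by
    have r1 : rs X (inf_le_right : G.U ⊓ N ≤ N) zz * rs X (inf_le_left : G.U ⊓ N ≤ G.U) H.t =
        rs X inf_le_left G.z * rs X inf_le_left H.s := by
      apply X.germToFunctionField_injective (G.U ⊓ N)
      rw [map_mul, map_mul, germ_rs, germ_rs, germ_rs, germ_rs, hzz, hZ, hS, hT, eX, eY]
      field_simp
    have r2 := congrArg (evs σ _ leUN) r1
    rw [map_mul, map_mul, evs_rs σ _ leUN leN, evs_rs σ _ leUN G.leU, evs_rs σ _ leUN G.leU,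
      evs_rs σ _ leUN G.leU, H.es, H.et, hevz, mul_one, mul_one] at r2
    exact r2
  have vt : evs σ N leN tt = 1 := by
    have r1 : rs X (inf_le_right : G.U ⊓ N ≤ N) tt * rs X (inf_le_left : G.U ⊓ N ≤ G.U) H.s ^ 3 =
        rs X inf_le_left H.t ^ 2 := by
      apply X.germToFunctionField_injective (G.U ⊓ N)
      rw [map_mul, map_pow, map_pow, germ_rs, germ_rs, germ_rs, htt, hS, hT, eX, eY]
      field_simp
    have r2 := congrArg (evs σ _ leUN) r1
    rw [map_mul, map_pow, map_pow, evs_rs σ _ leUN leN, evs_rs σ _ leUN G.leU,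
      evs_rs σ _ leUN G.leU, H.es, H.et, one_pow, one_pow, mul_one] at r2
    exact r2
  -- the morphisms of rings
  obtain ⟨e2, he2⟩ : ∃ e2 : A2 k a b →+* Γ(X, N), e2 = lift2 (coef π N) zz tt rel := ⟨_, rfl⟩
  obtain ⟨θ, hθ⟩ : ∃ θ : A1 k a b →+* Γ(X, G.V), θ = lift1 (coef π G.V) H.x H.y H.eq := ⟨_, rfl⟩
  have θx : θ (x1 k a b) = H.x := by rw [hθ, lift1_x]
  have θy : θ (y1 k a b) = H.y := by rw [hθ, lift1_y]
  have θb : ∀ c, θ (algebraMap k _ c) = coef π G.V c := fun c => by rw [hθ, lift1_b]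
  have θbij : Function.Bijective θ := hθ ▸ H.bij
  have e2z : e2 (z2 k a b) = zz := by rw [he2, lift2_z]
  have e2t : e2 (t2 k a b) = tt := by rw [he2, lift2_t]
  have e2b : ∀ c, e2 (algebraMap k _ c) = coef π N c := fun c => by rw [he2, lift2_b]
  obtain ⟨ρ, hρ⟩ : ∃ ρ : Γ(X, G.V) →+* Γ(X, G.V ⊓ N), ρ = rs X inf_le_left := ⟨_, rfl⟩
  have ρinj : Function.Injective ρ := by
    rw [hρ]
    exact map_injective_of_isIntegral X (homOfLE (inf_le_left : G.V ⊓ N ≤ G.V))
  have ρ2inj : Function.Injective (rs X (inf_le_right : G.V ⊓ N ≤ N)) :=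
    map_injective_of_isIntegral X (homOfLE (inf_le_right : G.V ⊓ N ≤ N))
  have ρu : IsUnit (ρ (H.x * H.y)) := by
    rw [hρ]
    exact unit_aux _ _ hVN
  have ρg : ∀ v, X.germToFunctionField (G.V ⊓ N) (ρ v) = X.germToFunctionField G.V v := by
    intro v
    rw [hρ, germ_rs]
  have hu : IsUnit ((ρ.comp θ) (x1 k a b * y1 k a b)) := by
    rw [RingHom.comp_apply, map_mul, θx, θy]
    exact ρu
  obtain ⟨ψ, ψa⟩ : ∃ ψ : L1 k a b →+* Γ(X, G.V ⊓ N), ∀ v, ψ (algebraMap _ _ v) = ρ (θ v) :=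
    ⟨IsLocalization.Away.lift (x1 k a b * y1 k a b) (g := ρ.comp θ) hu,
      fun v => IsLocalization.Away.lift_eq _ _ _⟩
  have ψi : Function.Injective ψ := by
    rw [injective_iff_map_eq_zero]
    intro v hv
    obtain ⟨⟨w, ⟨_, n, rfl⟩⟩, hw⟩ := IsLocalization.surj (Submonoid.powers (x1 k a b * y1 k a b)) v
    have h1 : ρ (θ w) = 0 := by
      rw [← ψa, ← hw, map_mul, hv, zero_mul]
    have h2 : w = 0 := by
      apply θbij.1
      apply ρinj
      rw [h1, map_zero, map_zero]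
    rw [h2, map_zero] at hw
    have h3 : IsUnit (algebraMap (A1 k a b) (L1 k a b) ((x1 k a b * y1 k a b) ^ n)) := by
      rw [map_pow]
      exact (IsLocalization.Away.algebraMap_isUnit (x1 k a b * y1 k a b)).pow n
    exact h3.mul_left_eq_zero.1 hw
  have ψs : Function.Surjective ψ := by
    intro r
    obtain ⟨n, s, hs⟩ := loc_aux G.aV (H.x * H.y) (inf_le_left : G.V ⊓ N ≤ G.V) hVN r
    obtain ⟨w, hw⟩ := θbij.2 s
    obtain ⟨u, hu'⟩ := (IsLocalization.Away.algebraMap_isUnit (S := L1 k a b)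
      (x1 k a b * y1 k a b)).pow n
    refine ⟨algebraMap _ _ w * (u⁻¹ : (L1 k a b)ˣ).val, ?_⟩
    have h1 : ψ (u : L1 k a b) = ρ (H.x * H.y) ^ n := by
      rw [hu', map_pow, ψa, map_mul, θx, θy]
    apply (ρu.pow n).mul_left_cancel
    have h2 : ρ (H.x * H.y) ^ n * ψ (u⁻¹ : (L1 k a b)ˣ).val = 1 := by
      rw [← h1, ← map_mul, Units.mul_inv, map_one]
    have h3 : ψ (algebraMap _ _ w * (u⁻¹ : (L1 k a b)ˣ).val) =
        ρ s * ψ (u⁻¹ : (L1 k a b)ˣ).val := by rw [map_mul, ψa, hw]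
    rw [← hρ] at hs
    rw [h3, hs]
    linear_combination ρ s * h2
  have cinv : Function.Bijective (cmpInv k a b) := (cmpEquiv k a b).symm.bijective
  have h1 : ∀ v, ψ (cmpInv k a b (g1 k a b v)) = ρ (θ v) := by
    intro v
    have h := congrArg (fun f => f (algebraMap _ _ v)) (cmpInv_cmp k a b)
    change cmpInv k a b (cmp k a b (algebraMap _ _ v)) = algebraMap _ _ v at h
    rw [cmp_alg] at h
    rw [h, ψa]
  have gx : (X.germToFunctionField (G.V ⊓ N)).hom.comp ψ (xu k a b : L1 k a b) = Xk := by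
    change X.germToFunctionField (G.V ⊓ N) (ψ (algebraMap _ _ (x1 k a b))) = Xk
    rw [ψa, ρg, θx, hXk]
  have gy : (X.germToFunctionField (G.V ⊓ N)).hom.comp ψ (yu k a b : L1 k a b) = Yk := by
    change X.germToFunctionField (G.V ⊓ N) (ψ (algebraMap _ _ (y1 k a b))) = Yk
    rw [ψa, ρg, θy, hYk]
  have h2 : ∀ v, ψ (cmpInv k a b (g2 k a b v)) = rs X (inf_le_right : G.V ⊓ N ≤ N) (e2 v) := by
    have h : (ψ.comp (cmpInv k a b)).comp (g2 k a b) =
        (rs X (inf_le_right : G.V ⊓ N ≤ N)).comp e2 := by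
      refine hom2_ext ?_ ?_ ?_
      · intro c
        rw [RingHom.comp_apply, RingHom.comp_apply, RingHom.comp_apply, g2_b, ← g1_b, h1, θb, e2b,
          coef_rs, hρ, coef_rs]
      · apply X.germToFunctionField_injective (G.V ⊓ N)
        change X.germToFunctionField (G.V ⊓ N) (ψ (cmpInv k a b (zu k a b : A12 k a b))) =
          X.germToFunctionField (G.V ⊓ N) (rs X inf_le_right (e2 (z2 k a b)))
        have e := congrArg Units.val (cmpInv_zu k a b)
        change cmpInv k a b (zu k a b : A12 k a b) = _ at e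
        rw [e, e2z, germ_rs, hzz]
        change ((X.germToFunctionField (G.V ⊓ N)).hom.comp ψ) _ = _
        rw [Units.val_mul, map_mul, ring_inv, gx, gy]
      · apply X.germToFunctionField_injective (G.V ⊓ N)
        change X.germToFunctionField (G.V ⊓ N) (ψ (cmpInv k a b (tu k a b : A12 k a b))) =
          X.germToFunctionField (G.V ⊓ N) (rs X inf_le_right (e2 (t2 k a b)))
        have e := congrArg Units.val (cmpInv_tu k a b)
        change cmpInv k a b (tu k a b : A12 k a b) = _ at e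
        rw [e, e2t, germ_rs, htt]
        change ((X.germToFunctionField (G.V ⊓ N)).hom.comp ψ) _ = _
        rw [Units.val_mul, map_mul, Units.val_pow_eq_pow_val, Units.val_pow_eq_pow_val, map_pow,
          map_pow, ring_inv, gx, gy, inv_pow]
    exact fun v => congrArg (fun f => f v) h
  have e2i : Function.Injective e2 := by
    intro v w hvw
    apply (hW k a b).2.2.1
    apply cinv.1
    apply ψi
    rw [h2, h2, hvw]
  have hi : ∀ v, evs σ N leN (e2 v) = inf2 k a b v := by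
    have h : (evs σ N leN).comp e2 = inf2 k a b := by
      refine hom2_ext ?_ ?_ ?_
      · intro c
        rw [RingHom.comp_apply, e2b, evs_coef π σ hσ, inf2, lift2_b]
        rfl
      · rw [RingHom.comp_apply, e2z, vz, inf2, lift2_z]
      · rw [RingHom.comp_apply, e2t, vt, inf2, lift2_t]
    exact fun v => congrArg (fun f => f v) h
  have e2s : Function.Surjective e2 := by
    have key : ∀ (n : ℕ) (h : Γ(X, N)) (s : A2 k a b), zz ^ n * h = e2 s → ∃ v, e2 v = h := by
      intro n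
      induction n with
      | zero =>
        intro h s hs
        exact ⟨s, by rw [← hs, pow_zero, one_mul]⟩
      | succ n ih =>
        intro h s hs
        have hv : inf2 k a b s = 0 := by
          rw [← hi, ← hs, map_mul, map_pow, vz, pow_succ, mul_zero, zero_mul]
        have hm := (hW k a b).2.1 s
        rw [hv, map_zero, sub_zero] at hm
        obtain ⟨s', rfl⟩ := Ideal.mem_span_singleton.1 hm
        apply ih h s'
        have hz0 : zz ≠ 0 := by
          intro h0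
          rw [h0, map_zero] at hzz
          exact mul_ne_zero hX0 (inv_ne_zero hY0) hzz.symm
        apply mul_left_cancel₀ hz0
        rw [← e2z, ← map_mul, ← hs, ← e2z]
        ring
    intro h
    obtain ⟨v, hv⟩ := ψs (rs X inf_le_right h)
    obtain ⟨w, rfl⟩ := cinv.2 v
    obtain ⟨⟨s, ⟨_, n, rfl⟩⟩, hs⟩ := IsLocalization.surj (Submonoid.powers (z2 k a b)) w
    apply key n h s
    apply ρ2inj
    rw [map_mul, map_pow, ← hv, ← h2, ← e2z, ← h2, ← map_pow, ← map_pow, ← map_mul, ← map_mul]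
    congr 2
    rw [mul_comm]
    have hs' : w * algebraMap (A2 k a b) (A12 k a b) (z2 k a b ^ n) =
      algebraMap (A2 k a b) (A12 k a b) s := hs
    rw [map_pow] at hs'
    exact hs'
  exact ⟨{
    N := N
    aN := aN
    mN := mN
    leN := leN
    e2 := e2
    b2 := ⟨e2i, e2s⟩
    e12 := ψ.comp (cmpInv k a b)
    b12 := ⟨ψi.comp cinv.1, ψs.comp cinv.2⟩
    h1 := fun v => by rw [RingHom.comp_apply, h1, hρ, hθ]
    h2 := h2
    hc := e2b
    hi := hi }⟩

end Pool.Agent.MG.WL.CL.INT_
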