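import Pool.Agent.MG.Defs

/-!
# Local rings of nodal curves: statements
-/

open CategoryTheory AlgebraicGeometry IsLocalRing

namespace Pool.Agent.MG.WL.CL

/-- The properties of the local rings of a nodal curve: reduced, Noetherian, every prime ideal is
minimal or maximal, and if there are two minimal primes then these are all and their sum is the
maximal ideal. -/
structure NodeLoc (R : Type) [CommRing R] [IsLocalRing R] : Prop where
  red : IsReduced R
  noeth : IsNoetherianRing R
  dim : ∀ P : Ideal R, P.IsPrime → P ∈ minimalPrimes R ∨ P = maximalIdeal R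
  sum : ∀ P₁ ∈ minimalPrimes R, ∀ P₂ ∈ minimalPrimes R, P₁ ≠ P₂ → P₁ ⊔ P₂ = maximalIdeal R
  two : ∀ P₁ ∈ minimalPrimes R, ∀ P₂ ∈ minimalPrimes R, P₁ ≠ P₂ → ∀ P₃ ∈ minimalPrimes R,
    P₃ = P₁ ∨ P₃ = P₂

/-- L: the local rings of a nodal curve. -/
def Stmt_L : Prop :=
  ∀ {k : Type} [Field k] {X : Scheme.{0}} (π : X ⟶ Sp k), Nodal π →
    ∀ x : X, NodeLoc (X.presheaf.stalk x)

/-- LS: every point of a nodal curve is in the closure of points with the following property
arbitrarily ...: every nonempty open subset contains a nonempty open subset which is smooth over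
`k`. -/
def Stmt_LS : Prop :=
  ∀ {k : Type} [Field k] {X : Scheme.{0}} (π : X ⟶ Sp k), Nodal π → ∀ W : X.Opens, Nonempty W →
    ∃ V : X.Opens, Nonempty V ∧ V ≤ W ∧
      ∀ x ∈ V, IsDomain (X.presheaf.stalk x) ∧ IsPrincipalIdealRing (X.presheaf.stalk x)

end Pool.Agent.MG.WL.CL
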