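import Pool.Agent.MG.WL.CL.Loc
import Pool.Agent.MG.WL.CL.StmtsL
import Pool.Agent.MG.TwoSmB

/-!
# Local rings of nodal curves: descent along flat unramified local homomorphisms
-/

open IsLocalRing TensorProduct

namespace Pool.Agent.MG.WL.CL

section

variable {R S : Type} [CommRing R] [IsLocalRing R] [CommRing S] [IsLocalRing S] [Algebra R S]

theorem EU.inj (h : EU R S) : Function.Injective (algebraMap R S) := by
  rw [RingHom.injective_iff_ker_eq_bot]
  have := h.comap_map ⊥
  rw [Ideal.map_bot] at this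
  exact this

theorem EU.noeth_down (h : EU R S) [IsNoetherianRing S] : IsNoetherianRing R := by
  have h1 : StrictMono (fun I : Ideal R => I.map (algebraMap R S)) := by
    refine Monotone.strictMono_of_injective (fun I J hIJ => Ideal.map_mono hIJ) ?_
    intro I J hIJ
    rw [← h.comap_map I, ← h.comap_map J]
    exact congrArg _ hIJ
  have h2 : WellFoundedGT (Ideal S) := inferInstance
  have h3 : WellFoundedGT (Ideal R) := h1.wellFoundedGT
  exact isNoetherian_iff'.2 h3

/-- The quotient by an ideal of the source. -/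
theorem EU.quot (h : EU R S) (I : Ideal R) [IsLocalRing (R ⧸ I)]
    [IsLocalRing (S ⧸ I.map (algebraMap R S))] :
    EU (R ⧸ I) (S ⧸ I.map (algebraMap R S)) := by
  have h1 := h.loc
  have h2 := h.flat
  have h3 := h.unr
  have h4 := h.ess
  refine ⟨?_, ?_, ?_, ?_⟩
  · have h5 : (algebraMap (R ⧸ I) (S ⧸ I.map (algebraMap R S))).comp (Ideal.Quotient.mk I) =
        (Ideal.Quotient.mk (I.map (algebraMap R S))).comp (algebraMap R S) := by
      ext x
      rfl
    have h6 : IsLocalHom ((algebraMap (R ⧸ I) (S ⧸ I.map (algebraMap R S))).comp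
        (Ideal.Quotient.mk I)) := by
      rw [h5]
      have : IsLocalHom (Ideal.Quotient.mk (I.map (algebraMap R S))) :=
        IsLocalHom.of_surjective _ Ideal.Quotient.mk_surjective
      infer_instance
    constructor
    intro a ha
    obtain ⟨a, rfl⟩ := Ideal.Quotient.mk_surjective a
    exact (h6.map_nonunit a ha).map _
  · exact Module.Flat.of_linearEquiv
      (Algebra.TensorProduct.quotIdealMapEquivQuotTensor S I).toLinearEquiv
  · exact inferInstance
  · exact inferInstance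

/-- The extension of a minimal prime. -/
theorem EU.map_min (h : EU R S) (hS : NodeLoc S) (P : Ideal R) (hP : P ∈ minimalPrimes R)
    (Q : Ideal S) (hQ : Q ∈ minimalPrimes S) (hQP : Q.comap (algebraMap R S) = P)
    (huniq : ∀ Q' ∈ minimalPrimes S, Q'.comap (algebraMap R S) = P → Q' = Q) :
    P.map (algebraMap R S) = Q := by
  have hPp : P.IsPrime := hP.1.1
  have hQp : Q.IsPrime := hQ.1.1
  have hle : P.map (algebraMap R S) ≤ Q := by
    rw [Ideal.map_le_iff_le_comap, hQP]
  have hn : Nontrivial (R ⧸ P) := Ideal.Quotient.nontrivial_iff.2 hPp.ne_top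
  have hn' : Nontrivial (S ⧸ P.map (algebraMap R S)) := Ideal.Quotient.nontrivial_iff.2
    (fun h1 => hQp.ne_top (top_le_iff.1 (h1 ▸ hle)))
  have h1 : IsLocalRing (R ⧸ P) := IsLocalRing.of_surjective' (Ideal.Quotient.mk P)
    Ideal.Quotient.mk_surjective
  have h2 : IsLocalRing (S ⧸ P.map (algebraMap R S)) :=
    IsLocalRing.of_surjective' (Ideal.Quotient.mk _) Ideal.Quotient.mk_surjective
  have h3 : IsReduced (S ⧸ P.map (algebraMap R S)) := (h.quot P).red
  have h4 : (P.map (algebraMap R S)).IsRadical := by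
    rw [Ideal.isRadical_iff_quotient_reduced]
    exact h3
  refine le_antisymm hle ?_
  rw [← h4.radical, Ideal.radical_eq_sInf]
  refine le_sInf ?_
  rintro J ⟨hJ, hJp⟩
  rcases hS.dim J hJp with hmin | hmax
  · have h5 : J.comap (algebraMap R S) = P := by
      have h6 := h.min_comap J hmin
      have h7 : P ≤ J.comap (algebraMap R S) := by
        rw [← Ideal.map_le_iff_le_comap]
        exact hJ
      exact le_antisymm (h6.2 hP.1 h7) h7
    rw [huniq J hmin h5]
  · rw [hmax]
    exact le_maximalIdeal hQp.ne_top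

/-- Descent. -/
theorem NodeLoc.down (h : EU R S) (hS : NodeLoc S) : NodeLoc R := by
  have hred := hS.red
  have hnoe := hS.noeth
  have hmin : ∀ P ∈ minimalPrimes R, ∃ Q ∈ minimalPrimes S, Q.comap (algebraMap R S) = P :=
    h.exists_min
  refine ⟨isReduced_of_injective _ h.inj, h.noeth_down, ?_, ?_, ?_⟩
  · intro P hP
    obtain ⟨Q, hQ, hQP⟩ : ∃ Q : Ideal S, Q.IsPrime ∧ Q.comap (algebraMap R S) = P := by
      obtain ⟨Q, h1, -, h3⟩ := h.down P (maximalIdeal S) (by
        have := h.loc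
        rw [((local_hom_TFAE (algebraMap R S)).out 0 4 rfl rfl).mp ‹_›]
        exact le_maximalIdeal hP.ne_top)
      exact ⟨Q, h1, h3⟩
    rcases hS.dim Q hQ with h1 | h1
    · left
      rw [← hQP]
      exact h.min_comap Q h1
    · right
      have := h.loc
      rw [← hQP, h1]
      exact ((local_hom_TFAE (algebraMap R S)).out 0 4 rfl rfl).mp ‹_›
  · intro P₁ h₁ P₂ h₂ hne
    obtain ⟨Q₁, hQ₁, e₁⟩ := hmin P₁ h₁
    obtain ⟨Q₂, hQ₂, e₂⟩ := hmin P₂ h₂
    have hQ : Q₁ ≠ Q₂ := by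
      rintro rfl
      exact hne (e₁.symm.trans e₂)
    have f₁ : P₁.map (algebraMap R S) = Q₁ := by
      refine h.map_min hS P₁ h₁ Q₁ hQ₁ e₁ fun Q' hQ' e' => ?_
      rcases hS.two Q₁ hQ₁ Q₂ hQ₂ hQ Q' hQ' with h3 | h3
      · exact h3
      · exfalso
        rw [h3, e₂] at e'
        exact hne e'.symm
    have f₂ : P₂.map (algebraMap R S) = Q₂ := by
      refine h.map_min hS P₂ h₂ Q₂ hQ₂ e₂ fun Q' hQ' e' => ?_
      rcases hS.two Q₁ hQ₁ Q₂ hQ₂ hQ Q' hQ' with h3 | h3
      · exfalso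
        rw [h3, e₁] at e'
        exact hne e'
      · exact h3
    rw [← h.comap_map (P₁ ⊔ P₂), Ideal.map_sup, f₁, f₂, hS.sum Q₁ hQ₁ Q₂ hQ₂ hQ]
    have := h.loc
    exact ((local_hom_TFAE (algebraMap R S)).out 0 4 rfl rfl).mp ‹_›
  · intro P₁ h₁ P₂ h₂ hne P₃ h₃
    obtain ⟨Q₁, hQ₁, e₁⟩ := hmin P₁ h₁
    obtain ⟨Q₂, hQ₂, e₂⟩ := hmin P₂ h₂
    obtain ⟨Q₃, hQ₃, e₃⟩ := hmin P₃ h₃
    have hQ : Q₁ ≠ Q₂ := by
      rintro rfl
      exact hne (e₁.symm.trans e₂)
    rcases hS.two Q₁ hQ₁ Q₂ hQ₂ hQ Q₃ hQ₃ with h4 | h4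
    · left
      rw [← e₃, h4, e₁]
    · right
      rw [← e₃, h4, e₂]

end

end Pool.Agent.MG.WL.CL
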