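import Pool.Agent.MG.WL.CL.L1
import Pool.Agent.MG.SmNod

/-!
# Local rings which are flat and unramified over the local rings of the node
-/

open IsLocalRing TensorProduct

namespace Pool.Agent.MG.WL.CL

section branch

variable {A D R : Type} [CommRing A] [CommRing D] [IsDomain D] [IsPrincipalIdealRing D]
  [CommRing R] [Algebra A R] (n : Ideal A) [n.IsPrime] [IsLocalization.AtPrime R n]
  (ν : A →+* D) (μ : D →+* A) (v : A)

/-- A branch of the node at a point of the branch. -/
theorem branch (h1 : ∀ d, ν (μ d) = d) (hv : ν v = 0) (h2 : ∀ a, ∃ w, a = μ (ν a) + v * w)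
    (hvn : v ∈ n) :
    IsDomain (R ⧸ Ideal.span {algebraMap A R v}) ∧
      IsPrincipalIdealRing (R ⧸ Ideal.span {algebraMap A R v}) := by
  set J : Ideal R := Ideal.span {algebraMap A R v} with hJ
  set ρ : D →+* R ⧸ J := (Ideal.Quotient.mk J).comp ((algebraMap A R).comp μ) with hρ
  have hnil : ∀ a : A, ν a = 0 → a ∈ n := by
    intro a ha
    obtain ⟨w, hw⟩ := h2 a
    rw [hw, ha, map_zero, zero_add]
    exact n.mul_mem_right _ hvn
  have hvJ : Ideal.Quotient.mk J (algebraMap A R v) = 0 := by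
    rw [Ideal.Quotient.eq_zero_iff_mem]
    exact Ideal.subset_span rfl
  have hmk : ∀ a : A, Ideal.Quotient.mk J (algebraMap A R a) = ρ (ν a) := by
    intro a
    obtain ⟨w, hw⟩ := h2 a
    conv_lhs => rw [hw]
    rw [map_add, map_mul, map_add, map_mul, hvJ, zero_mul, add_zero]
    rfl
  have hrep : ∀ b : R ⧸ J, ∃ (a : A) (s : (R ⧸ J)ˣ), (s : R ⧸ J) * b = ρ (ν a) := by
    intro b
    obtain ⟨r, rfl⟩ := Ideal.Quotient.mk_surjective b
    obtain ⟨⟨a, s⟩, hs⟩ := IsLocalization.surj n.primeCompl r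
    have hu : IsUnit (Ideal.Quotient.mk J (algebraMap A R s)) :=
      (IsLocalization.map_units R s).map _
    refine ⟨a, hu.unit, ?_⟩
    rw [IsUnit.unit_spec, ← hmk, ← map_mul, mul_comm, hs]
  have hinj : ∀ d : D, ρ d = 0 → d = 0 := by
    intro d hd
    have h3 : algebraMap A R (μ d) ∈ J := by
      rw [← Ideal.Quotient.eq_zero_iff_mem]
      exact hd
    rw [hJ, Ideal.mem_span_singleton] at h3
    obtain ⟨r, hr⟩ := h3
    obtain ⟨⟨w, t⟩, ht⟩ := IsLocalization.surj n.primeCompl r
    have h4 : algebraMap A R (t * μ d) = algebraMap A R (v * w) := by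
      have ht' : r * algebraMap A R t = algebraMap A R w := ht
      rw [map_mul, map_mul, hr, ← ht']
      ring
    obtain ⟨t', ht'⟩ := (IsLocalization.eq_iff_exists n.primeCompl R).1 h4
    have h5 := congrArg ν ht'
    rw [map_mul, map_mul, map_mul, map_mul, hv, zero_mul, mul_zero, h1, ← mul_assoc,
      ← map_mul] at h5
    rcases mul_eq_zero.1 h5 with h6 | h6
    · exfalso
      exact (n.primeCompl.mul_mem t'.2 t.2) (hnil _ h6)
    · exact h6
  have hJtop : J ≠ ⊤ := by
    intro htop
    have h3 : algebraMap A R v ∈ n.map (algebraMap A R) := Ideal.mem_map_of_mem _ hvn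
    have h4 : (⊤ : Ideal R) ≤ n.map (algebraMap A R) := by
      rw [← htop, hJ, Ideal.span_singleton_le_iff_mem]
      exact h3
    have h5 : (n.map (algebraMap A R)).comap (algebraMap A R) = n :=
      IsLocalization.comap_map_of_isPrime_disjoint n.primeCompl R ‹n.IsPrime›
        (by exact (Set.disjoint_left.2 fun x hx hx' => hx hx'))
    have h6 : (1 : A) ∈ n := by
      rw [← h5, Ideal.mem_comap]
      exact h4 trivial
    exact ‹n.IsPrime›.ne_top ((Ideal.eq_top_iff_one _).2 h6)
  have hnt : Nontrivial (R ⧸ J) := Ideal.Quotient.nontrivial_iff.2 hJtop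
  constructor
  · have hnz : NoZeroDivisors (R ⧸ J) := by
      refine ⟨fun {b b'} hbb => ?_⟩
      obtain ⟨a, s, hs⟩ := hrep b
      obtain ⟨a', s', hs'⟩ := hrep b'
      have h3 : ρ (ν a * ν a') = 0 := by
        rw [map_mul, ← hs, ← hs']
        calc (s : R ⧸ J) * b * (s' * b') = s * s' * (b * b') := by ring
          _ = 0 := by rw [hbb, mul_zero]
      rcases mul_eq_zero.1 (hinj _ h3) with h4 | h4
      · left
        rw [h4, map_zero] at hs
        exact (Units.mul_right_eq_zero s).1 hs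
      · right
        rw [h4, map_zero] at hs'
        exact (Units.mul_right_eq_zero s').1 hs'
    exact NoZeroDivisors.to_isDomain _
  · refine ⟨fun I => ?_⟩
    obtain ⟨g, hg⟩ := (IsPrincipalIdealRing.principal (I.comap ρ)).principal
    refine ⟨ρ g, le_antisymm ?_ ?_⟩
    · intro b hb
      obtain ⟨a, s, hs⟩ := hrep b
      have h3 : ν a ∈ I.comap ρ := by
        rw [Ideal.mem_comap, ← hs]
        exact I.mul_mem_left _ hb
      rw [hg, Ideal.submodule_span_eq, Ideal.mem_span_singleton] at h3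
      obtain ⟨e, he⟩ := h3
      rw [Ideal.submodule_span_eq, Ideal.mem_span_singleton]
      refine ⟨ρ e * ((s⁻¹ : (R ⧸ J)ˣ) : R ⧸ J), ?_⟩
      have h4 : b = ((s⁻¹ : (R ⧸ J)ˣ) : R ⧸ J) * (s * b) := by
        rw [← mul_assoc, Units.inv_mul, one_mul]
      rw [h4, hs, he, map_mul]
      ring
    · rw [Ideal.submodule_span_eq, Ideal.span_singleton_le_iff_mem]
      have : g ∈ I.comap ρ := by
        rw [hg]
        exact Submodule.mem_span_singleton_self g
      exact this

end branch

section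

variable {R S : Type} [CommRing R] [IsLocalRing R] [CommRing S] [IsLocalRing S] [Algebra R S]

theorem nodeLoc_of_dim (S : Type) [CommRing S] [IsLocalRing S] [IsDomain S] [IsNoetherianRing S]
    (h : ∀ Q : Ideal S, Q.IsPrime → Q = ⊥ ∨ Q = maximalIdeal S) : NodeLoc S := by
  have hm : minimalPrimes S = {⊥} := IsDomain.minimalPrimes_eq_singleton_bot _
  refine ⟨inferInstance, inferInstance, ?_, ?_, ?_⟩
  · intro P hP
    rcases h P hP with h1 | h1
    · left
      rw [hm]
      exact h1
    · exact Or.inr h1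
  · intro P₁ h₁ P₂ h₂ hne
    rw [hm] at h₁ h₂
    exact absurd ((show P₁ = ⊥ from h₁).trans (show P₂ = ⊥ from h₂).symm) hne
  · intro P₁ h₁ P₂ h₂ hne
    rw [hm] at h₁ h₂
    exact absurd ((show P₁ = ⊥ from h₁).trans (show P₂ = ⊥ from h₂).symm) hne

/-- Over a local principal ideal domain. -/
theorem EU.nodeLoc_of_pid (h : EU R S) [IsDomain R] [IsPrincipalIdealRing R] : NodeLoc S := by
  obtain ⟨⟨h1, h2⟩, -⟩ := h.pid
  have := h.noeth
  exact nodeLoc_of_dim S h2

/-- Over the node. -/
theorem EU.nodeLoc_of_node (h : EU R S) [IsNoetherianRing R] (u v : R) (huv : u * v = 0)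
    (hu : IsDomain (R ⧸ Ideal.span {u}) ∧ IsPrincipalIdealRing (R ⧸ Ideal.span {u}))
    (hv : IsDomain (R ⧸ Ideal.span {v}) ∧ IsPrincipalIdealRing (R ⧸ Ideal.span {v}))
    (hm : Ideal.span {u} ⊔ Ideal.span {v} = maximalIdeal R)
    (hreg : ∀ z, (u + v) * z = 0 → z = 0) : NodeLoc S := by
  have hflat := h.flat
  have hloc := h.loc
  have hnoe := h.noeth
  -- the quotients
  have key : ∀ w : R, IsDomain (R ⧸ Ideal.span {w}) ∧ IsPrincipalIdealRing (R ⧸ Ideal.span {w}) →
      (Ideal.span {algebraMap R S w}).IsPrime ∧ ∀ Q : Ideal S, Q.IsPrime →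
        Ideal.span {algebraMap R S w} ≤ Q → Q = Ideal.span {algebraMap R S w} ∨
          Q = maximalIdeal S := by
    rintro w ⟨hw1, hw2⟩
    have hmap : (Ideal.span {w}).map (algebraMap R S) = Ideal.span {algebraMap R S w} := by
      rw [Ideal.map_span, Set.image_singleton]
    have hle : Ideal.span {w} ≤ maximalIdeal R :=
      le_maximalIdeal (Ideal.Quotient.nontrivial_iff.1 inferInstance)
    have hle' : Ideal.span {algebraMap R S w} ≤ maximalIdeal S := by
      rw [← hmap, Ideal.map_le_iff_le_comap]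
      rw [((local_hom_TFAE (algebraMap R S)).out 0 4 rfl rfl).mp ‹_›]
      exact hle
    rw [← hmap] at hle' ⊢
    have hn' : Nontrivial (S ⧸ (Ideal.span {w}).map (algebraMap R S)) :=
      Ideal.Quotient.nontrivial_iff.2
        (fun h1 => (maximalIdeal.isMaximal S).ne_top (top_le_iff.1 (h1 ▸ hle')))
    have h1 : IsLocalRing (R ⧸ Ideal.span {w}) := IsLocalRing.of_surjective'
      (Ideal.Quotient.mk _) Ideal.Quotient.mk_surjective
    have h2 : IsLocalRing (S ⧸ (Ideal.span {w}).map (algebraMap R S)) :=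
      IsLocalRing.of_surjective' (Ideal.Quotient.mk _) Ideal.Quotient.mk_surjective
    obtain ⟨⟨h3, h4⟩, -⟩ := (h.quot (Ideal.span {w})).pid
    refine ⟨(Ideal.Quotient.isDomain_iff_prime _).1 h3, fun Q hQ hwQ => ?_⟩
    set K := (Ideal.span {w}).map (algebraMap R S) with hK
    have h5 : (Q.map (Ideal.Quotient.mk K)).IsPrime :=
      Ideal.map_isPrime_of_surjective Ideal.Quotient.mk_surjective (by rwa [Ideal.mk_ker])
    have h6 : (Q.map (Ideal.Quotient.mk K)).comap (Ideal.Quotient.mk K) = Q := by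
      rw [Ideal.comap_map_of_surjective _ Ideal.Quotient.mk_surjective,
        ← RingHom.ker_eq_comap_bot, Ideal.mk_ker, sup_eq_left]
      exact hwQ
    rcases h4 _ h5 with h7 | h7
    · left
      rw [← h6, h7, ← RingHom.ker_eq_comap_bot, Ideal.mk_ker]
    · right
      rw [← h6, h7]
      have : IsLocalHom (Ideal.Quotient.mk K) :=
        IsLocalHom.of_surjective _ Ideal.Quotient.mk_surjective
      exact ((local_hom_TFAE (Ideal.Quotient.mk K)).out 0 4 rfl rfl).mp this
  obtain ⟨hQu, hQu'⟩ := key u hu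
  obtain ⟨hQv, hQv'⟩ := key v hv
  set Qu := Ideal.span {algebraMap R S u} with hQudef
  set Qv := Ideal.span {algebraMap R S v} with hQvdef
  have huvS : algebraMap R S u * algebraMap R S v = 0 := by rw [← map_mul, huv, map_zero]
  have hregS : ∀ z, algebraMap R S (u + v) * z = 0 → z = 0 := by
    have h1 : IsSMulRegular R (u + v) := by
      intro a b hab
      have h2 : (u + v) * (a - b) = 0 := by
        have : (u + v) * a = (u + v) * b := hab
        rw [mul_sub, this, sub_self]
      exact sub_eq_zero.1 (hreg _ h2)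
    have h2 : IsSMulRegular S (u + v) := by
      have := h1.of_flat (S := S)
      intro a b hab
      apply this
      change algebraMap R S (u + v) * a = algebraMap R S (u + v) * b
      rw [← Algebra.smul_def, ← Algebra.smul_def]
      exact hab
    intro z hz
    apply h2
    change (u + v) • z = (u + v) • (0 : S)
    rw [Algebra.smul_def, hz, smul_zero]
  have hinf : ∀ x, x ∈ Qu → x ∈ Qv → x = 0 := by
    intro x hx hx'
    rw [hQudef, Ideal.mem_span_singleton] at hx
    rw [hQvdef, Ideal.mem_span_singleton] at hx'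
    obtain ⟨a, ha⟩ := hx
    obtain ⟨b, hb⟩ := hx'
    apply hregS
    rw [map_add, add_mul]
    nth_rewrite 1 [hb]
    rw [ha]
    linear_combination (a + b) * huvS
  have hor : ∀ Q : Ideal S, Q.IsPrime → Qu ≤ Q ∨ Qv ≤ Q := by
    intro Q hQ
    have : algebraMap R S u * algebraMap R S v ∈ Q := by
      rw [huvS]
      exact Q.zero_mem
    rcases hQ.mem_or_mem this with h1 | h1
    · left
      rw [hQudef, Ideal.span_singleton_le_iff_mem]
      exact h1
    · right
      rw [hQvdef, Ideal.span_singleton_le_iff_mem]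
      exact h1
  have hmin : ∀ Q ∈ minimalPrimes S, Q = Qu ∨ Q = Qv := by
    intro Q hQ
    rcases hor Q hQ.1.1 with h1 | h1
    · left
      exact le_antisymm (hQ.2 ⟨hQu, bot_le⟩ h1) h1
    · right
      exact le_antisymm (hQ.2 ⟨hQv, bot_le⟩ h1) h1
  have hsum : Qu ⊔ Qv = maximalIdeal S := by
    rw [← h.map_max, ← hm, Ideal.map_sup, Ideal.map_span, Ideal.map_span, Set.image_singleton,
      Set.image_singleton]
  refine ⟨?_, hnoe, ?_, ?_, ?_⟩
  · refine ⟨fun x hx => ?_⟩
    obtain ⟨n, hn⟩ := hx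
    refine hinf x (hQu.mem_of_pow_mem n ?_) (hQv.mem_of_pow_mem n ?_)
    · rw [hn]
      exact Qu.zero_mem
    · rw [hn]
      exact Qv.zero_mem
  · intro Q hQ
    by_cases hQm : Q = maximalIdeal S
    · exact Or.inr hQm
    left
    obtain ⟨Q', hQ', hle⟩ := Ideal.exists_minimalPrimes_le (I := (⊥ : Ideal S)) (J := Q) bot_le
    have : Q = Q' := by
      rcases hmin Q' hQ' with h1 | h1
      · rcases hQu' Q hQ (h1 ▸ hle) with h2 | h2
        · rw [h2, h1]
        · exact absurd h2 hQm
      · rcases hQv' Q hQ (h1 ▸ hle) with h2 | h2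
        · rw [h2, h1]
        · exact absurd h2 hQm
    rw [this]
    exact hQ'
  · intro P₁ h₁ P₂ h₂ hne
    rcases hmin P₁ h₁ with e₁ | e₁ <;> rcases hmin P₂ h₂ with e₂ | e₂
    · exact absurd (e₁.trans e₂.symm) hne
    · rw [e₁, e₂, hsum]
    · rw [e₁, e₂, sup_comm, hsum]
    · exact absurd (e₁.trans e₂.symm) hne
  · intro P₁ h₁ P₂ h₂ hne P₃ h₃
    rcases hmin P₁ h₁ with e₁ | e₁ <;> rcases hmin P₂ h₂ with e₂ | e₂ <;>
      rcases hmin P₃ h₃ with e₃ | e₃
    · exact Or.inl (e₃.trans e₁.symm)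
    · exact absurd (e₁.trans e₂.symm) hne
    · exact Or.inl (e₃.trans e₁.symm)
    · exact Or.inr (e₃.trans e₂.symm)
    · exact Or.inr (e₃.trans e₂.symm)
    · exact Or.inl (e₃.trans e₁.symm)
    · exact absurd (e₁.trans e₂.symm) hne
    · exact Or.inl (e₃.trans e₁.symm)

end

end Pool.Agent.MG.WL.CL
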