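import Pool.Agent.MG.SmNodA

/-!
# Local rings of nodal curves: unramified flat local homomorphisms
-/

open IsLocalRing TensorProduct

namespace Pool.Agent.MG.WL.CL

/-- Flat unramified local homomorphisms, essentially of finite type. -/
structure EU (R S : Type) [CommRing R] [IsLocalRing R] [CommRing S] [IsLocalRing S]
    [Algebra R S] : Prop where
  loc : IsLocalHom (algebraMap R S)
  flat : Module.Flat R S
  unr : Algebra.FormallyUnramified R S
  ess : Algebra.EssFiniteType R S

section EU

variable {R S : Type} [CommRing R] [IsLocalRing R] [CommRing S] [IsLocalRing S] [Algebra R S]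

theorem EU.map_max (h : EU R S) :
    (maximalIdeal R).map (algebraMap R S) = maximalIdeal S := by
  have := h.loc
  have := h.unr
  have := h.ess
  exact Algebra.FormallyUnramified.map_maximalIdeal

theorem EU.noeth (h : EU R S) [IsNoetherianRing R] : IsNoetherianRing S := by
  have := h.ess
  exact Algebra.EssFiniteType.isNoetherianRing R S

theorem EU.ff (h : EU R S) : Module.FaithfullyFlat R S := by
  have := h.flat
  have := h.loc
  exact Module.FaithfullyFlat.of_flat_of_isLocalHom

theorem EU.comap_map (h : EU R S) (I : Ideal R) :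
    (I.map (algebraMap R S)).comap (algebraMap R S) = I := by
  have := h.ff
  exact Ideal.comap_map_eq_self_of_faithfullyFlat I

theorem EU.down (h : EU R S) (P : Ideal R) [P.IsPrime] (Q : Ideal S) [Q.IsPrime]
    (hPQ : P ≤ Q.comap (algebraMap R S)) :
    ∃ Q' : Ideal S, Q'.IsPrime ∧ Q' ≤ Q ∧ Q'.comap (algebraMap R S) = P := by
  have := h.flat
  have : Q.LiesOver (Q.comap (algebraMap R S)) := ⟨rfl⟩
  obtain ⟨Q', h1, h2, h3⟩ := Ideal.exists_ideal_le_liesOver_of_le (p := P)
    (q := Q.comap (algebraMap R S)) Q hPQ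
  exact ⟨Q', h2, h1, h3.over.symm⟩

/-- Minimal primes lie over minimal primes. -/
theorem EU.min_comap (h : EU R S) (Q : Ideal S) (hQ : Q ∈ minimalPrimes S) :
    Q.comap (algebraMap R S) ∈ minimalPrimes R := by
  have hQp : Q.IsPrime := hQ.1.1
  refine ⟨⟨inferInstance, bot_le⟩, fun P hP hPQ => ?_⟩
  have hPp : P.IsPrime := hP.1
  obtain ⟨Q', h1, h2, h3⟩ := h.down P Q hPQ
  have h4 : Q ≤ Q' := hQ.2 ⟨h1, bot_le⟩ h2
  rw [← h3]
  exact Ideal.comap_mono h4

/-- Minimal primes are under minimal primes. -/
theorem EU.exists_min (h : EU R S) (P : Ideal R) (hP : P ∈ minimalPrimes R) :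
    ∃ Q ∈ minimalPrimes S, Q.comap (algebraMap R S) = P := by
  have hPp : P.IsPrime := hP.1.1
  obtain ⟨Q', h1, h2, h3⟩ := h.down P (maximalIdeal S) (by
    have := h.loc
    rw [((local_hom_TFAE (algebraMap R S)).out 0 4 rfl rfl).mp ‹_›]
    exact le_maximalIdeal hPp.ne_top)
  obtain ⟨Q, hQ, hQQ⟩ := Ideal.exists_minimalPrimes_le (I := (⊥ : Ideal S)) (J := Q') bot_le
  refine ⟨Q, hQ, le_antisymm ?_ ?_⟩
  · rw [← h3]
    exact Ideal.comap_mono hQQ
  · have h5 := h.min_comap Q hQ
    exact hP.2 h5.1 (by rw [← h3]; exact Ideal.comap_mono hQQ)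

/-- A local ring which is flat and unramified over a domain is reduced. -/
theorem EU.red (h : EU R S) [IsDomain R] : IsReduced S := by
  have := h.flat
  have := h.unr
  have := h.ess
  let K := FractionRing R
  have h1 : IsReduced (K ⊗[R] S) := by
    exact Algebra.FormallyUnramified.isReduced_of_field K (K ⊗[R] S)
  have h2 : Function.Injective (Algebra.TensorProduct.includeRight : S →ₐ[R] K ⊗[R] S) :=
    Algebra.TensorProduct.includeRight_injective (IsFractionRing.injective R K)
  exact isReduced_of_injective _ h2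

/-- A Noetherian local ring whose maximal ideal is generated by a nonzerodivisor. -/
theorem domain_of_gen {S : Type} [CommRing S] [IsLocalRing S] [IsNoetherianRing S] (t : S)
    (ht : maximalIdeal S = Ideal.span {t}) (hreg : ∀ z : S, t * z = 0 → z = 0) :
    IsDomain S ∧ ∀ Q : Ideal S, Q.IsPrime → Q = ⊥ ∨ Q = maximalIdeal S := by
  have key : ∀ x : S, x ≠ 0 → ∃ (n : ℕ) (w : S), IsUnit w ∧ x = t ^ n * w := by
    intro x hx
    have h1 : (⨅ i : ℕ, maximalIdeal S ^ i) = ⊥ :=
      Ideal.iInf_pow_eq_bot_of_isLocalRing _ (maximalIdeal.isMaximal S).ne_top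
    have h2 : ∃ n, x ∉ maximalIdeal S ^ n := by
      by_contra hcon
      push Not at hcon
      apply hx
      rw [← Ideal.mem_bot, ← h1, Ideal.mem_iInf]
      exact hcon
    classical
    have h3 := Nat.find_spec h2
    have h4 : Nat.find h2 ≠ 0 := by
      intro h0
      rw [h0, pow_zero] at h3
      exact h3 (by rw [Ideal.one_eq_top]; trivial)
    obtain ⟨m, hm⟩ := Nat.exists_eq_succ_of_ne_zero h4
    have h5 : x ∈ maximalIdeal S ^ m := by
      by_contra hcon
      exact Nat.find_min h2 (m := m) (by omega) hcon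
    rw [ht, Ideal.span_singleton_pow, Ideal.mem_span_singleton] at h5
    obtain ⟨w, hw⟩ := h5
    refine ⟨m, w, ?_, hw⟩
    by_contra hwu
    have h6 : w ∈ maximalIdeal S := hwu
    apply h3
    rw [hm, hw, Nat.succ_eq_add_one, pow_succ]
    refine Ideal.mul_mem_mul ?_ h6
    rw [ht, Ideal.span_singleton_pow]
    exact Ideal.mem_span_singleton_self _
  have hpow : ∀ (n : ℕ) (z : S), t ^ n * z = 0 → z = 0 := by
    intro n
    induction n with
    | zero => intro z hz; rwa [pow_zero, one_mul] at hz
    | succ n ih =>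
      intro z hz
      rw [pow_succ, mul_assoc] at hz
      exact hreg z (ih _ hz)
  constructor
  · have hnz : NoZeroDivisors S := by
      refine ⟨fun {a b} hab => ?_⟩
      by_contra hcon
      push Not at hcon
      obtain ⟨n, w, hw, rfl⟩ := key a hcon.1
      apply hcon.2
      refine hw.mul_right_eq_zero.1 (hpow n _ ?_)
      rw [← mul_assoc, hab]
    exact NoZeroDivisors.to_isDomain S
  · intro Q hQ
    by_cases h : Q = ⊥
    · exact Or.inl h
    right
    obtain ⟨x, hx, hx0⟩ := Submodule.exists_mem_ne_zero_of_ne_bot h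
    obtain ⟨n, w, hw, rfl⟩ := key x hx0
    have h1 : t ^ n ∈ Q := by
      obtain ⟨w', rfl⟩ := hw
      have := Q.mul_mem_right (↑w'⁻¹ : S) hx
      rwa [mul_assoc, Units.mul_inv, mul_one] at this
    have h2 : t ∈ Q := hQ.mem_of_pow_mem _ h1
    refine le_antisymm (le_maximalIdeal hQ.ne_top) ?_
    rw [ht, Ideal.span_singleton_le_iff_mem]
    exact h2

/-- A local ring which is flat and unramified over a local principal ideal domain. -/
theorem EU.pid (h : EU R S) [IsDomain R] [IsPrincipalIdealRing R] :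
    (IsDomain S ∧ ∀ Q : Ideal S, Q.IsPrime → Q = ⊥ ∨ Q = maximalIdeal S) ∧
      ∃ t, maximalIdeal S = Ideal.span {t} := by
  have := h.flat
  have hS : IsNoetherianRing S := h.noeth
  obtain ⟨t, ht⟩ := (IsPrincipalIdealRing.principal (maximalIdeal R)).principal
  have ht' : maximalIdeal S = Ideal.span {algebraMap R S t} := by
    rw [← h.map_max, ht, Ideal.submodule_span_eq, Ideal.map_span, Set.image_singleton]
  refine ⟨?_, _, ht'⟩
  by_cases h0 : t = 0
  · have hb : maximalIdeal S = ⊥ := by
      rw [ht', h0, map_zero, Ideal.span_singleton_eq_bot]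
    have hf : IsField S := isField_iff_maximalIdeal_eq.2 hb
    refine ⟨hf.isDomain, fun Q hQ => Or.inl ?_⟩
    rw [eq_bot_iff, ← hb]
    exact le_maximalIdeal hQ.ne_top
  · refine domain_of_gen _ ht' fun z hz => ?_
    have h1 := Module.Flat.isSMulRegular_of_nonZeroDivisors (M := S)
      (mem_nonZeroDivisors_of_ne_zero h0)
    apply h1
    change t • z = t • 0
    rw [smul_zero, Algebra.smul_def, hz]

end EU

end Pool.Agent.MG.WL.CL
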