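import Pool.Agent.MG.WL.CL.StmtsC

/-!
# NGEO: the ideals of the components in an affine open set
-/

open CategoryTheory AlgebraicGeometry IsLocalRing TopologicalSpace

namespace Pool.Agent.MG.WL.CL

namespace NGEO_

variable {E X : Scheme.{0}}

/-- The kernel cuts out the range. -/
theorem mem_range_iff (ι : E ⟶ X) [IsClosedImmersion ι] {W : X.Opens} (hW : IsAffineOpen W)
    (P : PrimeSpectrum Γ(X, W)) :
    RingHom.ker (ι.app W).hom ≤ P.asIdeal ↔ hW.fromSpec P ∈ Set.range ι := by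
  have hx : hW.fromSpec P ∈ W := by
    have h := Set.mem_range_self (f := hW.fromSpec) P
    rw [hW.range_fromSpec] at h
    exact h
  have h1 : Set.range ι = (ι.ker.support : Set X) := by
    rw [Scheme.Hom.support_ker]
    exact ι.isClosedEmbedding.isClosed_range.closure_eq.symm
  rw [h1]
  have h2 := Scheme.IdealSheafData.mem_support_iff_of_mem (I := ι.ker) (U := ⟨W, hW⟩) hx
  have h3 : hW.fromSpec P ∈ (ι.ker.support : Set X) ↔ hW.fromSpec P ∈ ι.ker.support := Iff.rfl
  rw [h3, h2, Scheme.Hom.ker_apply]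
  have h4 : hW.fromSpec P ∈ X.zeroLocus (U := W) (RingHom.ker (ι.app W).hom : Set Γ(X, W)) ↔
      P ∈ hW.fromSpec ⁻¹' X.zeroLocus (U := W) (RingHom.ker (ι.app W).hom : Set Γ(X, W)) :=
    Iff.rfl
  rw [IsAffineOpen.fromSpec_preimage_zeroLocus] at h4
  exact Iff.symm h4

/-- The minimal prime of a component in a local ring. -/
theorem exists_min {ι : E ⟶ X} (h : IsComp ι) {W : X.Opens} (x : X) (hx : x ∈ W)
    (hr : x ∈ Set.range ι) : ∃ Q ∈ minimalPrimes (X.presheaf.stalk x),
      ∀ r : Γ(X, W), X.presheaf.germ W x hx r ∈ Q ↔ r ∈ RingHom.ker (ι.app W).hom := by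
  obtain ⟨y, rfl⟩ := hr
  refine ⟨RingHom.ker (ι.stalkMap y).hom, h.ker_min y, fun r => ?_⟩
  have := h.int
  have h1 : (ι.stalkMap y).hom (X.presheaf.germ W (ι y) hx r) =
      E.presheaf.germ (ι ⁻¹ᵁ W) y hx (ι.app W r) :=
    Scheme.Hom.germ_stalkMap_apply ι W y hx r
  rw [RingHom.mem_ker, RingHom.mem_ker, h1]
  have h2 := germ_injective_of_isIntegral E (U := ι ⁻¹ᵁ W) y hx
  exact map_eq_zero_iff _ h2

/-- The point is a generic point of a component. -/
theorem gen_comp {y : X} (hy : Gen y) : closure {y} ∈ irreducibleComponents X := by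
  refine ⟨isIrreducible_singleton.closure, ?_⟩
  intro Z hZ hle
  have hZ' : IsIrreducible (closure Z) := hZ.closure
  have hg := hZ'.isGenericPoint_genericPoint isClosed_closure
  have h1 : y ∈ closure Z := subset_closure (hle (subset_closure rfl))
  have h2 : hZ'.genericPoint ⤳ y := by
    rw [specializes_iff_mem_closure, hg.def]
    exact h1
  have h3 := hy _ h2
  intro z hz
  have h4 : z ∈ closure Z := subset_closure hz
  rw [← hg.def, h3] at h4
  exact h4

/-- Elements of the minimal prime are fractions of elements of the kernel. -/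
theorem frac {W : X.Opens} (hW : IsAffineOpen W) (P : PrimeSpectrum Γ(X, W))
    (hx : hW.fromSpec P ∈ W) (K : Ideal Γ(X, W)) (Q : Ideal (X.presheaf.stalk (hW.fromSpec P)))
    (hQ : ∀ r : Γ(X, W), X.presheaf.germ W _ hx r ∈ Q ↔ r ∈ K)
    (u : X.presheaf.stalk (hW.fromSpec P)) (hu : u ∈ Q) :
    ∃ r ∈ K, ∃ s, s ∉ P.asIdeal ∧
      u * X.presheaf.germ W _ hx s = X.presheaf.germ W _ hx r := by
  let _ := TopCat.Presheaf.algebra_section_stalk X.presheaf ⟨hW.fromSpec P, hx⟩
  have loc : IsLocalization.AtPrime (X.presheaf.stalk (hW.fromSpec P)) P.asIdeal :=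
    hW.isLocalization_stalk' P hx
  obtain ⟨⟨r, s⟩, h⟩ := IsLocalization.surj P.asIdeal.primeCompl u
  have h' : u * X.presheaf.germ W _ hx s = X.presheaf.germ W _ hx r := h
  refine ⟨r, ?_, s, s.2, h'⟩
  rw [← hQ, ← h']
  exact Ideal.mul_mem_right _ _ hu

theorem mem_max {W : X.Opens} (hW : IsAffineOpen W) (P : PrimeSpectrum Γ(X, W))
    (hx : hW.fromSpec P ∈ W) (a : Γ(X, W)) (ha : a ∈ P.asIdeal) :
    X.presheaf.germ W _ hx a ∈ maximalIdeal (X.presheaf.stalk (hW.fromSpec P)) := by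
  let _ := TopCat.Presheaf.algebra_section_stalk X.presheaf ⟨hW.fromSpec P, hx⟩
  have loc : IsLocalization.AtPrime (X.presheaf.stalk (hW.fromSpec P)) P.asIdeal :=
    hW.isLocalization_stalk' P hx
  exact (IsLocalization.AtPrime.to_map_mem_maximal_iff _ P.asIdeal a).2 ha

theorem eq_loc {W : X.Opens} (hW : IsAffineOpen W) (P : PrimeSpectrum Γ(X, W))
    (hx : hW.fromSpec P ∈ W) (a b : Γ(X, W))
    (h : X.presheaf.germ W _ hx a = X.presheaf.germ W _ hx b) :
    ∃ t, t ∉ P.asIdeal ∧ t * a = t * b := by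
  let _ := TopCat.Presheaf.algebra_section_stalk X.presheaf ⟨hW.fromSpec P, hx⟩
  have loc : IsLocalization.AtPrime (X.presheaf.stalk (hW.fromSpec P)) P.asIdeal :=
    hW.isLocalization_stalk' P hx
  obtain ⟨c, hc⟩ := (IsLocalization.eq_iff_exists P.asIdeal.primeCompl
    (X.presheaf.stalk (hW.fromSpec P))).1 h
  exact ⟨c, c.2, hc⟩

/-- An irreducible closed set is determined by an open part. -/
theorem eq_of_inter {Z Z' : Set X} (hZ : Z ∈ irreducibleComponents X)
    (hZ' : Z' ∈ irreducibleComponents X) (W : X.Opens) (x : X) (hx : x ∈ W) (hxZ : x ∈ Z)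
    (h : ∀ y ∈ W, y ∈ Z → y ∈ Z') : Z = Z' := by
  have hcl' := isClosed_of_mem_irreducibleComponents Z' hZ'
  have h1 : Z ⊆ closure (Z ∩ (W : Set X)) :=
    subset_closure_inter_of_isPreirreducible_of_isOpen hZ.1.2 W.isOpen ⟨x, hxZ, hx⟩
  have h2 : Z ⊆ Z' := fun y hy => by
    have h3 : closure (Z ∩ (W : Set X)) ⊆ Z' :=
      closure_minimal (fun z hz => h z hz.2 hz.1) hcl'
    exact h3 (h1 hy)
  exact Set.Subset.antisymm h2 (hZ.2 hZ'.1 h2)

end NGEO_

open NGEO_ in
theorem t_NGEO (hU : Stmt_UNQ) (_hG : Stmt_GSP) (hM : Stmt_MPC) : Stmt_NGEO := by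
  intro X hN W hW I E ι hc hinj
  have hst : ∀ x : X, _root_.IsReduced (X.presheaf.stalk x) := fun x => (hN x).red
  have hred : IsReduced X := isReduced_of_isReduced_stalk X
  have hr1 : ∀ (P : PrimeSpectrum Γ(X, W)) (i : I),
      RingHom.ker ((ι i).app W).hom ≤ P.asIdeal ↔ hW.fromSpec P ∈ Set.range (ι i) := by
    intro P i
    have := (hc i).cl
    exact mem_range_iff (ι i) hW P
  refine ⟨hr1, ?_, ?_, ?_⟩
  · intro P i j hij hi hj a ha
    have hx : hW.fromSpec P ∈ W := by
      have h := Set.mem_range_self (f := hW.fromSpec) P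
      rw [hW.range_fromSpec] at h
      exact h
    obtain ⟨Qi, hQi, hi2⟩ := exists_min (hc i) (W := W) _ hx hi
    obtain ⟨Qj, hQj, hj2⟩ := exists_min (hc j) (W := W) _ hx hj
    have hne : Qi ≠ Qj := by
      intro he
      subst he
      apply hij
      apply hinj
      refine eq_of_inter (hc i).range (hc j).range W _ hx hi fun y hy hyi => ?_
      obtain ⟨P', rfl⟩ : ∃ P' : PrimeSpectrum Γ(X, W), hW.fromSpec P' = y := by
        have h := hW.range_fromSpec
        have h2 : y ∈ Set.range hW.fromSpec := by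
          rw [h]
          exact hy
        exact h2
      rw [← hr1] at hyi ⊢
      intro r hr
      exact hyi ((hi2 r).1 ((hj2 r).2 hr))
    have hsum := (hN (hW.fromSpec P)).sum Qi hQi Qj hQj hne
    have h1 := mem_max hW P hx a ha
    rw [← hsum, Submodule.mem_sup] at h1
    obtain ⟨u, hu, v, hv, huv⟩ := h1
    obtain ⟨r, hr, s, hs, h3⟩ := frac hW P hx _ Qi hi2 u hu
    obtain ⟨r', hr', s', hs', h4⟩ := frac hW P hx _ Qj hj2 v hv
    have h5 : X.presheaf.germ W _ hx (s * s' * a) = X.presheaf.germ W _ hx (s' * r + s * r') := by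
      rw [map_mul, map_mul, map_add, map_mul, map_mul, ← huv, ← h3, ← h4]
      ring
    obtain ⟨t, ht, h6⟩ := eq_loc hW P hx _ _ h5
    refine ⟨t * (s * s'), ?_, ?_⟩
    · intro h7
      rcases P.isPrime.mem_or_mem h7 with h8 | h8
      · exact ht h8
      · rcases P.isPrime.mem_or_mem h8 with h9 | h9
        · exact hs h9
        · exact hs' h9
    · rw [mul_assoc, h6, mul_add]
      refine Submodule.add_mem_sup ?_ ?_
      · exact Ideal.mul_mem_left _ _ (Ideal.mul_mem_left _ _ hr)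
      · exact Ideal.mul_mem_left _ _ (Ideal.mul_mem_left _ _ hr')
  · intro hall
    rw [eq_bot_iff]
    intro r hr
    rw [Ideal.mem_iInf] at hr
    rw [Ideal.mem_bot]
    refine hU W r 0 fun y hy hgen => ?_
    obtain ⟨i, hi⟩ := hall _ (gen_comp hgen)
    have hyi : y ∈ Set.range (ι i) := by
      rw [hi]
      exact subset_closure rfl
    obtain ⟨Q, hQ, hQ2⟩ := exists_min (hc i) (W := W) y hy hyi
    have h1 := (hM y).1 y (specializes_refl y) hgen
    have h2 : RingHom.ker (X.presheaf.stalkSpecializes (specializes_refl y)).hom = ⊥ := by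
      rw [TopCat.Presheaf.stalkSpecializes_refl]
      ext z
      rfl
    rw [h2] at h1
    have h3 : Q = ⊥ := by
      rw [eq_bot_iff]
      exact hQ.2 ⟨h1.1.1, bot_le⟩ bot_le
    have h4 := (hQ2 r).2 (hr i)
    rw [h3, Ideal.mem_bot] at h4
    rw [h4, map_zero]
  · intro i
    have := (hc i).cl
    exact Scheme.Hom.app_surjective (ι i) W hW

end Pool.Agent.MG.WL.CL
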