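import Pool.Agent.MG.WL.Top
import Pool.Agent.MG.WL.CL.StmtsL
import Pool.Agent.MG.W.W0E

/-!
# `M̄_{1,1}`, block `CL`: statements

A stable one-pointed curve of genus one over an algebraically closed field of characteristic zero
is irreducible and then it is a Weierstrass curve without cusps. Paper proofs are in `PAPER.md`.
-/

open CategoryTheory AlgebraicGeometry IsLocalRing TopologicalSpace
open Pool.Agent.MG.Two Pool.Agent.MG.W Pool.Agent.MG.W.W0 Pool.Agent.MG.One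

namespace Pool.Agent.MG.WL.CL

/-! ## Definitions -/

/-- The generic points of the irreducible components. -/
def Gen {X : Scheme.{0}} (η : X) : Prop := ∀ y : X, y ⤳ η → y = η

/-- All local rings are nodal. -/
def NodeLocs (X : Scheme.{0}) : Prop := ∀ x : X, NodeLoc (X.presheaf.stalk x)

/-- An integral scheme of dimension at most one. -/
def Dim1 (X : Scheme.{0}) : Prop :=
  ∀ (x : X) (P : Ideal (X.presheaf.stalk x)), P.IsPrime → P = ⊥ ∨ P = maximalIdeal _

/-- The points on at least two irreducible components. -/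
def dbl (X : Scheme.{0}) : Set X :=
  {x | ∃ Z ∈ irreducibleComponents X, ∃ Z' ∈ irreducibleComponents X, Z ≠ Z' ∧ x ∈ Z ∧ x ∈ Z'}

/-- `ι : E → X` is the inclusion of an irreducible component of a nodal curve. -/
structure IsComp {E X : Scheme.{0}} (ι : E ⟶ X) : Prop where
  cl : IsClosedImmersion ι
  int : IsIntegral E
  range : Set.range ι ∈ irreducibleComponents X
  ker_min : ∀ y : E, RingHom.ker (ι.stalkMap y).hom ∈ minimalPrimes (X.presheaf.stalk (ι y))
  dim : Dim1 E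
  pir : ∃ V : E.Opens, Nonempty V ∧ ∀ y ∈ V, IsPrincipalIdealRing (E.presheaf.stalk y)

/-- `Z` is an irreducible component with `H¹(O) = 0`. -/
def Good {X : Scheme.{0}} {k : Type} [Field k] (π : X ⟶ Sp k) (Z : Set X) : Prop :=
  ∃ (E : Scheme.{0}) (ι : E ⟶ X), IsComp ι ∧ Set.range ι = Z ∧ HasGenus (ι ≫ π) 0

/-- The rational functions which vanish at `p`. -/
def Mx {E : Scheme.{0}} [IsIntegral E] (p : E) : Set E.functionField :=
  {g | ∃ a ∈ maximalIdeal (E.presheaf.stalk p), algebraMap (E.presheaf.stalk p) E.functionField a = g}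

/-- A derivation over `k` of the function field which preserves all local rings. -/
structure FDer {E : Scheme.{0}} [IsIntegral E] {k : Type} [Field k] (π : E ⟶ Sp k)
    (δ : E.functionField → E.functionField) : Prop where
  add : ∀ f g, δ (f + g) = δ f + δ g
  mul : ∀ f g, δ (f * g) = f * δ g + g * δ f
  const : ∀ c : k, δ (kfun π c) = 0
  reg : ∀ (x : E), ∀ g ∈ O x, δ g ∈ O x

/-- An affine neighbourhood with a coordinate of a regular closed point. -/
structure Cht {X : Scheme.{0}} (p : X) where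
  N : X.Opens
  z : Γ(X, N)
  aff : IsAffineOpen N
  mem : p ∈ N
  gz : ∀ r : Γ(X, N), p ∉ X.basicOpen r ↔ ∃ s, r = z * s
  bas : ∀ x ∈ N, x ∈ X.basicOpen z ↔ x ≠ p

/-! ## Vector fields -/

/-- UNQ: sections of a reduced scheme are determined by their germs at the generic points. -/
def Stmt_UNQ : Prop :=
  ∀ {X : Scheme.{0}} [IsReduced X] (U : X.Opens) (a b : Γ(X, U)),
    (∀ (y : X) (hy : y ∈ U), Gen y → X.presheaf.germ U y hy a = X.presheaf.germ U y hy b) → a = b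

/-- GSP: primes of local rings and generisations. -/
def Stmt_GSP : Prop :=
  ∀ {X : Scheme.{0}} (x : X),
    (∀ (P : Ideal (X.presheaf.stalk x)), P.IsPrime → ∃ (y : X) (h : y ⤳ x),
      (maximalIdeal (X.presheaf.stalk y)).comap (X.presheaf.stalkSpecializes h).hom = P) ∧
    (∀ (y y' : X) (h : y ⤳ x) (h' : y' ⤳ x),
      (maximalIdeal (X.presheaf.stalk y)).comap (X.presheaf.stalkSpecializes h).hom ≤
        (maximalIdeal (X.presheaf.stalk y')).comap (X.presheaf.stalkSpecializes h').hom ↔ y ⤳ y') ∧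
    (∀ (h : x ⤳ x),
      (maximalIdeal (X.presheaf.stalk x)).comap (X.presheaf.stalkSpecializes h).hom =
        maximalIdeal (X.presheaf.stalk x))

/-- MPC: for schemes with reduced local rings the minimal primes of the local ring at `x` are the
kernels of the restrictions to the generic points which specialise to `x`. -/
def Stmt_MPC : Prop :=
  ∀ {X : Scheme.{0}} [IsReduced X] (x : X),
    (∀ (η : X) (h : η ⤳ x), Gen η →
      RingHom.ker (X.presheaf.stalkSpecializes h).hom ∈ minimalPrimes (X.presheaf.stalk x)) ∧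
    (∀ (η η' : X) (h : η ⤳ x) (h' : η' ⤳ x), Gen η → Gen η' →
      RingHom.ker (X.presheaf.stalkSpecializes h).hom =
        RingHom.ker (X.presheaf.stalkSpecializes h').hom → η = η') ∧
    (∀ P ∈ minimalPrimes (X.presheaf.stalk x), ∃ (η : X) (h : η ⤳ x), Gen η ∧
      RingHom.ker (X.presheaf.stalkSpecializes h).hom = P)

/-- VF: a vector field from a map of the local ring at one generic point. -/
def Stmt_VF : Prop :=
  ∀ {X : Scheme.{0}} [IsReduced X] [NoetherianSpace X] (η : X), Gen η →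
    ∀ (D : X.presheaf.stalk η → X.presheaf.stalk η),
    (∀ (x : X) (h : η ⤳ x) (g : X.presheaf.stalk x), ∃ g' : X.presheaf.stalk x,
      X.presheaf.stalkSpecializes h g' = D (X.presheaf.stalkSpecializes h g) ∧
      ∀ (y : X) (hy : y ⤳ x), Gen y → y ≠ η → X.presheaf.stalkSpecializes hy g' = 0) →
    ∃ F : ∀ U : X.Opens, Γ(X, U) → Γ(X, U),
      (∀ (U : X.Opens) (hU : η ∈ U) (a : Γ(X, U)),
        X.presheaf.germ U η hU (F U a) = D (X.presheaf.germ U η hU a)) ∧
      (∀ (U : X.Opens) (y : X) (hy : y ∈ U), Gen y → y ≠ η → ∀ a : Γ(X, U),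
        X.presheaf.germ U y hy (F U a) = 0) ∧
      (∀ (U : X.Opens) (x : X) (hx : x ∈ U) (a : Γ(X, U)), ¬ (η ⤳ x) →
        X.presheaf.germ U x hx (F U a) = 0) ∧
      (∀ (U : X.Opens) (x : X) (hx : x ∈ U) (a : Γ(X, U)) (h : η ⤳ x)
        (g' : X.presheaf.stalk x),
        X.presheaf.stalkSpecializes h g' =
          D (X.presheaf.stalkSpecializes h (X.presheaf.germ U x hx a)) →
        (∀ (y : X) (hy : y ⤳ x), Gen y → y ≠ η → X.presheaf.stalkSpecializes hy g' = 0) →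
        X.presheaf.germ U x hx (F U a) = g')

/-- CE: the irreducible components of a nodal curve. -/
def Stmt_CE : Prop :=
  ∀ {k : Type} [Field k] {X : Scheme.{0}} (π : X ⟶ Sp k) [IsProper π], Nodal π → NodeLocs X →
    ∀ Z ∈ irreducibleComponents X, ∃ (E : Scheme.{0}) (ι : E ⟶ X), IsComp ι ∧ Set.range ι = Z

/-- EXT: a vector field on a component which vanishes at the points on other components and at the
marked point extends by zero. -/
def Stmt_EXT : Prop :=
  ∀ {k : Type} [Field k] [IsAlgClosed k] (C : Fam 1 k), IsProper C.π → Nodal C.π → NodeLocs C.X →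
    ∀ (q : Sp k) {E : Scheme.{0}} (ι : E ⟶ C.X) (h : IsComp ι) [IsIntegral E]
      (δ : E.functionField → E.functionField), FDer (ι ≫ C.π) δ →
      (∀ y : E, ι y ∈ dbl C.X → ∀ g ∈ O y, δ g ∈ Mx y) →
      (∀ y : E, ι y = C.σ 0 q → ∀ g ∈ O y, δ g ∈ Mx y) →
      (∃ f, δ f ≠ 0) →
      ∃ (v : VField C) (U : C.X.Opens), v.D U ≠ 0

/-! ## Counting -/

/-- CNT0: the linear algebra of the Čech complexes. -/
def Stmt_CNT0 : Prop :=
  ∀ (k : Type) [Field k] (I D : Type) [Fintype I] [Fintype D] [DecidableEq I]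
    (RU RV RW : Type) [AddCommGroup RU] [AddCommGroup RV] [AddCommGroup RW]
    [Module k RU] [Module k RV] [Module k RW]
    (MU MV MW : I → Type) [∀ i, AddCommGroup (MU i)] [∀ i, AddCommGroup (MV i)]
    [∀ i, AddCommGroup (MW i)] [∀ i, Module k (MU i)] [∀ i, Module k (MV i)]
    [∀ i, Module k (MW i)]
    (ρU : RU →ₗ[k] RW) (ρV : RV →ₗ[k] RW)
    (rU : ∀ i, MU i →ₗ[k] MW i) (rV : ∀ i, MV i →ₗ[k] MW i)
    (iU : ∀ i, RU →ₗ[k] MU i) (iV : ∀ i, RV →ₗ[k] MV i) (iW : ∀ i, RW →ₗ[k] MW i)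
    (L : RW →ₗ[k] k)
    (PU PV : D → Prop)
    (δU : D → (∀ i, MU i) →ₗ[k] k) (δV : D → (∀ i, MV i) →ₗ[k] k)
    (δW : D → (∀ i, MW i) →ₗ[k] k) (oneU : RU) (oneV : RV),
    (∀ i a, rU i (iU i a) = iW i (ρU a)) → (∀ i a, rV i (iV i a) = iW i (ρV a)) →
    Function.Surjective L → (∀ s, L s = 0 ↔ ∃ a b, s = ρU a + ρV b) →
    (∀ d, PU d ∨ PV d) →
    (∀ a d, PU d → δU d (fun i => iU i a) = 0) → (∀ a d, PV d → δV d (fun i => iV i a) = 0) →
    (∀ a d, PU d → PV d → δW d (fun i => iW i a) = 0) →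
    (∀ c : D → k, ∃ m, ∀ d, PU d → δU d m = c d) → (∀ c : D → k, ∃ m, ∀ d, PV d → δV d m = c d) →
    (∀ d m, PU d → PV d → δW d (fun i => rU i (m i)) = δU d m) →
    (∀ d m, PU d → PV d → δW d (fun i => rV i (m i)) = δV d m) →
    (∀ m, (∀ d, PU d → PV d → δW d m = 0) → ∃ a, ∀ i, iW i a = m i) →
    (∀ a, (∀ i, iW i a = 0) → a = 0) →
    (∀ i a b, rU i a = rV i b → ∃ c : k, a = c • iU i oneU ∧ b = c • iV i oneV) →
    ρU oneU = ρV oneV →
    Fintype.card D +
      {i : I | ¬ ∀ s : MW i, ∃ a b, s = rU i a + rV i b}.ncard ≤ Fintype.card I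

/-- NAFF: functions on an affine nodal curve. -/
def Stmt_NAFF : Prop :=
  ∀ {R I : Type} [CommRing R] [Finite I] (J : I → Ideal R), (⨅ i, J i) = ⊥ →
    (∀ P : Ideal R, P.IsMaximal → ∀ i j l, J i ≤ P → J j ≤ P → J l ≤ P → i ≠ j → l = i ∨ l = j) →
    (∀ P : Ideal R, P.IsMaximal → ∀ i j, J i ≤ P → J j ≤ P → i ≠ j →
      ∀ a ∈ P, ∃ t, t ∉ P ∧ t * a ∈ J i ⊔ J j) →
    ∀ m : I → R, (∀ P : Ideal R, P.IsMaximal → ∀ i j, J i ≤ P → J j ≤ P → m i - m j ∈ P) →
      ∃ a, ∀ i, a - m i ∈ J i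

/-- DFIN: the points on two components. -/
def Stmt_DFIN : Prop :=
  ∀ {X : Scheme.{0}} [NoetherianSpace X], NodeLocs X →
    (dbl X).Finite ∧ (∀ x ∈ dbl X, IsClosed {x}) ∧
    (∀ x ∈ dbl X, ¬ IsDomain (X.presheaf.stalk x)) ∧
    ∀ Z₁ ∈ irreducibleComponents X, ∀ Z₂ ∈ irreducibleComponents X, Z₁ ≠ Z₂ →
      ∀ Z₃ ∈ irreducibleComponents X, ∀ x, x ∈ Z₁ → x ∈ Z₂ → x ∈ Z₃ → Z₃ = Z₁ ∨ Z₃ = Z₂

/-- VAL: values at closed points. -/
def Stmt_VAL : Prop :=
  ∀ {k : Type} [Field k] [IsAlgClosed k] {X : Scheme.{0}} (π : X ⟶ Sp k) [LocallyOfFiniteType π]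
    (x : X), IsClosed {x} → ∃ e : X.presheaf.stalk x →+* k, RingHom.ker e = maximalIdeal _ ∧
      ∀ (U : X.Opens) (hx : x ∈ U) (c : k), e (X.presheaf.germ U x hx (coef π U c)) = c

/-- NGEO: the ideals of the components in an affine open set of a nodal curve satisfy the
hypotheses of `Stmt_NAFF`. -/
def Stmt_NGEO : Prop :=
  ∀ {X : Scheme.{0}}, NodeLocs X → ∀ {W : X.Opens} (hW : IsAffineOpen W) {I : Type}
    (E : I → Scheme.{0}) (ι : ∀ i, E i ⟶ X), (∀ i, IsComp (ι i)) →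
    (∀ i j, Set.range (ι i) = Set.range (ι j) → i = j) →
    (∀ (P : PrimeSpectrum Γ(X, W)) (i : I),
      RingHom.ker ((ι i).app W).hom ≤ P.asIdeal ↔ hW.fromSpec P ∈ Set.range (ι i)) ∧
    (∀ (P : PrimeSpectrum Γ(X, W)) (i j : I), i ≠ j → hW.fromSpec P ∈ Set.range (ι i) →
      hW.fromSpec P ∈ Set.range (ι j) → ∀ a ∈ P.asIdeal, ∃ t, t ∉ P.asIdeal ∧
        t * a ∈ RingHom.ker ((ι i).app W).hom ⊔ RingHom.ker ((ι j).app W).hom) ∧
    ((∀ Z ∈ irreducibleComponents X, ∃ i, Set.range (ι i) = Z) →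
      ⨅ i, RingHom.ker ((ι i).app W).hom = ⊥) ∧
    (∀ i, Function.Surjective ((ι i).app W).hom)

/-- CNT: the count of the components and the double points of a nodal curve of genus one. -/
def Stmt_CNT : Prop :=
  ∀ {k : Type} [Field k] [IsAlgClosed k] {X : Scheme.{0}} (π : X ⟶ Sp k) [IsProper π],
    Nodal π → NodeLocs X → HasGenus π 1 →
    (dbl X).ncard + {Z | Z ∈ irreducibleComponents X ∧ ¬ Good π Z}.ncard ≤
      (irreducibleComponents X).ncard

/-- ARITH: the combinatorics. -/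
def Stmt_ARITH : Prop :=
  ∀ {X : Type} [TopologicalSpace X] [NoetherianSpace X] [ConnectedSpace X] (D : Set X)
    (good : Set X → Prop) (s : X), D.Finite →
    (∀ x, x ∈ D ↔ ∃ Z ∈ irreducibleComponents X, ∃ Z' ∈ irreducibleComponents X,
      Z ≠ Z' ∧ x ∈ Z ∧ x ∈ Z') →
    (∀ Z₁ ∈ irreducibleComponents X, ∀ Z₂ ∈ irreducibleComponents X, Z₁ ≠ Z₂ →
      ∀ Z₃ ∈ irreducibleComponents X, ∀ x, x ∈ Z₁ → x ∈ Z₂ → x ∈ Z₃ → Z₃ = Z₁ ∨ Z₃ = Z₂) →
    D.ncard + {Z | Z ∈ irreducibleComponents X ∧ ¬ good Z}.ncard ≤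
      (irreducibleComponents X).ncard →
    s ∉ D → ¬ IrreducibleSpace X →
    ∃ Z ∈ irreducibleComponents X, good Z ∧ (Z ∩ D).Nonempty ∧ (Z ∩ (D ∪ {s})).ncard ≤ 2

/-! ## Integral curves -/

/-- AFC: the complement of a principal point in an affine open set is affine. -/
def Stmt_AFC : Prop :=
  ∀ {X : Scheme.{0}} {p : X} (c : Cht p) {V V' : X.Opens}, IsAffineOpen V →
    (∀ x, x ∈ V' ↔ x ∈ V ∧ x ≠ p) → IsAffineOpen V'

/-- CHT: a regular closed point has a coordinate. -/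
def Stmt_CHT : Prop :=
  ∀ {k : Type} [Field k] {X : Scheme.{0}} (π : X ⟶ Sp k) [LocallyOfFiniteType π] [IsIntegral X],
    Dim1 X → ∀ p : X, p ≠ genericPoint X → IsPrincipalIdealRing (X.presheaf.stalk p) →
      ∀ W : X.Opens, p ∈ W → ∃ c : Cht p, c.N ≤ W

/-- POLE: functions with a pole of small order at one point. -/
def Stmt_POLE : Prop :=
  ∀ {k : Type} [Field k] [IsAlgClosed k] {X : Scheme.{0}} (π : X ⟶ Sp k) [IsProper π]
    [IsIntegral X] (g : ℕ), HasGenus π g → ∀ {p : X}, IsClosed {p} → p ≠ genericPoint X →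
      ∀ (c : Cht p) [Nonempty c.N],
      ∃ (f : X.functionField) (n : ℕ) (u : Γ(X, c.N)), 1 ≤ n ∧ n ≤ g + 1 ∧
        (∀ x, x ≠ p → x ∈ dom f) ∧ p ∈ X.basicOpen u ∧
        f * X.germToFunctionField c.N c.z ^ n = X.germToFunctionField c.N u

/-- FIN: domains of functions are affine. -/
def Stmt_FIN : Prop :=
  ∀ {k : Type} [Field k] {X : Scheme.{0}} (π : X ⟶ Sp k) [IsProper π] [IsIntegral X], Dim1 X →
    ∀ f : X.functionField, Transc π f → (∀ x, x ∈ dom f ∨ x ∈ dom f⁻¹) → IsAffineOpen (dom f)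

/-- TRS: curves of genus one have non constant functions. -/
def Stmt_TRS : Prop :=
  ∀ {k : Type} [Field k] [IsAlgClosed k] {X : Scheme.{0}} (π : X ⟶ Sp k) [IsIntegral X],
    HasGenus π 1 → ∃ f : X.functionField, Transc π f

/-- GEN0: if `f` has a simple pole at `p` and no other pole then the functions with poles only
at `p` are the polynomials in `f`. -/
def Stmt_GEN0 : Prop :=
  ∀ {k : Type} [Field k] [IsAlgClosed k] {E : Scheme.{0}} (π : E ⟶ Sp k) [IsProper π]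
    [IsIntegral E] {p : E}, IsClosed {p} → IsPrincipalIdealRing (E.presheaf.stalk p) →
    ∀ (c : Cht p) [Nonempty c.N] (f : E.functionField) (u : Γ(E, c.N)),
    (∀ x, x ≠ p → x ∈ dom f) → p ∈ E.basicOpen u →
    f * E.germToFunctionField c.N c.z = E.germToFunctionField c.N u →
    ∀ h : E.functionField, (∀ x, x ≠ p → x ∈ dom h) →
      ∃ P : Polynomial k, h = P.eval₂ (kfun π) f

/-- DER: the vector fields `q(f) d/df`, `deg q ≤ 2`, on a curve with coordinate `f`. -/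
def Stmt_DER : Prop :=
  ∀ {k : Type} [Field k] [IsAlgClosed k] {E : Scheme.{0}} (π : E ⟶ Sp k) [IsProper π]
    [IsIntegral E] {p : E}, IsClosed {p} → p ≠ genericPoint E →
    ∀ (f : E.functionField), Transc π f → IsAffineOpen (dom f) → (∀ x, x ∈ dom f ↔ x ≠ p) →
    f⁻¹ ∈ Mx p →
    (∀ h : E.functionField, (∀ x, x ≠ p → x ∈ dom h) → ∃ P : Polynomial k, h = P.eval₂ (kfun π) f) →
    ∀ S : Set E, S.Finite → S.ncard ≤ 2 → p ∉ S → (∀ x ∈ S, x ≠ genericPoint E) →
      ∃ δ : E.functionField → E.functionField, FDer π δ ∧ (∃ f, δ f ≠ 0) ∧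
        ∀ x ∈ S, ∀ g ∈ O x, δ g ∈ Mx x

/-- P1: vector fields on integral curves with `H¹(O) = 0`. -/
def Stmt_P1 : Prop :=
  ∀ {k : Type} [Field k] [IsAlgClosed k] {E : Scheme.{0}} (π : E ⟶ Sp k) [IsProper π]
    [IsIntegral E], Dim1 E → HasGenus π 0 →
    (∃ V : E.Opens, Nonempty V ∧ ∀ y ∈ V, IsPrincipalIdealRing (E.presheaf.stalk y)) →
    ∀ S : Set E, S.Finite → S.ncard ≤ 2 → (∀ x ∈ S, x ≠ genericPoint E) → S.Nonempty →
      ∃ δ : E.functionField → E.functionField, FDer π δ ∧ (∃ f, δ f ≠ 0) ∧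
        ∀ x ∈ S, ∀ g ∈ O x, δ g ∈ Mx x

/-- INT: integral curves of genus one. -/
def Stmt_INT : Prop :=
  ∀ {k : Type} [Field k] [IsAlgClosed k] [CharZero k] (C : Fam 1 k) [IsIntegral C.X],
    IsProper C.π → Dim1 C.X → HasGenus C.π 1 →
    (∀ q : Sp k, IsPrincipalIdealRing (C.X.presheaf.stalk (C.σ 0 q))) →
    ∃ (a b : k) (f : Arrow (RingHom.id k) C (Wei (WZ a b))), IsIso f.f

/-- CUSP: the cuspidal cubic has a vector field. -/
def Stmt_CUSP : Prop :=
  ∀ {k : Type} [Field k] [CharZero k], IsIntegral (Wei (WZ (0 : k) 0)).X →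
    ∃ (v : VField (Wei (WZ (0 : k) 0))) (U : (Wei (WZ (0 : k) 0)).X.Opens), v.D U ≠ 0

/-- SMP: the marked point is regular. -/
def Stmt_SMP : Prop :=
  ∀ {k : Type} [Field k] {X : Scheme.{0}} (π : X ⟶ Sp k), Nodal π → ∀ (U : X.Opens),
    Smooth (U.ι ≫ π) → ∀ x ∈ U,
      IsDomain (X.presheaf.stalk x) ∧ IsPrincipalIdealRing (X.presheaf.stalk x)

end Pool.Agent.MG.WL.CL
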